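import Pool.Agent.Helper54.HL.St

/-!
# HY, local part: common lemmas for Q3 and LC
-/

set_option autoImplicit false

namespace Pool.Agent.Helper54.HL

open Polynomial IsDedekindDomain

namespace H94

section dvr

variable {O k : Type} [CommRing O] [IsDomain O] [IsDiscreteValuationRing O] [Field k] [Algebra O k]
  [IsFractionRing O k]

omit [IsDomain O] [IsDiscreteValuationRing O] in
theorem inj : Function.Injective (algebraMap O k) := IsFractionRing.injective O k

theorem am_ne {π : O} (hπ : Irreducible π) : algebraMap O k π ≠ 0 := by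
  rw [Ne, map_eq_zero_iff _ (inj (O := O) (k := k))]
  exact hπ.ne_zero

/-- a square of the form `π ^ n * c`, `c` a unit -/
theorem sq_lemma {π : O} (hπ : Irreducible π) {c : O} (hc : ¬ π ∣ c) {n : ℤ}
    (h : IsSquare (algebraMap O k π ^ n * algebraMap O k c)) : Even n ∧ IsSquare c := by
  obtain ⟨x, hx⟩ := h
  have hπ0 : algebraMap O k π ≠ 0 := am_ne hπ
  have hclosed : ∀ y : k, ∀ d : O, y * y = algebraMap O k d → ∃ e : O, algebraMap O k e = y := by
    intro y d hy
    have h1 : IsIntegral O y := by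
      refine ⟨X ^ 2 - C d, monic_X_pow_sub_C d two_ne_zero, ?_⟩
      rw [eval₂_sub, eval₂_pow, eval₂_X, eval₂_C, pow_two, hy, sub_self]
    exact IsIntegrallyClosed.isIntegral_iff.1 h1
  rcases Int.even_or_odd' n with ⟨m, hm | hm⟩
  · refine ⟨⟨m, by omega⟩, ?_⟩
    have h1 : (x / algebraMap O k π ^ m) * (x / algebraMap O k π ^ m) = algebraMap O k c := by
      rw [div_mul_div_comm, ← hx, hm, two_mul, zpow_add₀ hπ0]
      have : algebraMap O k π ^ m * algebraMap O k π ^ m ≠ 0 :=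
        mul_ne_zero (zpow_ne_zero _ hπ0) (zpow_ne_zero _ hπ0)
      rw [mul_div_cancel_left₀ _ this]
    obtain ⟨e, he⟩ := hclosed _ _ h1
    refine ⟨e, inj (O := O) (k := k) ?_⟩
    rw [map_mul, he, h1]
  · exfalso
    have h1 : (x / algebraMap O k π ^ m) * (x / algebraMap O k π ^ m) =
        algebraMap O k (π * c) := by
      rw [div_mul_div_comm, ← hx, hm, zpow_add₀ hπ0, two_mul, zpow_add₀ hπ0, zpow_one, map_mul]
      have : algebraMap O k π ^ m * algebraMap O k π ^ m ≠ 0 :=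
        mul_ne_zero (zpow_ne_zero _ hπ0) (zpow_ne_zero _ hπ0)
      rw [mul_assoc, mul_div_cancel_left₀ _ this]
    obtain ⟨e, he⟩ := hclosed _ _ h1
    have h2 : e * e = π * c := inj (O := O) (k := k) (by rw [map_mul, he, h1])
    have h3 : π ∣ e := by
      rcases hπ.prime.dvd_or_dvd (Dvd.intro c h2.symm : π ∣ e * e) with h | h <;> exact h
    obtain ⟨e', rfl⟩ := h3
    have h4 : e' * (π * e') = c := mul_left_cancel₀ hπ.ne_zero (by rw [← mul_assoc]; exact h2)
    exact hc ⟨e' * e', by rw [← h4]; ring⟩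

end dvr

section rep

variable {O k κ : Type} [CommRing O] [Field k] [Algebra O k] [Field κ] {π : O} {ρ : O →+* κ}
  {g₀ : O[X]}

theorem rep_const (hA : RepA k π ρ g₀) (hirr : Irreducible (g₀.map ρ)) {u : O} (hu : ρ u ≠ 0) :
    Rep π ρ g₀ (AdjoinRoot.mk (tk k g₀) (C (algebraMap O k u))) 0
      (AdjoinRoot.mk (g₀.map ρ) (C (ρ u))) := by
  have h1 := hA.int (C u) (by
    rw [Polynomial.map_C]
    intro h
    rw [AdjoinRoot.mk_eq_zero] at h
    have h2 : IsUnit (C (ρ u)) := isUnit_C.2 (isUnit_iff_ne_zero.2 hu)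
    exact hirr.not_isUnit (isUnit_of_dvd_unit h h2))
  rw [Polynomial.map_C] at h1
  simpa [tk] using h1

theorem rep_one (hA : RepA k π ρ g₀) : Rep π ρ g₀ (1 : AdjoinRoot (tk k g₀)) 0 1 := by
  have := hA.pow 0
  rwa [zpow_zero, C_1, map_one] at this

theorem rep_ne (hA : RepA k π ρ g₀) {z : AdjoinRoot (tk k g₀)} {e : ℤ}
    {s : AdjoinRoot (g₀.map ρ)} (h : Rep π ρ g₀ z e s) : z ≠ 0 := by
  rintro rfl
  have h1 := hA.mul _ _ _ _ _ _ h (hA.pow 1)
  rw [zero_mul] at h1
  have := (hA.uniq _ _ _ _ _ h h1).1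
  omega

theorem rep_inv (hA : RepA k π ρ g₀) {z z' : AdjoinRoot (tk k g₀)} {e : ℤ}
    {s : AdjoinRoot (g₀.map ρ)} (h : Rep π ρ g₀ z e s) (hz : z * z' = 1) :
    ∃ s', Rep π ρ g₀ z' (-e) s' ∧ s * s' = 1 := by
  have : Fact (Irreducible (tk k g₀)) := ⟨hA.irr⟩
  have hz' : z' ≠ 0 := by
    rintro rfl
    rw [mul_zero] at hz
    exact zero_ne_one hz
  obtain ⟨e', s', h'⟩ := hA.ex z' hz'
  have h1 := hA.mul _ _ _ _ _ _ h h'
  rw [hz] at h1
  obtain ⟨h2, h3⟩ := hA.uniq _ _ _ _ _ h1 (rep_one hA)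
  have : e' = -e := by omega
  subst this
  exact ⟨s', h', h3⟩

theorem rep_pow (hA : RepA k π ρ g₀) {z : AdjoinRoot (tk k g₀)} {e : ℤ}
    {s : AdjoinRoot (g₀.map ρ)} (h : Rep π ρ g₀ z e s) (n : ℕ) :
    Rep π ρ g₀ (z ^ n) (n * e) (s ^ n) := by
  induction n with
  | zero => simpa using rep_one hA
  | succ n ih =>
    rw [pow_succ, pow_succ]
    have := hA.mul _ _ _ _ _ _ ih h
    convert this using 1
    push_cast
    ring

/-- residue one means near one -/
theorem rep_one_near [IsDomain O] (hker : ∀ c, ρ c = 0 ↔ π ∣ c) (hsurj : Function.Surjective ρ)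
    {z : AdjoinRoot (tk k g₀)} (h : Rep π ρ g₀ z 0 1) :
    ∃ y : O[X], z = 1 + AdjoinRoot.mk (tk k g₀) (C (algebraMap O k π) * tk k y) := by
  obtain ⟨-, p, hp1, hp2⟩ := h
  rw [zpow_zero, C_1, one_mul] at hp2
  rw [← map_one (AdjoinRoot.mk (g₀.map ρ)), AdjoinRoot.mk_eq_mk] at hp1
  obtain ⟨r, hr⟩ := hp1
  obtain ⟨r', rfl⟩ := Polynomial.map_surjective ρ hsurj r
  have h1 : (p - 1 - g₀ * r').map ρ = 0 := by
    rw [Polynomial.map_sub, Polynomial.map_sub, Polynomial.map_one, Polynomial.map_mul, hr,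
      sub_self]
  have h2 : C π ∣ p - 1 - g₀ * r' := by
    rw [C_dvd_iff_dvd_coeff]
    intro n
    rw [← hker, ← coeff_map, h1, coeff_zero]
  obtain ⟨y, hy⟩ := h2
  refine ⟨y, ?_⟩
  have h3 : p = 1 + g₀ * r' + C π * y := by rw [← hy]; ring
  rw [hp2, h3]
  simp only [tk, Polynomial.map_add, Polynomial.map_one, Polynomial.map_mul, Polynomial.map_C,
    map_add, map_one, map_mul, AdjoinRoot.mk_self, zero_mul, add_zero]

end rep

section eval

variable {O κ : Type} [CommRing O] [Field κ] {π : O} {ρ : O →+* κ}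

/-- division by a linear polynomial -/
theorem div_linear {B : Type} [CommRing B] (p : B[X]) (a : B) :
    ∃ q : B[X], p = (X - C a) * q + C (p.eval a) := by
  refine ⟨p /ₘ (X - C a), ?_⟩
  have h1 := modByMonic_add_div p (X - C a)
  rw [modByMonic_X_sub_C_eq_C_eval] at h1
  rw [← h1]
  simp only [eval_add, eval_mul, eval_sub, eval_X, eval_C, sub_self, zero_mul, add_zero]
  rw [h1]
  conv_lhs => rw [← h1]
  ring

end eval

section sq

variable {K : Type} [Field K]

theorem isSquare_mul_iff {a b : K} (hb : b ≠ 0) (h : IsSquare b) : IsSquare (a * b) ↔ IsSquare a := by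
  constructor
  · intro h1
    have h2 := h1.div h
    rwa [mul_div_cancel_right₀ _ hb] at h2
  · intro h1
    exact h1.mul h

theorem isSquare_iff_of_mul {a b : K} (ha : a ≠ 0) (hb : b ≠ 0) (h : IsSquare (a * b)) :
    IsSquare a ↔ IsSquare b := by
  constructor
  · intro h1
    have h2 := h.div h1
    rwa [mul_div_cancel_left₀ _ ha] at h2
  · intro h1
    have h2 := h.div h1
    rwa [mul_div_cancel_right₀ _ hb] at h2

end sq

end H94

end Pool.Agent.Helper54.HL
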