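import Pool.Agent.Helper54.HL.Hlp94

set_option autoImplicit false

namespace Pool.Agent.Helper54.HL

open Polynomial IsDedekindDomain

theorem ord_unit_mul_LC {B : Type} [CommRing B] {u x : B} (hu : IsUnit u) :
    Ring.ord B (u * x) = Ring.ord B x := by
  unfold Ring.ord
  rw [Ideal.span_singleton_mul_left_unit hu]

theorem unit_of_rho_LC {O κ : Type} [CommRing O] [IsDomain O] [IsDiscreteValuationRing O]
    [Field κ] {π : O} (hπ : Irreducible π) {ρ : O →+* κ} (hker : ∀ c, ρ c = 0 ↔ π ∣ c) {c : O}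
    (hc : ρ c ≠ 0) : IsUnit c := by
  by_contra h
  apply hc
  rw [hker, ← Ideal.mem_span_singleton, ← hπ.maximalIdeal_eq]
  exact (IsLocalRing.mem_maximalIdeal c).2 h

theorem norm_linear_LC (h6 : StNR) {B : Type} [CommRing B] [IsDomain B] (t : B) (p : B[X]) :
    Algebra.norm B (AdjoinRoot.mk (X - C t) p) = p.eval t := by
  rw [h6 B (X - C t) p (monic_X_sub_C t), natDegree_X_sub_C,
    resultant_X_sub_C_left _ _ _ le_rfl]

theorem norm_const_LC {B : Type} [CommRing B] [IsDomain B] {U : B[X]} (hU : U.Monic) (d : B) :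
    Algebra.norm B (AdjoinRoot.mk U (C d)) = d ^ U.natDegree := by
  have h := Algebra.norm_algebraMap_of_basis (AdjoinRoot.powerBasis' hU).basis d
  rw [Fintype.card_fin, AdjoinRoot.powerBasis'_dim] at h
  exact h

theorem unit_linear_LC {O : Type} [CommRing O] {U₀ : O[X]} {θ : O} (hu : IsUnit (U₀.eval θ)) :
    IsUnit (AdjoinRoot.mk U₀ (X - C θ)) := by
  obtain ⟨q, hq⟩ := H94.div_linear U₀ θ
  obtain ⟨v, hv⟩ := hu.exists_right_inv
  refine IsUnit.of_mul_eq_one (AdjoinRoot.mk U₀ (-(q * C v))) ?_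
  have h1 : (X - C θ) * -(q * C v) = 1 - U₀ * C v := by
    have h2 : C (U₀.eval θ) * C v = (1 : O[X]) := by rw [← C_mul, hv, C_1]
    calc (X - C θ) * -(q * C v) = C (U₀.eval θ) * C v - ((X - C θ) * q + C (U₀.eval θ)) * C v := by
          ring
      _ = 1 - U₀ * C v := by rw [← hq, h2]
  rw [← map_mul, h1, map_sub, map_mul, AdjoinRoot.mk_self, zero_mul, sub_zero, map_one]

theorem hLC (h1 : StRA) (h2 : StRB) (h3 : StOP) (h4 : StOS) (h5 : StFS) (h6 : StNR) (h7 : StNM)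
    (h9 : StNS) : StLC := by
  intro O k κ _ _ _ _ _ _ _ _ π ρ hπ hsurj hker h2κ g θ g₂ hg hg₂ hirr hdeg h hh hd D' hD' U₀ V ψ
    n hU₀ hUirr hcop hdvd hψ hψirr hn hU₀ρ hgood
  change ψ = g₂.map ρ at hgood
  subst hgood
  subst hh
  have hA := h1 O k κ π ρ hπ hsurj hker g₂ hg₂ hirr
  have hB := h2 O k κ π ρ hπ hsurj hker g₂ hg₂ hirr
  have hf₀ : ((X - C θ) * g₂).Monic := (monic_X_sub_C θ).mul hg₂
  have hdegρ : (g₂.map ρ).natDegree = 2 * g := by rw [hg₂.natDegree_map, hdeg]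
  have : Fact (Irreducible (g₂.map ρ)) := ⟨hirr⟩
  have : Fact (Irreducible (tk k g₂)) := ⟨hA.irr⟩
  have hga : (g₂.map ρ).eval (ρ θ) ≠ 0 := by
    intro h0
    have h10 := degree_eq_one_of_irreducible_of_root hirr (x := ρ θ) h0
    have h11 : (g₂.map ρ).natDegree = 1 := natDegree_eq_of_degree_eq_some h10
    rw [hdegρ] at h11
    omega
  have hUθ : ρ (U₀.eval θ) = (g₂.map ρ).eval (ρ θ) ^ n := by
    rw [← eval_pow, ← hU₀ρ, eval_map, eval₂_hom]
  have hUθ0 : ρ (U₀.eval θ) ≠ 0 := by rw [hUθ]; exact pow_ne_zero _ hga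
  have hUθu : IsUnit (U₀.eval θ) := unit_of_rho_LC hπ hker hUθ0
  have hm : U₀.natDegree = n * (2 * g) := by
    rw [← hU₀.natDegree_map ρ, hU₀ρ, natDegree_pow, hdegρ]
  have hmk : (tk k U₀).natDegree = n * (2 * g) := by rw [tk, hU₀.natDegree_map, hm]
  -- orders
  have hord : Ring.ord (AdjoinRoot ((X - C θ) * g₂)) (AdjoinRoot.mk ((X - C θ) * g₂) U₀) =
      Ring.ord (AdjoinRoot g₂) (AdjoinRoot.mk g₂ U₀) := by
    rw [h4 O ((X - C θ) * g₂) U₀, h4 O g₂ U₀, map_mul, ord_unit_mul_LC (unit_linear_LC hUθu)]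
  set z := AdjoinRoot.mk (tk k g₂) (tk k U₀) with hz
  have hz0 : z ≠ 0 := by
    rw [hz, Ne, AdjoinRoot.mk_eq_zero]
    intro h0
    have h10 : IsCoprime (tk k U₀) (tk k g₂) := hcop.of_isCoprime_of_dvd_right hd
    exact hA.irr.not_isUnit (h10.symm.isUnit_of_dvd' dvd_rfl h0)
  obtain ⟨e0, s, hs⟩ := hA.ex z hz0
  obtain ⟨m0, hm0, hord0⟩ := hB.ord U₀ e0 s hs
  obtain ⟨m1, hord1, hev⟩ := h3 O k κ π ρ hπ hsurj hker ((X - C θ) * g₂) U₀ hf₀ hU₀ hUirr hcop
    (g₂.map ρ) n hirr hU₀ρ (π * D') D' 1 hD' (by rw [pow_one]) V hdvd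
  have hm01 : m1 = m0 := by
    rw [hord, hord0] at hord1
    exact_mod_cast hord1.symm
  subst hm01
  rw [one_mul] at hev
  -- norms
  have hU : (tk k U₀).Monic := hU₀.map _
  have hG : (tk k g₂).Monic := hg₂.map _
  have hDk : algebraMap O k (π * D') ≠ 0 := by
    rw [map_mul]
    exact mul_ne_zero (H94.am_ne hπ) ((hD'.map (algebraMap O k)).ne_zero)
  have hprod : tk k ((X - C θ) * g₂) = (X - C (algebraMap O k θ)) * tk k g₂ := by
    simp [tk, Polynomial.map_mul]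
  have hN1 : ∀ h' : k[X], h' = (X - C (algebraMap O k θ)) * tk k g₂ →
      Algebra.norm k (AdjoinRoot.mk h' (tk k U₀)) =
        algebraMap O k (U₀.eval θ) * Algebra.norm k z := by
    rintro _ rfl
    rw [h7 k _ _ _ (monic_X_sub_C _) hG, norm_linear_LC h6, hz]
    congr 1
    rw [tk, eval_map, eval₂_hom]
  obtain ⟨c, hc1, hc2⟩ := hB.norm z e0 s hs
  have hsq1 : IsSquare (Algebra.norm k (AdjoinRoot.mk (tk k U₀) (tk k ((X - C θ) * g₂)))) := by
    obtain ⟨r, hr⟩ := hdvd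
    generalize algebraMap O k (π * D') = Dk at hr hDk ⊢
    generalize tk k ((X - C θ) * g₂) = hh at hr ⊢
    have h10 : C Dk * hh = V ^ 2 + tk k U₀ * r := by
      rw [← hr]; ring
    have h11 := congrArg (fun p => Algebra.norm k (AdjoinRoot.mk (tk k U₀) p)) h10
    simp only [map_mul, map_add, AdjoinRoot.mk_self, zero_mul, add_zero, map_pow] at h11
    rw [norm_const_LC hU, hmk, show n * (2 * g) = 2 * (n * g) by ring, mul_comm 2,
      pow_mul] at h11
    refine ⟨Algebra.norm k (AdjoinRoot.mk (tk k U₀) V) / Dk ^ (n * g), ?_⟩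
    rw [div_mul_div_comm, ← pow_two, ← pow_two, ← h11]
    rw [mul_div_cancel_left₀ _ (pow_ne_zero _ (pow_ne_zero _ hDk))]
  have hsq2 : IsSquare (algebraMap O k π ^ (e0 * g₂.natDegree) *
      algebraMap O k (U₀.eval θ * c)) := by
    have h10 := h9 k (tk k ((X - C θ) * g₂)) (tk k U₀) (hf₀.map _) hU
    rw [hN1 _ hprod, hc2, hmk, show (tk k ((X - C θ) * g₂)).natDegree * (n * (2 * g)) =
      2 * ((tk k ((X - C θ) * g₂)).natDegree * (n * g)) by ring, pow_mul, neg_one_sq, one_pow,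
      one_mul] at h10
    rw [← h10] at hsq1
    convert hsq1 using 1
    rw [map_mul]
    ring
  have hs0 : s ≠ 0 := hs.1
  have hnf : FiniteDimensional κ (AdjoinRoot (g₂.map ρ)) :=
    (hg₂.map ρ).finite_adjoinRoot
  have hcs : ρ c ≠ 0 := by
    rw [hc1]
    exact Algebra.norm_ne_zero_iff.2 hs0
  have hsq3 : IsSquare (ρ (U₀.eval θ * c)) := by
    refine ((H94.sq_lemma (k := k) hπ ?_ hsq2).2).map ρ
    rw [← hker, map_mul]
    exact mul_ne_zero hUθ0 hcs
  set t := AdjoinRoot.mk (g₂.map ρ) (X - C (ρ θ)) with ht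
  have hnt : Algebra.norm κ t = (g₂.map ρ).eval (ρ θ) := by
    rw [ht, h9 κ _ _ (hg₂.map ρ) (monic_X_sub_C _), norm_linear_LC h6, natDegree_X_sub_C, hdegρ,
      mul_one, pow_mul, neg_one_sq, one_pow, one_mul]
  have ht0 : t ≠ 0 := by
    intro h0
    rw [h0, Algebra.norm_zero] at hnt
    exact hga hnt.symm
  have hst : IsSquare (s * t ^ n) := by
    rw [← ((h5 κ h2κ (g₂.map ρ) (hg₂.map ρ) hirr).1 _), map_mul, map_pow, hnt, ← hc1, ← hUθ,
      ← map_mul, mul_comm]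
    exact hsq3
  -- the representation
  have hu0 : ρ ((-D') ^ (n * (2 * g))) ≠ 0 := by
    rw [map_pow, map_neg]
    exact pow_ne_zero _ (neg_ne_zero.2 (hD'.map ρ).ne_zero)
  have hrep := hA.mul _ _ _ _ _ _ (hA.mul _ _ _ _ _ _ (hA.pow ((n * (2 * g) : ℕ) : ℤ))
    (H94.rep_const hA hirr hu0)) hs
  rw [add_zero, one_mul] at hrep
  have hval : pr hd (AdjoinRoot.mk (tk k ((X - C θ) * g₂))
      (C (-algebraMap O k (π * D')) ^ (tk k U₀).natDegree * tk k U₀)) =
      AdjoinRoot.mk (tk k g₂) (C (algebraMap O k π ^ ((n * (2 * g) : ℕ) : ℤ))) *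
        AdjoinRoot.mk (tk k g₂) (C (algebraMap O k ((-D') ^ (n * (2 * g))))) * z := by
    rw [pr_mk, hz, hmk, ← map_mul, ← map_mul, ← C_mul]
    congr 2
    rw [← C_pow]
    congr 1
    rw [zpow_natCast, map_pow, ← mul_pow, map_neg, map_mul]
    ring
  rw [← hval] at hrep
  refine ⟨_, _, hrep, ?_⟩
  set u := AdjoinRoot.mk (g₂.map ρ) (C (ρ ((-D') ^ (n * (2 * g))))) with hu
  have huS : IsSquare u := by
    refine ⟨AdjoinRoot.mk (g₂.map ρ) (C (ρ ((-D') ^ (n * g)))), ?_⟩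
    rw [hu, ← map_mul, ← C_mul, ← map_mul, ← pow_add]
    congr 5
    ring
  have hu0' : u ≠ 0 := by
    intro h0
    have h10 := (H94.rep_const (k := k) hA hirr hu0).1
    exact h10 h0
  have hus : IsSquare (u * s) ↔ IsSquare s := by
    rw [mul_comm]
    exact H94.isSquare_mul_iff hu0' huS
  have hpar : Even (((n * (2 * g) : ℕ) : ℤ) + e0) ↔ Even n := by
    rw [hm0, Int.even_add, Int.even_coe_nat, Int.even_coe_nat]
    have h10 : Even (n * (2 * g)) := ⟨n * g, by ring⟩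
    rw [Nat.even_add] at hev
    simp only [h10, true_iff]
    exact hev
  rcases Nat.even_or_odd n with hne | hno
  · left
    refine ⟨hpar.2 hne, hus.2 ?_⟩
    obtain ⟨n', hn'⟩ := hne
    have h10 : IsSquare (t ^ n) := ⟨t ^ n', by rw [hn', pow_add]⟩
    exact (H94.isSquare_mul_iff (pow_ne_zero _ ht0) h10).1 hst
  · right
    refine ⟨fun h10 => (Nat.not_even_iff_odd.2 hno) (hpar.1 h10), ?_⟩
    rw [hus]
    obtain ⟨n', hn'⟩ := hno
    have h10 : IsSquare (t ^ (2 * n')) := ⟨t ^ n', by rw [two_mul, pow_add]⟩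
    have h11 : s * t ^ n = (s * t) * t ^ (2 * n') := by rw [hn']; ring
    rw [h11] at hst
    exact H94.isSquare_iff_of_mul hs0 ht0
      ((H94.isSquare_mul_iff (pow_ne_zero _ ht0) h10).1 hst)

end Pool.Agent.Helper54.HL
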