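import Pool.Agent.Helper54.HL.Defs

/-!
# HY, local part: statements
-/

set_option autoImplicit false

namespace Pool.Agent.Helper54.HL

open Polynomial IsDedekindDomain
open Pool.Agent.Helper54.PT (Prm IsAbsP)
open Pool.Agent.Helper3.HY

/-! ### Local data -/

/-- (LD0) -/
def StLD0 : Prop :=
  ∀ (F : Type) [Field F] [Fintype F] (P : Prm F) (v : AbsoluteValue (RatFunc F) ℝ),
    v.IsNontrivial → IsAbsP P v →
    ∃ (O : Type) (_ : CommRing O) (_ : IsDomain O) (_ : IsDiscreteValuationRing O)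
      (_ : Algebra O v.Completion) (_ : IsFractionRing O v.Completion) (i : F[X] →+* O)
      (ρ : O →+* kp P), LD P i (algebraMap (RatFunc F) v.Completion) ρ ∧
      ∀ x : v.Completion, ‖x‖ ≤ 1 ↔ ∃ c : O, algebraMap O v.Completion c = x

/-- (LDI) -/
def StLDI : Prop :=
  ∀ (O k : Type) [CommRing O] [IsDomain O] [IsDiscreteValuationRing O] [NontriviallyNormedField k]
    [IsUltrametricDist k] [CompleteSpace k] [Algebra O k] [IsFractionRing O k],
    (∀ x : k, ‖x‖ ≤ 1 ↔ ∃ c : O, algebraMap O k c = x) → ∀ π : O, Irreducible π →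
    ∀ U : k[X], U.Monic → Irreducible U → (∃ U₀ : O[X], U₀.Monic ∧ tk k U₀ = U) ∨ IrrBig π U

/-- (LDP) -/
def StLDP : Prop :=
  ∀ (O k κ : Type) [CommRing O] [IsDomain O] [IsDiscreteValuationRing O]
    [NontriviallyNormedField k] [IsUltrametricDist k] [CompleteSpace k] [Algebra O k]
    [IsFractionRing O k] [Field κ],
    (∀ x : k, ‖x‖ ≤ 1 ↔ ∃ c : O, algebraMap O k c = x) → ∀ π : O, Irreducible π →
    ∀ ρ : O →+* κ, Function.Surjective ρ → (∀ c, ρ c = 0 ↔ π ∣ c) →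
    ∀ U₀ : O[X], U₀.Monic → Irreducible (tk k U₀) →
      ∃ (ψ : κ[X]) (n : ℕ), ψ.Monic ∧ Irreducible ψ ∧ 1 ≤ n ∧ U₀.map ρ = ψ ^ n

/-- (LDR) -/
def StLDR : Prop :=
  ∀ (O k κ : Type) [CommRing O] [IsDomain O] [IsDiscreteValuationRing O]
    [NontriviallyNormedField k] [IsUltrametricDist k] [CompleteSpace k] [Algebra O k]
    [IsFractionRing O k] [Field κ],
    (∀ x : k, ‖x‖ ≤ 1 ↔ ∃ c : O, algebraMap O k c = x) → ∀ π : O, Irreducible π →
    ∀ ρ : O →+* κ, Function.Surjective ρ → (∀ c, ρ c = 0 ↔ π ∣ c) → RootLift ρ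

/-- (LD) -/
def StLD : Prop :=
  ∀ (F : Type) [Field F] [Fintype F] (P : Prm F) (v : AbsoluteValue (RatFunc F) ℝ),
    v.IsNontrivial → IsAbsP P v →
    ∃ (O : Type) (_ : CommRing O) (_ : IsDomain O) (_ : IsDiscreteValuationRing O)
      (_ : Algebra O v.Completion) (_ : IsFractionRing O v.Completion) (i : F[X] →+* O)
      (ρ : O →+* kp P), LD P i (algebraMap (RatFunc F) v.Completion) ρ ∧ RootLift ρ ∧
      ∀ U : v.Completion[X], U.Monic → Irreducible U → IrrInt ρ U ∨ IrrBig (i P.1) U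

/-! ### Norms -/

/-- (NR) -/
def StNR : Prop :=
  ∀ (B : Type) [CommRing B] [IsDomain B] (f g : B[X]), f.Monic →
    Algebra.norm B (AdjoinRoot.mk f g) = resultant f g

/-- (NM) -/
def StNM : Prop :=
  ∀ (B : Type) [CommRing B] [IsDomain B] (f g p : B[X]), f.Monic → g.Monic →
    Algebra.norm B (AdjoinRoot.mk (f * g) p) =
      Algebra.norm B (AdjoinRoot.mk f p) * Algebra.norm B (AdjoinRoot.mk g p)

/-- (NB) -/
def StNB : Prop :=
  ∀ (B B' : Type) [CommRing B] [IsDomain B] [CommRing B'] [IsDomain B'] (φ : B →+* B') (f p : B[X]),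
    f.Monic → φ (Algebra.norm B (AdjoinRoot.mk f p)) =
      Algebra.norm B' (AdjoinRoot.mk (f.map φ) (p.map φ))

/-- (NS) -/
def StNS : Prop :=
  ∀ (B : Type) [CommRing B] [IsDomain B] (f g : B[X]), f.Monic → g.Monic →
    Algebra.norm B (AdjoinRoot.mk f g) =
      (-1) ^ (f.natDegree * g.natDegree) * Algebra.norm B (AdjoinRoot.mk g f)

/-- (FS) Finite fields: the norm and squares. -/
def StFS : Prop :=
  ∀ (κ : Type) [Field κ] [Finite κ], (2 : κ) ≠ 0 → ∀ h : κ[X], h.Monic → Irreducible h →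
    (∀ x : AdjoinRoot h, IsSquare (Algebra.norm κ x) ↔ IsSquare x) ∧
      (Even h.natDegree → ∀ c : κ, IsSquare (algebraMap κ (AdjoinRoot h) c))

/-! ### Elements near one -/

/-- (NG) -/
def StNG : Prop :=
  ∀ (O k : Type) [CommRing O] [IsDomain O] [IsDiscreteValuationRing O] [Field k] [Algebra O k]
    [IsFractionRing O k] (π : O), Irreducible π → ∀ (f₀ : O[X]), f₀.Monic → ∀ h : k[X],
    h = tk k f₀ →
    (∀ w w' : AdjoinRoot h, Nr π w → Nr π w' → Nr π (w * w')) ∧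
    (∀ w : AdjoinRoot h, Nr π w → ∃ w', w * w' = 1 ∧ Nr π w') ∧
    ∀ w : AdjoinRoot h, Nr π w → ∃ c : O, Algebra.norm k w = 1 + algebraMap O k (π * c)

/-- (DE) Density. -/
def StDE : Prop :=
  ∀ (F : Type) [Field F] (f : F[X][X]), f.Monic → ∀ [Fact (Irreducible (fK f))] (P : Prm F)
    (O k : Type) [CommRing O] [IsDomain O] [IsDiscreteValuationRing O] [Field k] [Algebra O k]
    [IsFractionRing O k] (i : F[X] →+* O) (j : RatFunc F →+* k) (ρ : O →+* kp P), LD P i j ρ →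
    ∀ y y' : AdjoinRoot ((fK f).map j), y * y' = 1 → ∃ z : LL f, z ≠ 0 ∧
      Nr (i P.1) (baseChange j (fK f) z * y')

/-- (NO) -/
def StNO : Prop :=
  ∀ (F : Type) [Field F] (f : F[X][X]), f.Monic → ∀ (P : Prm F)
    (O k : Type) [CommRing O] [IsDomain O] [IsDiscreteValuationRing O] [Field k] [Algebra O k]
    [IsFractionRing O k] (i : F[X] →+* O) (j : RatFunc F →+* k) (ρ : O →+* kp P), LD P i j ρ →
    ∀ z : LL f, NearOne P z ↔ Nr (i P.1) (baseChange j (fK f) z)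

/-- (NV) -/
def StNV : Prop :=
  ∀ (F : Type) [Field F] (f : F[X][X]), f.Monic →
    ∀ [Fact (Irreducible (fK f))] [IsDedekindDomain (RR f)] [IsFractionRing (RR f) (LL f)]
      (P : Prm F) (q : HeightOneSpectrum (RR f)), Over P q → ∀ z : LL f, NearOne P z →
      q.valuation (LL f) (z - 1) < 1 ∧ q.valuation (LL f) z = 1

/-! ### The group of the twist -/

/-- (GE) -/
def StGE : Prop :=
  ∀ (k : Type) [Field k] (h : k[X]) (D : k), D ≠ 0 → ∀ G : Subgroup (AdjoinRoot h)ˣ,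
    (∀ z : (AdjoinRoot h)ˣ, IsTwIrr h D (z : AdjoinRoot h) → z ∈ G) →
    (∀ z : (AdjoinRoot h)ˣ, z ^ 2 ∈ G) → twGroup h D ≤ G

/-- (IN) -/
def StIN : Prop :=
  ∀ (F : Type) [Field F] (f : F[X][X]), f.Monic → ∀ [Fact (Irreducible (fK f))] (P : Prm F)
    (O k : Type) [CommRing O] [IsDomain O] [IsDiscreteValuationRing O] [Field k] [Algebra O k]
    [IsFractionRing O k] (i : F[X] →+* O) (j : RatFunc F →+* k) (ρ : O →+* kp P), LD P i j ρ →
    ∀ (D : k), D ≠ 0 → ∀ Cl : Subgroup (LL f)ˣ, (∀ z : (LL f)ˣ, NearOne P (z : LL f) → z ∈ Cl) →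
    (∀ z : (LL f)ˣ, z ^ 2 ∈ Cl) →
    (∀ y y' : AdjoinRoot ((fK f).map j), y * y' = 1 → IsTwIrr ((fK f).map j) D y →
      ∃ z ∈ Cl, Nr (i P.1) (baseChange j (fK f) (z : LL f) * y')) →
    ∀ z : (LL f)ˣ, Units.map (baseChange j (fK f) : LL f →* _) z ∈ twGroup ((fK f).map j) D → z ∈ Cl

/-- (BG) Points with a pole. -/
def StBG : Prop :=
  ∀ (O k : Type) [CommRing O] [IsDomain O] [IsDiscreteValuationRing O] [Field k] [Algebra O k]
    [IsFractionRing O k] (π : O), Irreducible π → ∀ (f₀ : O[X]), f₀.Monic → Odd f₀.natDegree →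
    ∀ h : k[X], h = tk k f₀ → ∀ D : k, D ≠ 0 → ∀ U V : k[X], U.Monic → IrrBig π U →
    IsCoprime U h → U ∣ C D * h - V ^ 2 →
    ∃ (c : k) (w : AdjoinRoot h), c ≠ 0 ∧ Nr π w ∧
      AdjoinRoot.mk h (C (-D) ^ U.natDegree * U) = algebraMap k (AdjoinRoot h) c ^ 2 * w

/-! ### Orders -/

/-- (OS) -/
def StOS : Prop :=
  ∀ (B : Type) [CommRing B] (f g : B[X]),
    Ring.ord (AdjoinRoot f) (AdjoinRoot.mk f g) = Ring.ord (AdjoinRoot g) (AdjoinRoot.mk g f)

/-- (OP) The parity of the order. -/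
def StOP : Prop :=
  ∀ (O k κ : Type) [CommRing O] [IsDomain O] [IsDiscreteValuationRing O] [Field k] [Algebra O k]
    [IsFractionRing O k] [Field κ] [Finite κ] (π : O) (ρ : O →+* κ), Irreducible π →
    Function.Surjective ρ → (∀ c, ρ c = 0 ↔ π ∣ c) →
    ∀ f₀ U₀ : O[X], f₀.Monic → U₀.Monic → Irreducible (tk k U₀) → IsCoprime (tk k U₀) (tk k f₀) →
    ∀ (ψ : κ[X]) (n : ℕ), Irreducible ψ → U₀.map ρ = ψ ^ n →
    ∀ (D u : O) (e : ℕ), IsUnit u → D = π ^ e * u →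
    ∀ V : k[X], tk k U₀ ∣ C (algebraMap O k D) * tk k f₀ - V ^ 2 →
    ∃ m : ℕ, Ring.ord (AdjoinRoot f₀) (AdjoinRoot.mk f₀ U₀) = m ∧ Even (m + e * n)

/-- (OV) The order and the valuation. -/
def StOV : Prop :=
  ∀ (F : Type) [Field F] [Fintype F] (f : F[X][X]), f.Monic →
    ∀ [Fact (Irreducible (fK f))] [IsDedekindDomain (RR f)] [IsFractionRing (RR f) (LL f)]
    (P : Prm F) (O k : Type) [CommRing O] [IsDomain O] [IsDiscreteValuationRing O] [Field k]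
    [Algebra O k] [IsFractionRing O k] (i : F[X] →+* O) (j : RatFunc F →+* k) (ρ : O →+* kp P),
    LD P i j ρ → ∀ (q : HeightOneSpectrum (RR f)), Over P q → ∀ p : F[X][X],
    AdjoinRoot.mk f p ≠ 0 → (∀ q' : HeightOneSpectrum (RR f), Over P q' → q' ≠ q →
      AdjoinRoot.mk f p ∉ q'.asIdeal) →
    ∃ m : ℕ, Ring.ord (AdjoinRoot (f.map i)) (AdjoinRoot.mk (f.map i) (p.map i)) = m ∧
      q.valuation (LL f) (algebraMap (RR f) (LL f) (AdjoinRoot.mk f p)) = WithZero.exp (-(m : ℤ))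

/-- (UQ) -/
def StUQ : Prop :=
  ∀ (F : Type) [Field F] (f : F[X][X]), f.Monic →
    ∀ [Fact (Irreducible (fK f))] [IsDedekindDomain (RR f)] [IsFractionRing (RR f) (LL f)]
    (P : Prm F) (q q' : HeightOneSpectrum (RR f)), Over P q → Over P q' → ∀ p p' : F[X][X],
    Irreducible (p.map (red P)) → p'.map (red P) = p.map (red P) → AdjoinRoot.mk f p ∈ q.asIdeal →
    AdjoinRoot.mk f p' ∈ q'.asIdeal → q = q'

/-! ### Unramified factors -/

/-- (RA) -/
def StRA : Prop :=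
  ∀ (O k κ : Type) [CommRing O] [IsDomain O] [IsDiscreteValuationRing O] [Field k] [Algebra O k]
    [IsFractionRing O k] [Field κ] (π : O) (ρ : O →+* κ), Irreducible π →
    Function.Surjective ρ → (∀ c, ρ c = 0 ↔ π ∣ c) →
    ∀ g₀ : O[X], g₀.Monic → Irreducible (g₀.map ρ) → RepA k π ρ g₀

/-- (RB) -/
def StRB : Prop :=
  ∀ (O k κ : Type) [CommRing O] [IsDomain O] [IsDiscreteValuationRing O] [Field k] [Algebra O k]
    [IsFractionRing O k] [Field κ] (π : O) (ρ : O →+* κ), Irreducible π →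
    Function.Surjective ρ → (∀ c, ρ c = 0 ↔ π ∣ c) →
    ∀ g₀ : O[X], g₀.Monic → Irreducible (g₀.map ρ) → RepB k π ρ g₀

/-- (CV) Comparison of the valuation and of `Rep`. -/
def StCV : Prop :=
  ∀ (F : Type) [Field F] [Fintype F] (f : F[X][X]), f.Monic →
    ∀ [Fact (Irreducible (fK f))] [IsDedekindDomain (RR f)] [IsFractionRing (RR f) (LL f)]
    (P : Prm F) (O k : Type) [CommRing O] [IsDomain O] [IsDiscreteValuationRing O] [Field k]
    [Algebra O k] [IsFractionRing O k] (i : F[X] →+* O) (j : RatFunc F →+* k) (ρ : O →+* kp P),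
    LD P i j ρ → ∀ (g₀ : O[X]), g₀.Monic → Irreducible (g₀.map ρ) → g₀ ∣ f.map i →
    ∀ (hd : tk k g₀ ∣ (fK f).map j) (p₀ : F[X][X]), p₀.map (red P) = g₀.map ρ →
    ∀ q : HeightOneSpectrum (RR f), Over P q → AdjoinRoot.mk f p₀ ∈ q.asIdeal →
    ∀ (z : LL f) (e : ℤ) (s : AdjoinRoot (g₀.map ρ)),
      Rep (i P.1) ρ g₀ (pr hd (baseChange j (fK f) z)) e s →
      q.valuation (LL f) z = WithZero.exp (-e)

/-- (CM) Comparison of `om`, `ep` and of `Rep`. -/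
def StCM : Prop :=
  ∀ (F : Type) [Field F] [Fintype F], (2 : F) ≠ 0 → ∀ (f : F[X][X]), f.Monic →
    ∀ [Fact (Irreducible (fK f))] [IsDedekindDomain (RR f)] [IsFractionRing (RR f) (LL f)]
    (P : Prm F) (O k : Type) [CommRing O] [IsDomain O] [IsDiscreteValuationRing O] [Field k]
    [Algebra O k] [IsFractionRing O k] (i : F[X] →+* O) (j : RatFunc F →+* k) (ρ : O →+* kp P),
    LD P i j ρ → ∀ (g₀ : O[X]), g₀.Monic → Irreducible (g₀.map ρ) → g₀ ∣ f.map i →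
    ∀ (hd : tk k g₀ ∣ (fK f).map j) (p₀ : F[X][X]), p₀.map (red P) = g₀.map ρ →
    ∀ q : HeightOneSpectrum (RR f), Over P q → AdjoinRoot.mk f p₀ ∈ q.asIdeal →
    ∀ (z : LL f) (e : ℤ) (s : AdjoinRoot (g₀.map ρ)),
      Rep (i P.1) ρ g₀ (pr hd (baseChange j (fK f) z)) e s →
      q.valuation (LL f) z = WithZero.exp (-e) ∧ (ep P q z = 0 ↔ IsSquare s)

/-- (FA) The factorisation at a place of `T`. -/
def StFA : Prop :=
  ∀ (O κ : Type) [CommRing O] [IsDomain O] [IsDiscreteValuationRing O] [Field κ] (ρ : O →+* κ),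
    Function.Surjective ρ → RootLift ρ → ∀ (f₀ : O[X]) (a : κ) (p : κ[X]), f₀.Monic → p.Monic →
    p.eval a ≠ 0 → f₀.map ρ = (X - C a) * p →
    ∃ (θ : O) (g₂ : O[X]), g₂.Monic ∧ ρ θ = a ∧ f₀ = (X - C θ) * g₂ ∧ g₂.map ρ = p

/-- (QP) The prime `q` contains `p(θ)`. -/
def StQP : Prop :=
  ∀ (F : Type) [Field F] [Fintype F] (g : ℕ), 1 ≤ g → ∀ (f : F[X][X]), f.Monic →
    ∀ [Fact (Irreducible (fK f))] [IsDedekindDomain (RR f)] [IsFractionRing (RR f) (LL f)]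
    (P : Prm F) (a : kp P) (p : (kp P)[X]), f.map (red P) = (X - C a) * p → p.Monic →
    Irreducible p → p.natDegree = 2 * g →
    ∀ q : HeightOneSpectrum (RR f), IsQ g P q → ∀ p₀ : F[X][X], p₀.map (red P) = p →
    AdjoinRoot.mk f p₀ ∈ q.asIdeal

/-! ### The classes of points at the places of `T` -/

/-- The common hypotheses for (LA), (LB), (LC). -/
def StLX (good : ∀ {κ : Type} [Field κ], κ → κ[X] → κ[X] → Prop) : Prop :=
  ∀ (O k κ : Type) [CommRing O] [IsDomain O] [IsDiscreteValuationRing O] [Field k] [Algebra O k]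
    [IsFractionRing O k] [Field κ] [Finite κ] (π : O) (ρ : O →+* κ), Irreducible π →
    Function.Surjective ρ → (∀ c, ρ c = 0 ↔ π ∣ c) → (2 : κ) ≠ 0 →
    ∀ (g : ℕ) (θ : O) (g₂ : O[X]), 1 ≤ g → g₂.Monic → Irreducible (g₂.map ρ) →
    g₂.natDegree = 2 * g → ∀ h : k[X], h = tk k ((X - C θ) * g₂) → ∀ hd : tk k g₂ ∣ h,
    ∀ D' : O, IsUnit D' → ∀ (U₀ : O[X]) (V : k[X]) (ψ : κ[X]) (n : ℕ), U₀.Monic →
    Irreducible (tk k U₀) → IsCoprime (tk k U₀) h →
    tk k U₀ ∣ C (algebraMap O k (π * D')) * h - V ^ 2 → ψ.Monic → Irreducible ψ → 1 ≤ n →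
    U₀.map ρ = ψ ^ n → good (ρ θ) (g₂.map ρ) ψ →
    LinePt π ρ g₂ (ρ θ) (pr hd (AdjoinRoot.mk h
      (C (-algebraMap O k (π * D')) ^ (tk k U₀).natDegree * tk k U₀)))

/-- (LA) -/
def StLA : Prop := StLX fun a h ψ => ψ ≠ X - C a ∧ ψ ≠ h

/-- (LB) -/
def StLB : Prop := StLX fun a _ ψ => ψ = X - C a

/-- (LC) -/
def StLC : Prop := StLX fun _ h ψ => ψ = h

/-- (LP) All points. -/
def StLP : Prop :=
  ∀ (O k κ : Type) [CommRing O] [IsDomain O] [IsDiscreteValuationRing O] [Field k] [Algebra O k]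
    [IsFractionRing O k] [Field κ] [Finite κ] (π : O) (ρ : O →+* κ), Irreducible π →
    Function.Surjective ρ → (∀ c, ρ c = 0 ↔ π ∣ c) → (2 : κ) ≠ 0 →
    (∀ U : k[X], U.Monic → Irreducible U → IrrInt ρ U ∨ IrrBig π U) →
    ∀ (g : ℕ) (θ : O) (g₂ : O[X]), 1 ≤ g → g₂.Monic → Irreducible (g₂.map ρ) →
    g₂.natDegree = 2 * g → ∀ h : k[X], h = tk k ((X - C θ) * g₂) → ∀ hd : tk k g₂ ∣ h,
    ∀ D' : O, IsUnit D' → ∀ y : AdjoinRoot h, IsTwIrr h (algebraMap O k (π * D')) y →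
    LinePt π ρ g₂ (ρ θ) (pr hd y)

/-! ### Even valuations at the regular places -/

/-- (EI) Integral points at a regular place. -/
def StEI : Prop :=
  ∀ (F : Type) [Field F] [Fintype F], (2 : F) ≠ 0 → ∀ (f : F[X][X]), f.Monic →
    ∀ [Fact (Irreducible (fK f))] [IsDedekindDomain (RR f)] [IsFractionRing (RR f) (LL f)]
    (P : Prm F) (O k : Type) [CommRing O] [IsDomain O] [IsDiscreteValuationRing O] [Field k]
    [Algebra O k] [IsFractionRing O k] (i : F[X] →+* O) (j : RatFunc F →+* k) (ρ : O →+* kp P),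
    LD P i j ρ → ∀ D : F[X], ¬ P.1 ∣ D → ∀ U V : k[X], Irreducible U →
    IsCoprime U ((fK f).map j) → U ∣ C (j (algebraMap F[X] (RatFunc F) D)) * (fK f).map j - V ^ 2 →
    IrrInt ρ U → ∀ y' : AdjoinRoot ((fK f).map j),
    AdjoinRoot.mk _ (C (-j (algebraMap F[X] (RatFunc F) D)) ^ U.natDegree * U) * y' = 1 →
    ∃ z : (LL f)ˣ, (∀ q : HeightOneSpectrum (RR f), Over P q → EvenAt q (z : LL f)) ∧
      Nr (i P.1) (baseChange j (fK f) (z : LL f) * y')

/-! ### The twist -/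

/-- (TR) Scaling of the roots. -/
def StTR : Prop :=
  ∀ (k : Type) [Field k] (h : k[X]) (D : k), D ≠ 0 →
    ∃ φ : AdjoinRoot (h.scaleRoots D) ≃ₐ[k] AdjoinRoot h,
      φ (AdjoinRoot.root (h.scaleRoots D)) = algebraMap k (AdjoinRoot h) D * AdjoinRoot.root h ∧
      ∀ g : ℕ, h.Monic → h.natDegree = 2 * g + 1 → ∀ z : AdjoinRoot (h.scaleRoots D),
        IsPointValue (h.scaleRoots D) z → IsTwPoint h D (φ z)

end Pool.Agent.Helper54.HL
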