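import Pool.Agent.Helper54.HL.St

/-!
# HL module LA: points at a ramified twist, case A
-/

set_option autoImplicit false

namespace Pool.Agent.Helper54.HL

open Polynomial IsDedekindDomain
open Pool.Agent.Helper54.PT (Prm IsAbsP)
open Pool.Agent.Helper3.HY

/-- `1 + π q(θ)` is a unit of `O[θ]` -/
theorem unit_one_add_LA {O : Type} [CommRing O] [IsDomain O] [IsDiscreteValuationRing O] {π : O}
    (hπ : Irreducible π) {f₀ : O[X]} (hf : f₀.Monic) (q : O[X]) :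
    IsUnit (AdjoinRoot.mk f₀ (1 + C π * q)) := by
  by_contra hcon
  obtain ⟨m, hm, hmem⟩ := exists_max_ideal_of_mem_nonunits hcon
  have _ : Module.Finite O (AdjoinRoot f₀) := hf.finite_adjoinRoot
  have _ : Algebra.IsIntegral O (AdjoinRoot f₀) := inferInstance
  have hcm : (m.comap (algebraMap O (AdjoinRoot f₀))).IsMaximal :=
    Ideal.isMaximal_comap_of_isIntegral_of_isMaximal m
  have h1 : π ∈ m.comap (algebraMap O (AdjoinRoot f₀)) := by
    rw [IsLocalRing.eq_maximalIdeal hcm, (IsDiscreteValuationRing.irreducible_iff_uniformizer π).1 hπ]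
    exact Ideal.mem_span_singleton_self π
  have h2 : AdjoinRoot.mk f₀ (C π * q) ∈ m := by
    rw [map_mul]
    exact m.mul_mem_right _ h1
  apply hm.ne_top
  rw [Ideal.eq_top_iff_one]
  have h3 : (1 : AdjoinRoot f₀) = AdjoinRoot.mk f₀ (1 + C π * q) - AdjoinRoot.mk f₀ (C π * q) := by
    rw [← map_sub, add_sub_cancel_right, map_one]
  rw [h3]
  exact m.sub_mem hmem h2

/-- coprime reductions give units -/
theorem unit_of_coprime_LA {O κ : Type} [CommRing O] [IsDomain O] [IsDiscreteValuationRing O]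
    [Field κ] {π : O} {ρ : O →+* κ} (hπ : Irreducible π) (hρ : Function.Surjective ρ)
    (hk : ∀ c, ρ c = 0 ↔ π ∣ c) {f₀ U₀ : O[X]} (hf : f₀.Monic)
    (hc : IsCoprime (U₀.map ρ) (f₀.map ρ)) : IsUnit (AdjoinRoot.mk f₀ U₀) := by
  obtain ⟨a, b, hab⟩ := hc
  obtain ⟨a₀, rfl⟩ := Polynomial.map_surjective ρ hρ a
  obtain ⟨b₀, rfl⟩ := Polynomial.map_surjective ρ hρ b
  have h1 : C π ∣ a₀ * U₀ + b₀ * f₀ - 1 := by
    rw [C_dvd_iff_dvd_coeff]
    intro i
    rw [← hk, ← coeff_map, Polynomial.map_sub, Polynomial.map_add, Polynomial.map_mul,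
      Polynomial.map_mul, hab, Polynomial.map_one, sub_self, coeff_zero]
  obtain ⟨q, hq⟩ := h1
  have h2 : AdjoinRoot.mk f₀ a₀ * AdjoinRoot.mk f₀ U₀ = AdjoinRoot.mk f₀ (1 + C π * q) := by
    rw [← map_mul, ← hq, AdjoinRoot.mk_eq_mk]
    exact ⟨-b₀, by ring⟩
  exact isUnit_of_mul_isUnit_right (h2 ▸ unit_one_add_LA hπ hf q)

/-- the representation of the value at an integral point -/
theorem rep_pt_LA {O k κ : Type} [CommRing O] [Field k] [Algebra O k] [Field κ] {π : O}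
    {ρ : O →+* κ} {g₂ : O[X]} (hA : RepA k π ρ g₂) (hg : Irreducible (g₂.map ρ)) {D' : O}
    (hD : ρ D' ≠ 0) (U₀ : O[X]) (hU : ¬ g₂.map ρ ∣ U₀.map ρ) (m : ℕ) :
    Rep π ρ g₂ (AdjoinRoot.mk (tk k g₂) (C (-algebraMap O k (π * D')) ^ m * tk k U₀)) m
      (AdjoinRoot.mk (g₂.map ρ) (C (-ρ D') ^ m * U₀.map ρ)) := by
  have : Fact (Irreducible (g₂.map ρ)) := ⟨hg⟩
  have hcne : AdjoinRoot.mk (g₂.map ρ) (C (-ρ D')) ≠ 0 := by
    intro h0
    have h1 : IsUnit (C (-ρ D') : κ[X]) := isUnit_C.2 (isUnit_iff_ne_zero.2 (neg_ne_zero.2 hD))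
    have h2 := h1.map (AdjoinRoot.mk (g₂.map ρ))
    rw [h0] at h2
    exact not_isUnit_zero h2
  have hUne : AdjoinRoot.mk (g₂.map ρ) (U₀.map ρ) ≠ 0 := fun h0 => hU (AdjoinRoot.mk_eq_zero.1 h0)
  have hp : (C (-D') ^ m * U₀).map ρ = C (-ρ D') ^ m * U₀.map ρ := by
    rw [Polynomial.map_mul, Polynomial.map_pow, map_C, map_neg]
  have hne : AdjoinRoot.mk (g₂.map ρ) ((C (-D') ^ m * U₀).map ρ) ≠ 0 := by
    rw [hp, map_mul, map_pow]
    exact mul_ne_zero (pow_ne_zero _ hcne) hUne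
  have h1 := hA.int (C (-D') ^ m * U₀) hne
  have h2 := hA.pow (m : ℤ)
  have h3 := hA.mul _ _ _ _ _ _ h2 h1
  rw [add_zero, one_mul, hp, ← map_mul] at h3
  have h4 : C (algebraMap O k π ^ (m : ℤ)) * tk k (C (-D') ^ m * U₀) =
      C (-algebraMap O k (π * D')) ^ m * tk k U₀ := by
    rw [tk, tk, Polynomial.map_mul, Polynomial.map_pow, map_C, zpow_natCast, C_pow, ← mul_assoc,
      ← mul_pow, ← C_mul]
    congr 3
    rw [map_mul, map_neg]
    ring
  rw [h4] at h3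
  exact h3

theorem hLA (h1 : StRA) (h2 : StOP) : StLA := by
  intro O k κ _ _ _ _ _ _ _ _ π ρ hπ hρ hk h2κ g θ g₂ hg1 hg2 hgirr hgdeg h hh hd D' hD' U₀ V ψ n
    hU hUirr hcop hdvd hψ hψirr hn hUψ hgood
  obtain ⟨hne1, hne2⟩ := hgood
  have hA := h1 O k κ π ρ hπ hρ hk g₂ hg2 hgirr
  have hf : ((X - C θ) * g₂).Monic := (monic_X_sub_C θ).mul hg2
  have hgm : (g₂.map ρ).Monic := hg2.map ρ
  have hDne : ρ D' ≠ 0 := (hD'.map ρ).ne_zero
  -- coprimality
  have hc1 : IsCoprime ψ (X - C (ρ θ)) := by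
    rw [hψirr.coprime_iff_not_dvd]
    intro hdv
    apply hne1
    exact (eq_of_monic_of_associated hψ (monic_X_sub_C _)
      ((hψirr.dvd_irreducible_iff_associated (irreducible_X_sub_C _)).1 hdv))
  have hc2 : IsCoprime ψ (g₂.map ρ) := by
    rw [hψirr.coprime_iff_not_dvd]
    intro hdv
    apply hne2
    exact (eq_of_monic_of_associated hψ hgm
      ((hψirr.dvd_irreducible_iff_associated hgirr).1 hdv))
  have hunit : IsUnit (AdjoinRoot.mk ((X - C θ) * g₂) U₀) := by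
    apply unit_of_coprime_LA hπ hρ hk hf
    rw [hUψ, Polynomial.map_mul, Polynomial.map_sub, map_X, map_C]
    exact IsCoprime.mul_right hc1.pow_left hc2.pow_left
  obtain ⟨m, hm, hev⟩ := h2 O k κ π ρ hπ hρ hk ((X - C θ) * g₂) U₀ hf hU hUirr
    (by rw [← hh]; exact hcop) ψ n hψirr hUψ (π * D') D' 1 hD' (by rw [pow_one]) V
    (by rw [← hh]; exact hdvd)
  rw [Ring.ord_of_isUnit hunit] at hm
  have hm0 : m = 0 := by exact_mod_cast hm.symm
  rw [hm0, zero_add, one_mul] at hev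
  -- the degree
  have hdegU : (tk k U₀).natDegree = n * ψ.natDegree := by
    rw [tk, hU.natDegree_map, ← hU.natDegree_map ρ, hUψ, natDegree_pow]
  have hUnd : ¬ g₂.map ρ ∣ U₀.map ρ := by
    rw [hUψ]
    intro hdv
    have h3 : g₂.map ρ ∣ ψ := hgirr.prime.dvd_of_dvd_pow hdv
    exact hgirr.not_isUnit (hc2.isUnit_of_dvd' h3 dvd_rfl)
  refine ⟨(tk k U₀).natDegree, AdjoinRoot.mk (g₂.map ρ)
    (C (-ρ D') ^ (tk k U₀).natDegree * U₀.map ρ), ?_, Or.inl ⟨?_, ?_⟩⟩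
  · rw [pr_mk]
    exact rep_pt_LA hA hgirr hDne U₀ hUnd _
  · rw [hdegU]
    exact (Int.even_coe_nat _).2 (hev.mul_right _)
  · obtain ⟨r, hr⟩ := hev
    refine ⟨AdjoinRoot.mk (g₂.map ρ) (C (-ρ D') ^ (r * ψ.natDegree) * ψ ^ r), ?_⟩
    rw [← map_mul, hdegU, hUψ, hr]
    congr 1
    ring

end Pool.Agent.Helper54.HL
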