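import Pool.Agent.Helper54.HL.St

/-!
# HY, local part: the group of elements near one (module NG)
-/

set_option autoImplicit false

namespace Pool.Agent.Helper54.HL

open Polynomial IsDedekindDomain
open Pool.Agent.Helper54.PT (Prm IsAbsP)
open Pool.Agent.Helper3.HY

section aux_NG

private lemma norm_NG {O : Type} [CommRing O] [Nontrivial O] (π : O) {f₀ : O[X]} (hf : f₀.Monic) (p : O[X]) :
    ∃ c : O, Algebra.norm O (1 + AdjoinRoot.mk f₀ (C π * p)) = 1 + π * c := by
  set b := (AdjoinRoot.powerBasis' hf).basis with hb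
  rw [Algebra.norm_eq_matrix_det b]
  have h1 : (1 + AdjoinRoot.mk f₀ (C π * p) : AdjoinRoot f₀) = 1 + π • AdjoinRoot.mk f₀ p := by
    rw [map_mul, AdjoinRoot.mk_C, Algebra.smul_def]
    rfl
  rw [h1, map_add, map_one, map_smul]
  obtain ⟨e, he⟩ : ∃ e : O, (1 + π • Algebra.leftMulMatrix b (AdjoinRoot.mk f₀ p)).det =
      1 + Matrix.trace (Algebra.leftMulMatrix b (AdjoinRoot.mk f₀ p)) * π + e * π ^ 2 :=
    ⟨_, Matrix.det_one_add_smul π (Algebra.leftMulMatrix b (AdjoinRoot.mk f₀ p))⟩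
  refine ⟨Matrix.trace (Algebra.leftMulMatrix b (AdjoinRoot.mk f₀ p)) + e * π, ?_⟩
  rw [he]
  ring

variable {O : Type} [CommRing O] [IsDomain O] [IsDiscreteValuationRing O]

private lemma unit_NG {π : O} (hπ : Irreducible π) (c : O) : IsUnit (1 + π * c) := by
  by_contra h
  have h1 : 1 + π * c ∈ IsLocalRing.maximalIdeal O := h
  have h2 : π * c ∈ IsLocalRing.maximalIdeal O :=
    Ideal.mul_mem_right _ _ hπ.not_isUnit
  have h3 : (1 : O) ∈ IsLocalRing.maximalIdeal O := by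
    have := Ideal.sub_mem _ h1 h2
    rwa [add_sub_cancel_right] at this
  exact (Ideal.ne_top_iff_one _).1 (IsLocalRing.maximalIdeal.isMaximal O).ne_top h3

private lemma inv_NG {π : O} (hπ : Irreducible π) {f₀ : O[X]} (hf : f₀.Monic) (p : O[X]) :
    ∃ q : O[X], (1 + AdjoinRoot.mk f₀ (C π * p)) * AdjoinRoot.mk f₀ q = 1 := by
  obtain ⟨c, hc⟩ := norm_NG π hf p
  haveI : Module.Free O (AdjoinRoot f₀) := Module.Free.of_basis (AdjoinRoot.powerBasis' hf).basis
  haveI : Module.Finite O (AdjoinRoot f₀) := (AdjoinRoot.powerBasis' hf).finite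
  have h1 : IsUnit (Algebra.norm O (1 + AdjoinRoot.mk f₀ (C π * p))) := by
    rw [hc]; exact unit_NG hπ c
  rw [Algebra.norm_apply, ← LinearMap.isUnit_iff_isUnit_det] at h1
  obtain ⟨y, hy⟩ := ((Module.End.isUnit_iff _).1 h1).2 1
  obtain ⟨q, rfl⟩ := AdjoinRoot.mk_surjective y
  exact ⟨q, hy⟩

end aux_NG

theorem hNG (hNB : StNB) : StNG := by
  intro O k _ _ _ _ _ _ π hπ f₀ hf h hh
  subst hh
  refine ⟨?_, ?_, ?_⟩
  · rintro w w' ⟨p, rfl⟩ ⟨p', rfl⟩
    refine ⟨p + p' + C π * p * p', ?_⟩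
    simp only [tk, Polynomial.map_add, Polynomial.map_mul, map_C, map_add, map_mul]
    ring
  · rintro w ⟨p, rfl⟩
    obtain ⟨q, hq⟩ := inv_NG hπ hf p
    have hq' : AdjoinRoot.mk f₀ ((1 + C π * p) * q) = AdjoinRoot.mk f₀ 1 := by
      rw [map_mul, map_add, map_one]; exact hq
    rw [AdjoinRoot.mk_eq_mk] at hq'
    have hq2 : AdjoinRoot.mk (tk k f₀) (tk k ((1 + C π * p) * q)) = 1 := by
      rw [← map_one (AdjoinRoot.mk (tk k f₀)), AdjoinRoot.mk_eq_mk]
      have := Polynomial.map_dvd (algebraMap O k) hq'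
      rwa [Polynomial.map_sub, Polynomial.map_one] at this
    have hq3 : (1 + AdjoinRoot.mk (tk k f₀) (C (algebraMap O k π) * tk k p)) *
        AdjoinRoot.mk (tk k f₀) (tk k q) = 1 := by
      have h5 := hq2
      simp only [tk, Polynomial.map_add, Polynomial.map_mul, map_C, map_add, map_mul,
        Polynomial.map_one, map_one] at h5
      simpa only [tk, map_mul] using h5
    refine ⟨AdjoinRoot.mk (tk k f₀) (tk k q), hq3, -(p * q), ?_⟩
    rw [add_mul, one_mul] at hq3
    have h4 : AdjoinRoot.mk (tk k f₀) (tk k q) = 1 -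
        AdjoinRoot.mk (tk k f₀) (C (algebraMap O k π) * tk k p) *
          AdjoinRoot.mk (tk k f₀) (tk k q) := by
      rw [← hq3]; ring
    simp only [tk, Polynomial.map_neg, Polynomial.map_mul, map_neg, map_mul] at h4 ⊢
    refine h4.trans ?_
    ring
  · rintro w ⟨p, rfl⟩
    obtain ⟨c, hc⟩ := norm_NG π hf p
    refine ⟨c, ?_⟩
    have h1 := hNB O k (algebraMap O k) f₀ (1 + C π * p) hf
    have h0 : AdjoinRoot.mk f₀ (1 + C π * p) = 1 + AdjoinRoot.mk f₀ (C π * p) := by
      rw [map_add, map_one]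
    rw [h0, hc] at h1
    have h2 : (1 + AdjoinRoot.mk (tk k f₀) (C (algebraMap O k π) * tk k p)) =
        AdjoinRoot.mk (f₀.map (algebraMap O k)) ((1 + C π * p).map (algebraMap O k)) := by
      rw [Polynomial.map_add, Polynomial.map_one, Polynomial.map_mul, map_C, map_add, map_one]
    rw [h2, ← h1, map_add, map_one]

end Pool.Agent.Helper54.HL
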