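import Pool.Agent.Helper54.HL.St

/-!
# HL module CM: `ep` at `q` and the residue of `Rep`
-/

set_option autoImplicit false

namespace Pool.Agent.Helper54.HL

open Polynomial IsDedekindDomain
open Pool.Agent.Helper54.PT (Prm IsAbsP)
open Pool.Agent.Helper3.HY

section calc_CM

variable {O k κ : Type} [CommRing O] [Field k] [Algebra O k] [Field κ] {π : O} {ρ : O →+* κ}
  {g₀ : O[X]}

theorem rep_one_CM (hA : RepA k π ρ g₀) : Rep π ρ g₀ (1 : AdjoinRoot (tk k g₀)) 0 1 := by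
  have h := hA.pow 0
  rw [zpow_zero, C_1, map_one] at h
  exact h

theorem rep_npow_CM (hA : RepA k π ρ g₀) {x : AdjoinRoot (tk k g₀)} {e : ℤ}
    {s : AdjoinRoot (g₀.map ρ)} (h : Rep π ρ g₀ x e s) (n : ℕ) :
    Rep π ρ g₀ (x ^ n) (n * e) (s ^ n) := by
  induction n with
  | zero => simpa using rep_one_CM hA
  | succ n ih =>
    have h1 := hA.mul _ _ _ _ _ _ ih h
    rw [pow_succ, pow_succ]
    have h2 : ((n + 1 : ℕ) : ℤ) * e = n * e + e := by push_cast; ring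
    rw [h2]
    exact h1

theorem not_rep_zero_CM (hA : RepA k π ρ g₀) {e : ℤ} {s : AdjoinRoot (g₀.map ρ)} :
    ¬ Rep π ρ g₀ (0 : AdjoinRoot (tk k g₀)) e s := by
  intro h
  have h1 := hA.mul _ _ _ _ _ _ h (hA.pow 1)
  rw [zero_mul] at h1
  have h2 := (hA.uniq _ _ _ _ _ h h1).1
  omega

/-- an integral element with residue zero has positive exponent -/
theorem pos_of_zero_CM [IsDomain O] [IsFractionRing O k] (hA : RepA k π ρ g₀) (hπ : π ≠ 0)
    {p : O[X]} (hp : AdjoinRoot.mk (g₀.map ρ) (p.map ρ) = 0) {e : ℤ}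
    {s : AdjoinRoot (g₀.map ρ)} (h : Rep π ρ g₀ (AdjoinRoot.mk (tk k g₀) (tk k p)) e s) :
    0 < e := by
  by_contra hcon
  obtain ⟨n, rfl⟩ : ∃ n : ℕ, e = -(n : ℤ) := ⟨(-e).toNat, by omega⟩
  have hπk : algebraMap O k π ≠ 0 := by
    intro h0
    exact hπ ((map_eq_zero_iff _ (IsFractionRing.injective O k)).1 h0)
  obtain ⟨hs, p', hp', heq⟩ := h
  have h1 : AdjoinRoot.mk (g₀.map ρ) ((p' - C (π ^ n) * p).map ρ) = s := by
    rw [Polynomial.map_sub, Polynomial.map_mul, map_sub, map_mul, hp, mul_zero, sub_zero, hp']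
  have h2 : AdjoinRoot.mk (tk k g₀) (tk k (p' - C (π ^ n) * p)) = 0 := by
    have e1 : tk k (p' - C (π ^ n) * p) = tk k p' - C (algebraMap O k π ^ n) * tk k p := by
      rw [tk, tk, tk, Polynomial.map_sub, Polynomial.map_mul, map_C, map_pow]
    rw [e1, map_sub, map_mul, heq, ← map_mul, ← mul_assoc, ← C_mul, zpow_neg, zpow_natCast,
      mul_inv_cancel₀ (pow_ne_zero _ hπk), C_1, one_mul, sub_self]
  have h3 := hA.int (p' - C (π ^ n) * p) (by rw [h1]; exact hs)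
  rw [h2] at h3
  exact not_rep_zero_CM hA h3

theorem rep_one_add_CM [Nontrivial (AdjoinRoot (g₀.map ρ))] (hρπ : ρ π = 0)
    {x : AdjoinRoot (tk k g₀)} {e : ℤ} {s : AdjoinRoot (g₀.map ρ)} (he : 0 < e)
    (h : Rep π ρ g₀ x e s) : Rep π ρ g₀ (1 + x) 0 1 := by
  obtain ⟨n, rfl⟩ : ∃ n : ℕ, e = ((n + 1 : ℕ) : ℤ) := ⟨(e - 1).toNat, by omega⟩
  obtain ⟨-, p, -, hx⟩ := h
  refine ⟨one_ne_zero, 1 + C (π ^ (n + 1)) * p, ?_, ?_⟩
  · rw [Polynomial.map_add, Polynomial.map_mul, map_C, map_pow, hρπ, zero_pow (Nat.succ_ne_zero n),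
      C_0, zero_mul, add_zero, Polynomial.map_one, map_one]
  · have e1 : tk k (1 + C (π ^ (n + 1)) * p) = 1 + C (algebraMap O k π ^ (n + 1)) * tk k p := by
      show (1 + C (π ^ (n + 1)) * p).map (algebraMap O k) = _
      rw [Polynomial.map_add, Polynomial.map_mul, map_C, Polynomial.map_one, map_pow]
    rw [hx, zpow_zero, C_1, one_mul, zpow_natCast, e1, map_add, map_one]

/-- `x - 1` for `x` with representation `(0, 1)` -/
theorem sub_one_CM [IsDomain O] [IsFractionRing O k] (hA : RepA k π ρ g₀) (hπ : π ≠ 0)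
    {x : AdjoinRoot (tk k g₀)} (h : Rep π ρ g₀ x 0 1) {e : ℤ} {s : AdjoinRoot (g₀.map ρ)}
    (h' : Rep π ρ g₀ (x - 1) e s) : 0 < e := by
  obtain ⟨-, p, hp, hx⟩ := h
  have h1 : x - 1 = AdjoinRoot.mk (tk k g₀) (tk k (p - 1)) := by
    have e1 : tk k (p - 1) = tk k p - 1 := by
      show (p - 1).map (algebraMap O k) = _
      rw [Polynomial.map_sub, Polynomial.map_one]
    rw [hx, zpow_zero, C_1, one_mul, e1, map_sub, map_one]
  rw [h1] at h'
  refine pos_of_zero_CM hA hπ ?_ h'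
  rw [Polynomial.map_sub, Polynomial.map_one, map_sub, map_one, hp, sub_self]

end calc_CM

theorem baseChange_mk_CM {k k' : Type} [Field k] [Field k'] (j : k →+* k') (h p : k[X]) :
    baseChange j h (AdjoinRoot.mk h p) = AdjoinRoot.mk (h.map j) (p.map j) := by
  rw [baseChange, AdjoinRoot.map, AdjoinRoot.lift_mk, ← AdjoinRoot.aeval_eq, Polynomial.aeval_def,
    Polynomial.eval₂_map]
  rfl

theorem hCM (h1 : StRA) (h2 : StCV) : StCM := by
  intro F _ _ hF2 f hf _ _ _ P O k _ _ _ _ _ _ i j ρ hLD g₀ hg hgirr hgd hd p₀ hp₀ q hq hp₀q z e s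
    hrep
  have hval := h2 F f hf P O k i j ρ hLD g₀ hg hgirr hgd hd p₀ hp₀ q hq hp₀q
  refine ⟨hval z e s hrep, ?_⟩
  have hρs := hLD.surj
  have hA := h1 O k (kp P) (i P.1) ρ hLD.unif hρs hLD.ker g₀ hg hgirr
  have hπ0 : i P.1 ≠ 0 := hLD.unif.ne_zero
  have hρπ : ρ (i P.1) = 0 := (hLD.ker _).2 dvd_rfl
  have _ : Fact (Irreducible (g₀.map ρ)) := ⟨hgirr⟩
  have _ : Fact (Irreducible (tk k g₀)) := ⟨hA.irr⟩
  set ev : LL f →+* AdjoinRoot (tk k g₀) := (pr hd).comp (baseChange j (fK f)) with hev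
  have hevz : ∀ y : LL f, pr hd (baseChange j (fK f) y) = ev y := fun y => rfl
  rw [hevz] at hrep
  have hval' : ∀ (y : LL f) (e : ℤ) (s : AdjoinRoot (g₀.map ρ)), Rep (i P.1) ρ g₀ (ev y) e s →
      q.valuation (LL f) y = WithZero.exp (-e) := fun y e s h => hval y e s h
  have hevne : ∀ y : LL f, y ≠ 0 → ev y ≠ 0 := fun y hy => (map_ne_zero_iff ev ev.injective).2 hy
  -- values of `ev`
  have hevmk : ∀ b : F[X][X], ev (AdjoinRoot.mk (fK f) (fK b)) =
      AdjoinRoot.mk (tk k g₀) (tk k (b.map i)) := by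
    intro b
    rw [hev, RingHom.comp_apply, baseChange_mk_CM, pr_mk, hLD.map]
  have hevP : ev (algebraMap F[X] (LL f) P.1) =
      AdjoinRoot.mk (tk k g₀) (C (algebraMap O k (i P.1))) := by
    have e1 : algebraMap F[X] (LL f) P.1 = AdjoinRoot.mk (fK f) (fK (C P.1)) := by
      show _ = AdjoinRoot.mk (fK f) ((C P.1 : F[X][X]).map (algebraMap F[X] (RatFunc F)))
      rw [map_C]; rfl
    have e2 : tk k ((C P.1 : F[X][X]).map i) = C (algebraMap O k (i P.1)) := by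
      show ((C P.1 : F[X][X]).map i).map (algebraMap O k) = _
      rw [map_C, map_C]
    rw [e1, hevmk, e2]
  have hrP : Rep (i P.1) ρ g₀ (ev (algebraMap F[X] (LL f) P.1)) 1 1 := by
    have h3 := hA.pow 1
    rw [zpow_one] at h3
    rw [hevP]
    exact h3
  have hrPinv : Rep (i P.1) ρ g₀ (ev (algebraMap F[X] (LL f) P.1)⁻¹) (-1) 1 := by
    have hPne : ev (algebraMap F[X] (LL f) P.1) ≠ 0 := by
      intro h0
      rw [h0] at hrP
      exact not_rep_zero_CM hA hrP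
    have h3 : ev (algebraMap F[X] (LL f) P.1)⁻¹ ≠ 0 := by
      rw [map_inv₀]; exact inv_ne_zero hPne
    obtain ⟨e1, s1, h4⟩ := hA.ex _ h3
    have h5 := hA.mul _ _ _ _ _ _ hrP h4
    rw [map_inv₀, mul_inv_cancel₀ hPne] at h5
    obtain ⟨h6, h7⟩ := hA.uniq _ _ _ _ _ h5 (rep_one_CM hA)
    have h8 : e1 = -1 := by omega
    rw [one_mul] at h7
    rw [← h8, ← h7]
    exact h4
  have hsne : s ≠ 0 := hrep.1
  have hiff : ep P q z = 0 ↔ ∃ (j : ℕ) (β : LL f), β ≠ 0 ∧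
      q.valuation (LL f) (z * algebraMap F[X] (LL f) P.1 ^ j * β ^ 2 - 1) < 1 := by
    unfold ep
    split_ifs with h
    · simp only [true_iff]; exact h
    · simp only [one_ne_zero, false_iff]; exact h
  rw [hiff]
  have hmulp : ∀ (l : ℕ) (β : LL f), ev (z * algebraMap F[X] (LL f) P.1 ^ l * β ^ 2) =
      ev z * ev (algebraMap F[X] (LL f) P.1) ^ l * ev β ^ 2 := by
    intro l β
    rw [map_mul, map_mul, map_pow, map_pow]
  constructor
  · rintro ⟨l, β, hβ, hlt⟩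
    have hr1 : Rep (i P.1) ρ g₀ (ev (z * algebraMap F[X] (LL f) P.1 ^ l * β ^ 2)) 0 1 := by
      by_cases hy : z * algebraMap F[X] (LL f) P.1 ^ l * β ^ 2 - 1 = 0
      · rw [sub_eq_zero.1 hy, map_one]
        exact rep_one_CM hA
      · obtain ⟨e1, s1, h4⟩ := hA.ex _ (hevne _ hy)
        have h5 := hval' _ _ _ h4
        rw [h5, ← WithZero.exp_zero, WithZero.exp_lt_exp] at hlt
        have h6 := rep_one_add_CM hρπ (by omega : 0 < e1) h4
        rw [map_sub, map_one, add_sub_cancel] at h6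
        exact h6
    obtain ⟨e', b, hb⟩ := hA.ex _ (hevne _ hβ)
    have h7 := hA.mul _ _ _ _ _ _ (hA.mul _ _ _ _ _ _ hrep (rep_npow_CM hA hrP l))
      (rep_npow_CM hA hb 2)
    rw [← hmulp] at h7
    obtain ⟨-, h8⟩ := hA.uniq _ _ _ _ _ h7 hr1
    rw [one_pow, mul_one] at h8
    refine ⟨b⁻¹, ?_⟩
    have hbne : b ≠ 0 := hb.1
    field_simp
    exact h8
  · rintro ⟨t, ht⟩
    have htne : t ≠ 0 := by
      rintro rfl
      exact hsne (by rw [ht, mul_zero])
    obtain ⟨b', hb'⟩ := AdjoinRoot.mk_surjective (g := g₀.map ρ) t⁻¹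
    obtain ⟨b, hb⟩ := Polynomial.map_surjective (red P) AdjoinRoot.mk_surjective b'
    have hbc : AdjoinRoot.mk (g₀.map ρ) ((b.map i).map ρ) = t⁻¹ := by
      rw [hLD.map_red, hb, hb']
    have hrb : Rep (i P.1) ρ g₀ (ev (AdjoinRoot.mk (fK f) (fK b))) 0 t⁻¹ := by
      rw [hevmk, ← hbc]
      exact hA.int (b.map i) (by rw [hbc]; exact inv_ne_zero htne)
    set l : ℕ := e.natAbs with hl
    set m : ℕ := (2 * (l : ℤ) - e).toNat with hm
    have hm' : (m : ℤ) = 2 * (l : ℤ) - e := by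
      rw [hm, Int.toNat_of_nonneg]
      omega
    have hrβ := hA.mul _ _ _ _ _ _ hrb (rep_npow_CM hA hrPinv l)
    rw [← map_pow, ← map_mul] at hrβ
    set β : LL f := AdjoinRoot.mk (fK f) (fK b) * (algebraMap F[X] (LL f) P.1)⁻¹ ^ l with hβ
    have hβne : β ≠ 0 := by
      intro h0
      rw [h0, map_zero] at hrβ
      exact not_rep_zero_CM hA hrβ
    have h7 := hA.mul _ _ _ _ _ _ (hA.mul _ _ _ _ _ _ hrep (rep_npow_CM hA hrP m))
      (rep_npow_CM hA hrβ 2)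
    rw [← hmulp] at h7
    have e1 : e + (m : ℤ) * 1 + ((2 : ℕ) : ℤ) * (0 + (l : ℤ) * -1) = 0 := by
      rw [hm']; push_cast; ring
    have e2 : s * 1 ^ m * (t⁻¹ * 1 ^ l) ^ 2 = 1 := by
      rw [ht, one_pow, one_pow, mul_one, mul_one]
      field_simp
    rw [e1, e2] at h7
    refine ⟨m, β, hβne, ?_⟩
    by_cases hy : z * algebraMap F[X] (LL f) P.1 ^ m * β ^ 2 - 1 = 0
    · rw [hy, map_zero]
      exact zero_lt_one
    · obtain ⟨e3, s3, h4⟩ := hA.ex _ (hevne _ hy)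
      have h5 := hval' _ _ _ h4
      rw [map_sub, map_one] at h4
      have h6 := sub_one_CM hA hπ0 h7 h4
      rw [h5, ← WithZero.exp_zero, WithZero.exp_lt_exp]
      omega

end Pool.Agent.Helper54.HL
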