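import Pool.Agent.Helper54.HL.St

/-!
# HY, local part: density (module DE)
-/

set_option autoImplicit false

namespace Pool.Agent.Helper54.HL

open Polynomial IsDedekindDomain
open Pool.Agent.Helper54.PT (Prm IsAbsP)
open Pool.Agent.Helper3.HY

section aux_DE

variable {O k : Type} [CommRing O] [IsDomain O] [IsDiscreteValuationRing O] [Field k]
  [Algebra O k] [IsFractionRing O k]

private lemma clear_DE {π : O} (hπ : Irreducible π) (x : k) :
    ∃ (n : ℕ) (c : O), algebraMap O k π ^ n * x = algebraMap O k c := by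
  obtain ⟨a, b, hb, hx⟩ := IsFractionRing.div_surjective (A := O) x
  have hb0 : b ≠ 0 := nonZeroDivisors.ne_zero hb
  obtain ⟨n, u, hu⟩ := IsDiscreteValuationRing.eq_unit_mul_pow_irreducible hb0 hπ
  have hinj : Function.Injective (algebraMap O k) := IsFractionRing.injective O k
  have hu0 : algebraMap O k (u : O) ≠ 0 := by
    intro h
    exact u.ne_zero ((map_eq_zero_iff _ hinj).1 h)
  have hb1 : algebraMap O k b ≠ 0 := by
    intro h
    exact hb0 ((map_eq_zero_iff _ hinj).1 h)
  have hπ0 : algebraMap O k π ≠ 0 := by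
    intro h
    exact hπ.ne_zero ((map_eq_zero_iff _ hinj).1 h)
  refine ⟨n, a * ((u⁻¹ : Oˣ) : O), ?_⟩
  have hinv : algebraMap O k (u : O) * algebraMap O k ((u⁻¹ : Oˣ) : O) = 1 := by
    rw [← map_mul, Units.mul_inv, map_one]
  rw [← hx, map_mul, hu, map_mul, map_pow]
  field_simp
  rw [mul_assoc, hinv, mul_one]

private lemma clearp_DE {π : O} (hπ : Irreducible π) (p : k[X]) :
    ∃ (n : ℕ) (q : O[X]), C (algebraMap O k π ^ n) * p = tk k q := by
  induction p using Polynomial.induction_on' with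
  | add p p' hp hp' =>
    obtain ⟨n, q, hq⟩ := hp
    obtain ⟨n', q', hq'⟩ := hp'
    refine ⟨n + n', C (π ^ n') * q + C (π ^ n) * q', ?_⟩
    have e : tk k (C (π ^ n') * q + C (π ^ n) * q') =
        C (algebraMap O k π ^ n') * tk k q + C (algebraMap O k π ^ n) * tk k q' := by
      simp only [tk, Polynomial.map_add, Polynomial.map_mul, Polynomial.map_pow, map_C, map_pow]
    rw [e, ← hq, ← hq', pow_add, C_mul]
    ring
  | monomial l x =>
    obtain ⟨n, c, hc⟩ := clear_DE hπ x
    refine ⟨n, monomial l c, ?_⟩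
    rw [tk, map_monomial, ← hc, C_mul_monomial]

variable {F : Type} [Field F] {P : Prm F} {i : F[X] →+* O} {j : RatFunc F →+* k}
  {ρ : O →+* kp P}

private lemma approx_DE (hLD : LD P i j ρ) (N : ℕ) (x : k) :
    ∃ (a : RatFunc F) (c : O), j a = x + algebraMap O k (i P.1) ^ N * algebraMap O k c := by
  obtain ⟨m, c, hc⟩ := clear_DE hLD.unif x
  obtain ⟨a, d, hd⟩ := hLD.dense c (N + m)
  have hinj : Function.Injective (algebraMap O k) := IsFractionRing.injective O k
  have hπ0 : algebraMap O k (i P.1) ≠ 0 := by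
    intro h
    exact hLD.unif.ne_zero ((map_eq_zero_iff _ hinj).1 h)
  refine ⟨algebraMap F[X] (RatFunc F) a / algebraMap F[X] (RatFunc F) P.1 ^ m, -d, ?_⟩
  have h1 : i a = c - i P.1 ^ (N + m) * d := by rw [← hd]; ring
  rw [map_div₀, map_pow, ← hLD.comp, ← hLD.comp, h1, map_sub, ← hc, map_mul, map_pow, map_neg]
  field_simp
  ring

private lemma approxp_DE (hLD : LD P i j ρ) (N : ℕ) (p : k[X]) :
    ∃ (a : (RatFunc F)[X]) (r : O[X]), a.map j = p + C (algebraMap O k (i P.1) ^ N) * tk k r := by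
  induction p using Polynomial.induction_on' with
  | add p p' hp hp' =>
    obtain ⟨a, r, h⟩ := hp
    obtain ⟨a', r', h'⟩ := hp'
    refine ⟨a + a', r + r', ?_⟩
    rw [Polynomial.map_add, h, h', tk, tk, tk, Polynomial.map_add]
    ring
  | monomial l x =>
    obtain ⟨a, c, hc⟩ := approx_DE hLD N x
    refine ⟨monomial l a, monomial l c, ?_⟩
    rw [map_monomial, hc, tk, map_monomial, C_mul_monomial, ← map_add]

end aux_DE

private lemma baseChange_mk_DE {K K' : Type} [Field K] [Field K'] (j : K →+* K') (h a : K[X]) :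
    baseChange j h (AdjoinRoot.mk h a) = AdjoinRoot.mk (h.map j) (a.map j) := by
  induction a using Polynomial.induction_on' with
  | add p q hp hq => rw [map_add, map_add, hp, hq, Polynomial.map_add, map_add]
  | monomial n x =>
    rw [← C_mul_X_pow_eq_monomial, map_mul, map_pow, AdjoinRoot.mk_X, AdjoinRoot.mk_C, map_mul,
      map_pow, Polynomial.map_mul, Polynomial.map_pow, map_X, map_C, map_mul, map_pow,
      AdjoinRoot.mk_X, AdjoinRoot.mk_C]
    congr 1
    · rw [baseChange, AdjoinRoot.map_of]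
    · rw [baseChange, AdjoinRoot.map_root]

theorem hDE (hNG : StNG) : StDE := by
  intro F _ f hf hirr P O k _ _ _ _ _ _ i j ρ hLD y y' hy
  obtain ⟨p, rfl⟩ := AdjoinRoot.mk_surjective y
  obtain ⟨p', rfl⟩ := AdjoinRoot.mk_surjective y'
  obtain ⟨n, q, hq⟩ := clearp_DE hLD.unif p'
  obtain ⟨a, r, ha⟩ := approxp_DE hLD (n + 1) p
  set h : k[X] := (fK f).map j with hh
  have hN : Nr (i P.1) (baseChange j (fK f) (AdjoinRoot.mk (fK f) a) * AdjoinRoot.mk h p') := by
    refine ⟨q * r, ?_⟩
    rw [baseChange_mk_DE, ha, map_add, add_mul, hy]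
    congr 1
    rw [← map_mul]
    congr 1
    have e : tk k (q * r) = tk k q * tk k r := Polynomial.map_mul _
    rw [e, ← hq, pow_succ, C_mul]
    ring
  refine ⟨AdjoinRoot.mk (fK f) a, fun h0 => ?_, hN⟩
  rw [h0, map_zero, zero_mul] at hN
  obtain ⟨w, hw, -⟩ := (hNG O k (i P.1) hLD.unif (f.map i) (hf.map i) h (hLD.map f)).2.1 0 hN
  rw [zero_mul] at hw
  have hdeg : h.degree ≠ 0 := by
    rw [hh, degree_map]
    exact (hirr.out.degree_pos).ne'
  haveI := AdjoinRoot.nontrivial h hdeg
  exact zero_ne_one hw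

end Pool.Agent.Helper54.HL
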