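import Pool.Agent.Helper54.HL.St

/-!
# HY, local part, module Even: even valuations at the regular places
-/

set_option autoImplicit false

namespace Pool.Agent.Helper54.HL

open Polynomial IsDedekindDomain
open Pool.Agent.Helper54.PT (Prm IsAbsP)
open Pool.Agent.Helper3.HY

section

variable {F : Type} [Field F] {f : F[X][X]} [Fact (Irreducible (fK f))] [IsDedekindDomain (RR f)]
  [IsFractionRing (RR f) (LL f)]

/-- The units with even valuation at all primes above `P`. -/
private noncomputable def Cl_Even (P : Prm F) (f : F[X][X]) [Fact (Irreducible (fK f))]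
    [IsDedekindDomain (RR f)] [IsFractionRing (RR f) (LL f)] : Subgroup (LL f)ˣ where
  carrier := {z | ∀ q : HeightOneSpectrum (RR f), Over P q → EvenAt q (z : LL f)}
  mul_mem' := by
    intro a b ha hb q hq
    have h1 := ha q hq
    have h2 := hb q hq
    unfold EvenAt at h1 h2 ⊢
    rw [Units.val_mul, map_mul]
    exact h1.mul h2
  one_mem' := by
    intro q hq
    unfold EvenAt
    rw [Units.val_one, map_one]
    exact IsSquare.one
  inv_mem' := by
    intro a ha q hq
    have h1 := ha q hq
    unfold EvenAt at h1 ⊢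
    rw [Units.val_inv_eq_inv_val, map_inv₀]
    exact h1.inv

private lemma mem_Cl_Even {P : Prm F} {z : (LL f)ˣ} : z ∈ Cl_Even P f ↔
    ∀ q : HeightOneSpectrum (RR f), Over P q → EvenAt q (z : LL f) := Iff.rfl

end

theorem hEven (h1 : StLD) (h2 : StIN) (h3 : StEI) (h4 : StBG) (h5 : StNV) (h6 : StDE) (h7 : StNG) :
    StEven := by
  intro F _ _ hF2 g hg f hf hdeg _ _ _ P D hPD v hv hP z hz q hq
  obtain ⟨O, _, _, _, _, _, i, ρ, hLD, _, hirr⟩ := h1 F P v hv hP
  set j : RatFunc F →+* v.Completion := algebraMap (RatFunc F) v.Completion with hj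
  set Dk : v.Completion := j (algebraMap F[X] (RatFunc F) D) with hDk
  have hD0 : D ≠ 0 := by rintro rfl; exact hPD (dvd_zero _)
  have hDk0 : Dk ≠ 0 := by
    rw [hDk, Ne, map_eq_zero, map_eq_zero_iff _ (RatFunc.algebraMap_injective F)]
    exact hD0
  have hmem : z ∈ Cl_Even P f := by
    refine h2 F f hf P O v.Completion i j ρ hLD Dk hDk0 (Cl_Even P f) ?_ ?_ ?_ z hz
    · intro z hz q hq
      have := (h5 F f hf P q hq (z : LL f) hz).2
      unfold EvenAt
      rw [this]; exact IsSquare.one
    · intro z q hq
      unfold EvenAt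
      rw [Units.val_pow_eq_pow_val, map_pow]
      exact IsSquare.sq _
    · rintro y y' hyy ⟨U, V, hU, hUirr, hcop, hdiv, hy⟩
      rcases hirr U hU hUirr with hI | hB
      · have e : AdjoinRoot.mk ((fK f).map j)
            (C (-j (algebraMap F[X] (RatFunc F) D)) ^ U.natDegree * U) * y' = 1 := by
          rw [← hDk, ← hy]; exact hyy
        obtain ⟨z, hz1, hz2⟩ := h3 F hF2 f hf P O v.Completion i j ρ hLD D hPD U V hUirr hcop hdiv hI y' e
        exact ⟨z, hz1, hz2⟩
      · have hmap : (fK f).map j = tk v.Completion (f.map i) := hLD.map f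
        have hf₀ : (f.map i).Monic := hf.map i
        have hodd : Odd (f.map i).natDegree := by
          rw [hf.natDegree_map, hdeg]; exact ⟨g, rfl⟩
        obtain ⟨c, w, hc, hw, e⟩ := h4 O v.Completion (i P.1) hLD.unif (f.map i) hf₀ hodd
          ((fK f).map j) hmap Dk hDk0 U V hU hB hcop hdiv
        obtain ⟨hmul, hinv, -⟩ := h7 O v.Completion (i P.1) hLD.unif (f.map i) hf₀ ((fK f).map j) hmap
        obtain ⟨w', hww, hw'⟩ := hinv w hw
        have ecc : algebraMap v.Completion (AdjoinRoot ((fK f).map j)) c *
            algebraMap v.Completion (AdjoinRoot ((fK f).map j)) c⁻¹ = 1 := by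
          rw [← map_mul, mul_inv_cancel₀ hc, map_one]
        obtain ⟨z, hz0, hz⟩ := h6 F f hf P O v.Completion i j ρ hLD _ _ ecc
        refine ⟨(Units.mk0 z hz0) ^ 2, ?_, ?_⟩
        · intro q hq
          unfold EvenAt
          rw [Units.val_pow_eq_pow_val, map_pow]
          exact IsSquare.sq _
        · have hyy2 : algebraMap v.Completion (AdjoinRoot ((fK f).map j)) c ^ 2 * w * y' = 1 := by
            rw [← e, ← hy]; exact hyy
          have e3 : algebraMap v.Completion (AdjoinRoot ((fK f).map j)) c ^ 2 * y' = w' := by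
            calc _ = (algebraMap v.Completion (AdjoinRoot ((fK f).map j)) c ^ 2 * y') * (w * w') := by
                  rw [hww, mul_one]
              _ = (algebraMap v.Completion (AdjoinRoot ((fK f).map j)) c ^ 2 * w * y') * w' := by ring
              _ = w' := by rw [hyy2, one_mul]
          have e4 : baseChange j (fK f) (((Units.mk0 z hz0) ^ 2 : (LL f)ˣ) : LL f) * y' =
              (baseChange j (fK f) z * algebraMap v.Completion (AdjoinRoot ((fK f).map j)) c⁻¹) *
              (baseChange j (fK f) z * algebraMap v.Completion (AdjoinRoot ((fK f).map j)) c⁻¹) * w' := by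
            rw [Units.val_pow_eq_pow_val, Units.val_mk0, map_pow, ← e3]
            calc _ = (baseChange j (fK f) z) ^ 2 * y' * 1 := by ring
              _ = (baseChange j (fK f) z) ^ 2 * y' *
                  ((algebraMap v.Completion (AdjoinRoot ((fK f).map j)) c *
                    algebraMap v.Completion (AdjoinRoot ((fK f).map j)) c⁻¹) ^ 2) := by
                  rw [ecc, one_pow]
              _ = _ := by ring
          rw [e4]
          exact hmul _ _ (hmul _ _ hz hz) hw'
  exact mem_Cl_Even.1 hmem q hq

end Pool.Agent.Helper54.HL
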