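import Pool.Agent.Helper54.HL.St

/-!
# HL, module FA: the factorisation at a place of `T`
-/

set_option autoImplicit false

namespace Pool.Agent.Helper54.HL

open Polynomial

theorem hFA : StFA := by
  intro O κ _ _ _ _ ρ hρ hR f₀ a p hf₀ hp hpa hfac
  obtain ⟨a₀, ha₀⟩ := hρ a
  have h1 : ρ (f₀.eval a₀) = 0 := by
    have h2 : (f₀.map ρ).eval (ρ a₀) = ρ (f₀.eval a₀) := by
      rw [eval_map, eval₂_hom]
    rw [← h2, ha₀, hfac, eval_mul, eval_sub, eval_X, eval_C, sub_self, zero_mul]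
  have h2 : ρ (f₀.derivative.eval a₀) ≠ 0 := by
    have h3 : (f₀.derivative.map ρ).eval (ρ a₀) = ρ (f₀.derivative.eval a₀) := by
      rw [eval_map, eval₂_hom]
    rw [← h3, ha₀, ← derivative_map, hfac, derivative_mul, derivative_sub, derivative_X,
      derivative_C, sub_zero, one_mul, eval_add, eval_mul, eval_sub, eval_X, eval_C, sub_self,
      zero_mul, add_zero]
    exact hpa
  obtain ⟨b, hb1, hb2⟩ := hR f₀ a₀ hf₀ h1 h2
  obtain ⟨g₂, hg₂⟩ := dvd_iff_isRoot.2 (show f₀.IsRoot b from hb1)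
  have hba : ρ b = a := hb2.trans ha₀
  refine ⟨b, g₂, ?_, hba, hg₂, ?_⟩
  · refine Monic.of_mul_monic_left (monic_X_sub_C b) ?_
    rw [← hg₂]; exact hf₀
  · have h3 : (X - C a) * g₂.map ρ = (X - C a) * p := by
      rw [← hfac]
      conv_rhs => rw [hg₂, Polynomial.map_mul, Polynomial.map_sub, map_X, map_C, hba]
    exact mul_left_cancel₀ (X_sub_C_ne_zero a) h3

end Pool.Agent.Helper54.HL
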