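import Pool.Agent.Helper54.HL.St

/-!
# HY, local part: norms and squares in finite fields (module FS)
-/

set_option autoImplicit false

namespace Pool.Agent.Helper54.HL

open Polynomial IsDedekindDomain
open Pool.Agent.Helper54.PT (Prm IsAbsP)
open Pool.Agent.Helper3.HY

private lemma exp_FS {q n : ℕ} (hq : 1 < q) (hodd : q % 2 = 1) :
    (q ^ n - 1) / (q - 1) * (q / 2) = q ^ n / 2 ∧ q ^ n % 2 = 1 := by
  have h1 : (q - 1) ∣ q ^ n - 1 := by simpa using Nat.sub_dvd_pow_sub_pow q 1 n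
  obtain ⟨m, hm⟩ := h1
  have hqp : 0 < q - 1 := by omega
  have hqn : 1 ≤ q ^ n := Nat.one_le_pow _ _ (by omega)
  have h2 : q ^ n % 2 = 1 := by
    rw [Nat.pow_mod, hodd, one_pow, Nat.one_mod]
  refine ⟨?_, h2⟩
  rw [hm, Nat.mul_div_cancel_left _ hqp]
  obtain ⟨r, hr⟩ : ∃ r, q = 2 * r + 1 := ⟨q / 2, by omega⟩
  have h3 : q / 2 = r := by omega
  have h4 : q - 1 = 2 * r := by omega
  rw [h3]
  rw [h4] at hm
  have h5 : q ^ n = 2 * (m * r) + 1 := by
    have : 2 * r * m = 2 * (m * r) := by ring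
    omega
  omega

private lemma even_FS {q n : ℕ} (hq : 1 < q) (hodd : q % 2 = 1) (hn : Even n) :
    2 * (q - 1) ∣ q ^ n - 1 := by
  obtain ⟨m, rfl⟩ := hn
  have h1 : q ^ 2 - 1 ∣ q ^ (m + m) - 1 := by
    have := Nat.sub_dvd_pow_sub_pow (q ^ 2) 1 m
    rw [one_pow, ← pow_mul] at this
    rwa [← two_mul]
  refine Dvd.dvd.trans ?_ h1
  obtain ⟨r, hr⟩ : ∃ r, q = 2 * r + 1 := ⟨q / 2, by omega⟩
  subst hr
  refine ⟨r + 1, ?_⟩
  have h4 : (2 * r + 1) ^ 2 = 4 * r ^ 2 + 4 * r + 1 := by ring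
  have h5 : 2 * (2 * r + 1 - 1) * (r + 1) = 4 * r ^ 2 + 4 * r := by
    rw [Nat.add_sub_cancel]; ring
  rw [h4, h5]
  omega

theorem hFS : StFS := by
  intro κ _ _ h2 h hm hirr
  haveI hF : Fact (Irreducible h) := ⟨hirr⟩
  haveI : Fintype κ := Fintype.ofFinite κ
  haveI hfd : FiniteDimensional κ (AdjoinRoot h) := (AdjoinRoot.powerBasis hirr.ne_zero).finite
  haveI : Finite (AdjoinRoot h) := Module.finite_of_finite κ
  haveI : Fintype (AdjoinRoot h) := Fintype.ofFinite (AdjoinRoot h)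
  have hfr : Module.finrank κ (AdjoinRoot h) = h.natDegree := by
    rw [(AdjoinRoot.powerBasis hirr.ne_zero).finrank, AdjoinRoot.powerBasis_dim]
  have hcard : Fintype.card (AdjoinRoot h) = Fintype.card κ ^ h.natDegree := by
    rw [Module.card_eq_pow_finrank (K := κ) (V := AdjoinRoot h), hfr]
  have hchar : ringChar κ ≠ 2 := by
    intro hc
    apply h2
    have := ringChar.Nat.cast_ringChar (R := κ)
    rw [hc] at this
    exact_mod_cast this
  have hchar' : ringChar (AdjoinRoot h) ≠ 2 := by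
    intro hc
    apply h2
    have := ringChar.Nat.cast_ringChar (R := AdjoinRoot h)
    rw [hc] at this
    have h3 : algebraMap κ (AdjoinRoot h) 2 = 0 := by
      rw [map_ofNat]; exact_mod_cast this
    exact (map_eq_zero _).1 h3
  have hq : 1 < Fintype.card κ := Fintype.one_lt_card
  have hodd := FiniteField.odd_card_of_char_ne_two hchar
  have hexp := exp_FS (n := h.natDegree) hq hodd
  refine ⟨fun x => ?_, fun hev c => ?_⟩
  · constructor
    · intro hs
      by_cases hx : x = 0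
      · subst hx; exact IsSquare.zero
      have hN : Algebra.norm κ x ≠ 0 := by
        rwa [Ne, Algebra.norm_eq_zero_iff]
      rw [FiniteField.isSquare_iff hchar hN] at hs
      rw [FiniteField.isSquare_iff hchar' hx, hcard, ← hexp.1, pow_mul]
      have h3 := FiniteField.algebraMap_norm_eq_pow (K := κ) (K' := AdjoinRoot h) (x := x)
      rw [Nat.card_eq_fintype_card, Nat.card_eq_fintype_card, hcard] at h3
      rw [← h3, ← map_pow, hs, map_one]
    · rintro ⟨y, rfl⟩
      exact ⟨Algebra.norm κ y, map_mul _ _ _⟩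
  · by_cases hc : c = 0
    · subst hc; rw [map_zero]; exact IsSquare.zero
    have hc' : algebraMap κ (AdjoinRoot h) c ≠ 0 := by rwa [Ne, map_eq_zero]
    rw [FiniteField.isSquare_iff hchar' hc', hcard]
    obtain ⟨m, hm'⟩ := even_FS hq hodd hev
    have hqn : 1 ≤ Fintype.card κ ^ h.natDegree := Nat.one_le_pow _ _ (by omega)
    have h3 : Fintype.card κ ^ h.natDegree / 2 = (Fintype.card κ - 1) * m := by
      have : 2 * (Fintype.card κ - 1) * m = 2 * ((Fintype.card κ - 1) * m) := by ring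
      omega
    rw [h3, pow_mul, ← map_pow, FiniteField.pow_card_sub_one_eq_one c hc, map_one, one_pow]

end Pool.Agent.Helper54.HL
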