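import Pool.Agent.Helper54.HL.St

/-!
# HL: module GE
-/

set_option autoImplicit false

namespace Pool.Agent.Helper54.HL

open Polynomial IsDedekindDomain
open Pool.Agent.Helper54.PT (Prm IsAbsP)
open Pool.Agent.Helper3.HY

theorem hGE : StGE := by
  intro k _ h D hD G hirr hsq
  have key : ∀ n : ℕ, ∀ U V : k[X], U.natDegree = n → U.Monic → IsCoprime U h →
      U ∣ C D * h - V ^ 2 → ∀ z : (AdjoinRoot h)ˣ,
      (z : AdjoinRoot h) = AdjoinRoot.mk h (C (-D) ^ U.natDegree * U) → z ∈ G := by
    intro n
    induction n using Nat.strong_induction_on with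
    | _ n ih =>
      intro U V hn hU hcop hdvd z hz
      by_cases hu : IsUnit U
      · have h1 : U = 1 := hU.eq_one_of_isUnit hu
        subst h1
        have h2 : z = 1 := by
          apply Units.ext
          rw [hz, natDegree_one, pow_zero, mul_one, map_one, Units.val_one]
        rw [h2]
        exact G.one_mem
      · obtain ⟨U₁, h1m, h1i, U₂, hU12⟩ := exists_monic_irreducible_factor U hu
        have h2m : U₂.Monic := by
          rw [hU12] at hU
          exact h1m.of_mul_monic_left hU
        have hdeg : U.natDegree = U₁.natDegree + U₂.natDegree := by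
          rw [hU12, h1m.natDegree_mul h2m]
        have h1pos : 0 < U₁.natDegree := h1i.natDegree_pos
        have hc1 : IsCoprime U₁ h := by
          rw [hU12] at hcop
          exact hcop.of_mul_left_left
        have hc2 : IsCoprime U₂ h := by
          rw [hU12] at hcop
          exact hcop.of_mul_left_right
        have hd1 : U₁ ∣ C D * h - V ^ 2 := (Dvd.intro _ hU12.symm).trans hdvd
        have hd2 : U₂ ∣ C D * h - V ^ 2 := (Dvd.intro_left _ hU12.symm).trans hdvd
        have hunit : ∀ W : k[X], IsCoprime W h →
            IsUnit (AdjoinRoot.mk h (C (-D) ^ W.natDegree * W)) := by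
          intro W hW
          rw [map_mul, map_pow]
          refine IsUnit.mul (IsUnit.pow _ ?_) ?_
          · have : IsUnit (C (-D) : k[X]) := by
              rw [isUnit_C]
              exact (neg_ne_zero.2 hD).isUnit
            exact this.map _
          · obtain ⟨a, b, hab⟩ := hW
            refine IsUnit.of_mul_eq_one (AdjoinRoot.mk h a) ?_
            rw [← map_mul, mul_comm W a]
            have h5 : a * W = 1 - b * h := by rw [← hab]; ring
            rw [h5, map_sub, map_one, map_mul, AdjoinRoot.mk_self, mul_zero, sub_zero]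
        obtain ⟨z₁, hz₁⟩ := hunit U₁ hc1
        obtain ⟨z₂, hz₂⟩ := hunit U₂ hc2
        have hz12 : z = z₁ * z₂ := by
          apply Units.ext
          rw [Units.val_mul, hz₁, hz₂, hz, ← map_mul, hdeg, pow_add]
          congr 1
          conv_lhs => rw [hU12]
          ring
        rw [hz12]
        refine G.mul_mem (hirr z₁ ⟨U₁, V, h1m, h1i, hc1, hd1, hz₁⟩) ?_
        exact ih U₂.natDegree (by omega) U₂ V rfl h2m hc2 hd2 z₂ hz₂
  unfold twGroup
  rw [Subgroup.closure_le]
  rintro z (hz | ⟨w, rfl⟩)
  · obtain ⟨U, V, hU, hcop, hd, hz'⟩ := hz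
    exact key _ U V rfl hU hcop hd z hz'
  · exact hsq w

end Pool.Agent.Helper54.HL
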