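import Pool.Agent.Helper54.HL.St
import Pool.Agent.Helper92.TW.C7

/-!
# HL module I1: the places where `f` is irreducible
-/

set_option autoImplicit false
set_option linter.unusedSectionVars false

namespace Pool.Agent.Helper54.HL

open Polynomial IsDedekindDomain
open Pool.Agent.Helper54.PT (Prm IsAbsP)
open Pool.Agent.Helper3.HY

section

variable {O k κ : Type} [CommRing O] [IsDomain O] [IsDiscreteValuationRing O] [Field k]
  [Algebra O k] [IsFractionRing O k] [Field κ]

/-- Nonzero elements of `k` are a power of the uniformizer times a unit. -/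
theorem exists_unit_I1 {π : O} (hπ : Irreducible π) {y : k} (hy : y ≠ 0) :
    ∃ (a : ℤ) (u : Oˣ), y = algebraMap O k π ^ a * algebraMap O k (u : O) := by
  have hinj : Function.Injective (algebraMap O k) := IsFractionRing.injective O k
  have hπ0 : algebraMap O k π ≠ 0 := by
    rw [Ne, ← map_zero (algebraMap O k), hinj.eq_iff]
    exact hπ.ne_zero
  obtain ⟨r, s, hs, rfl⟩ := IsFractionRing.div_surjective (A := O) y
  have hs0 : s ≠ 0 := nonZeroDivisors.ne_zero hs
  have hr0 : r ≠ 0 := by
    rintro rfl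
    exact hy (by rw [map_zero, zero_div])
  obtain ⟨n, u, hu⟩ := IsDiscreteValuationRing.eq_unit_mul_pow_irreducible hr0 hπ
  obtain ⟨m, w, hw⟩ := IsDiscreteValuationRing.eq_unit_mul_pow_irreducible hs0 hπ
  refine ⟨(n : ℤ) - m, u * w⁻¹, ?_⟩
  have hw1 : algebraMap O k (w : O) * algebraMap O k ((w⁻¹ : Oˣ) : O) = 1 := by
    rw [← map_mul, Units.mul_inv, map_one]
  have hw0 : algebraMap O k (w : O) ≠ 0 := left_ne_zero_of_mul_eq_one hw1
  have hp : algebraMap O k π ^ m ≠ 0 := pow_ne_zero _ hπ0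
  rw [hu, hw, Units.val_mul, map_mul, map_mul, map_mul, map_pow, map_pow, zpow_sub₀ hπ0,
    zpow_natCast, zpow_natCast, div_eq_iff (mul_ne_zero hw0 hp)]
  have : algebraMap O k π ^ n / algebraMap O k π ^ m *
      (algebraMap O k (u : O) * algebraMap O k ((w⁻¹ : Oˣ) : O)) *
      (algebraMap O k (w : O) * algebraMap O k π ^ m) =
      (algebraMap O k π ^ n / algebraMap O k π ^ m * algebraMap O k π ^ m) *
      algebraMap O k (u : O) * (algebraMap O k (w : O) * algebraMap O k ((w⁻¹ : Oˣ) : O)) := by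
    ring
  rw [this, hw1, div_mul_cancel₀ _ hp]
  ring

/-- Uniqueness of the exponent. -/
theorem unit_uniq_I1 {π : O} (hπ : Irreducible π) {a b : ℤ} {c d : O} (hc : ¬ π ∣ c)
    (hd : ¬ π ∣ d) (h : algebraMap O k π ^ a * algebraMap O k c =
      algebraMap O k π ^ b * algebraMap O k d) : a = b ∧ c = d := by
  have hinj : Function.Injective (algebraMap O k) := IsFractionRing.injective O k
  have hπ0 : algebraMap O k π ≠ 0 := by
    rw [Ne, ← map_zero (algebraMap O k), hinj.eq_iff]
    exact hπ.ne_zero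
  have key : ∀ (a : ℤ) (n : ℕ) (c d : O), ¬ π ∣ c → algebraMap O k π ^ a * algebraMap O k c =
      algebraMap O k π ^ (a + n) * algebraMap O k d → n = 0 ∧ c = d := by
    intro a n c d hc h
    rw [zpow_add₀ hπ0, mul_assoc] at h
    have h1 := mul_left_cancel₀ (zpow_ne_zero _ hπ0) h
    rw [zpow_natCast, ← map_pow, ← map_mul] at h1
    have h2 := hinj h1
    rcases Nat.eq_zero_or_pos n with rfl | hn
    · exact ⟨rfl, by rw [h2, pow_zero, one_mul]⟩
    · exact absurd (h2 ▸ (dvd_pow_self π hn.ne').mul_right d) hc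
  rcases le_total a b with hab | hab
  · obtain ⟨n, rfl⟩ : ∃ n : ℕ, b = a + n := ⟨(b - a).toNat, by omega⟩
    obtain ⟨rfl, h2⟩ := key a n c d hc h
    exact ⟨by simp, h2⟩
  · obtain ⟨n, rfl⟩ : ∃ n : ℕ, a = b + n := ⟨(a - b).toNat, by omega⟩
    obtain ⟨rfl, h2⟩ := key b n d c hd h.symm
    exact ⟨by simp, h2.symm⟩

end

theorem hI1 (h1 : StRA) (h2 : StRB) (h3 : StCV) (h4 : StLD) (h5 : StNB) (h6 : StFS)
    (h7 : StNO) : StI1 := by
  intro F _ _ hF2 g hg f hf _ _ _ P hI z hz hzN
  obtain ⟨v, hv, hvP⟩ := Pool.Agent.Helper54.PT.exists_absP P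
  obtain ⟨O, _, _, _, _, _, i, ρ, hLD, hroot, -⟩ := h4 F P v hv hvP
  obtain ⟨hIm, hIi, hId⟩ := hI
  have hinj : Function.Injective (algebraMap O v.Completion) := IsFractionRing.injective O _
  have hirr : Irreducible ((f.map i).map ρ) := by rw [hLD.map_red]; exact hIi
  have hg₀ : (f.map i).Monic := hf.map i
  have hgdeg : (f.map i).natDegree = 2 * g + 1 := by
    rw [hf.natDegree_map, ← hId, hf.natDegree_map]
  have hd : tk v.Completion (f.map i) ∣ (fK f).map (algebraMap (RatFunc F) v.Completion) := by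
    rw [hLD.map f]
  have hRA := h1 O v.Completion (kp P) (i P.1) ρ hLD.unif hLD.surj hLD.ker (f.map i) hg₀ hirr
  have hRB := h2 O v.Completion (kp P) (i P.1) ρ hLD.unif hLD.surj hLD.ker (f.map i) hg₀ hirr
  have _ : Fact (Irreducible (tk v.Completion (f.map i))) := ⟨hRA.irr⟩
  have _ : Fact (Irreducible ((f.map i).map ρ)) := ⟨hirr⟩
  have _ : Finite (kp P) := by
    have : Module.Finite F (kp P) := (AdjoinRoot.powerBasis P.2.2.ne_zero).finite
    exact Module.finite_of_finite F
  have h2k : (2 : kp P) ≠ 0 := by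
    have h8 : (2 : kp P) = algebraMap F (kp P) 2 := by rw [map_ofNat]
    rw [h8]
    exact (_root_.map_ne_zero _).2 hF2
  have hπ0 : algebraMap O v.Completion (i P.1) ≠ 0 := by
    rw [Ne, ← map_zero (algebraMap O v.Completion), hinj.eq_iff]
    exact hLD.unif.ne_zero
  set j := algebraMap (RatFunc F) v.Completion with hj
  -- the element
  have hw0 : pr hd (baseChange j (fK f) z) ≠ 0 :=
    (_root_.map_ne_zero ((pr hd).comp (baseChange j (fK f)))).2 hz
  obtain ⟨e, s, hs⟩ := hRA.ex _ hw0
  -- the norm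
  have hnorm : Algebra.norm v.Completion (pr hd (baseChange j (fK f) z)) =
      j (Algebra.norm (RatFunc F) z) := by
    obtain ⟨p, rfl⟩ := AdjoinRoot.mk_surjective z
    rw [h5 (RatFunc F) v.Completion j (fK f) p (hf.map _)]
    have h8 : baseChange j (fK f) (AdjoinRoot.mk (fK f) p) =
        AdjoinRoot.mk ((fK f).map j) (p.map j) := by
      rw [baseChange, AdjoinRoot.map, AdjoinRoot.lift_mk, ← Polynomial.eval₂_map,
        ← AdjoinRoot.aeval_eq, Polynomial.aeval_def]
      rfl
    rw [h8, pr_mk, hLD.map f]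
  obtain ⟨c, hc1, hc2⟩ := hRB.norm _ _ _ hs
  have hsN : Algebra.norm (kp P) s ≠ 0 := by
    rw [Ne, Algebra.norm_eq_zero_iff_of_basis (AdjoinRoot.powerBasis hirr.ne_zero).basis]
    exact hs.1
  have hcπ : ¬ i P.1 ∣ c := by
    rw [← hLD.ker, hc1]
    exact hsN
  obtain ⟨y, hy⟩ := hzN
  have hjy : algebraMap O v.Completion (i P.1) ^ (e * (f.map i).natDegree) *
      algebraMap O v.Completion c = j y * j y := by
    rw [← hc2, hnorm, hy, map_mul]
  have hy0 : j y ≠ 0 := by
    intro h0
    rw [h0, mul_zero] at hjy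
    rcases mul_eq_zero.1 hjy with h8 | h8
    · exact zpow_ne_zero _ hπ0 h8
    · rw [← map_zero (algebraMap O v.Completion), hinj.eq_iff] at h8
      exact hcπ (h8 ▸ dvd_zero _)
  obtain ⟨a, u, hu⟩ := exists_unit_I1 (O := O) hLD.unif hy0
  have hjy2 : algebraMap O v.Completion (i P.1) ^ (e * (f.map i).natDegree) *
      algebraMap O v.Completion c =
      algebraMap O v.Completion (i P.1) ^ (a + a) * algebraMap O v.Completion ((u : O) * u) := by
    rw [hjy, hu, zpow_add₀ hπ0, map_mul]
    ring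
  obtain ⟨he, hcu⟩ := unit_uniq_I1 hLD.unif hcπ
    (fun h => hLD.unif.not_isUnit (isUnit_of_dvd_unit h (u.isUnit.mul u.isUnit))) hjy2
  have heven : Even e := by
    rw [hgdeg] at he
    push_cast at he
    have h8 : Even (e * (2 * (g : ℤ) + 1)) := ⟨a, he⟩
    rw [Int.even_mul] at h8
    rcases h8 with h8 | h8
    · exact h8
    · exact absurd h8 (by rw [Int.not_even_iff_odd]; exact ⟨g, rfl⟩)
  have hsq : IsSquare s := by
    rw [← (h6 (kp P) h2k ((f.map i).map ρ) (hg₀.map ρ) hirr).1, ← hc1, hcu, map_mul]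
    exact ⟨_, rfl⟩
  refine ⟨?_, ?_⟩
  · intro q hq
    have h8 := h3 F f hf P O v.Completion i j ρ hLD (f.map i) hg₀ hirr dvd_rfl hd f
      (hLD.map_red f).symm q hq (by rw [AdjoinRoot.mk_self]; exact q.asIdeal.zero_mem) z e s hs
    unfold EvenAt
    rw [h8]
    obtain ⟨m, hm⟩ := heven
    exact ⟨WithZero.exp (-m), by rw [← WithZero.exp_add]; congr 1; omega⟩
  · obtain ⟨t, ht⟩ := hsq
    have ht0 : t ≠ 0 := by
      rintro rfl
      exact hs.1 (by rw [ht, mul_zero])
    obtain ⟨e', he'⟩ := heven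
    obtain ⟨b', hb'⟩ := AdjoinRoot.mk_surjective (t⁻¹)
    obtain ⟨b, hb⟩ := Polynomial.map_surjective (red P) AdjoinRoot.mk_surjective b'
    -- the correcting element
    set β : LL f := AdjoinRoot.mk (fK f)
      (C (algebraMap F[X] (RatFunc F) P.1 ^ (-e')) * b.map (algebraMap F[X] (RatFunc F))) with hβ
    have hβ1 : pr hd (baseChange j (fK f) β) = AdjoinRoot.mk (tk v.Completion (f.map i))
        (C (algebraMap O v.Completion (i P.1) ^ (-e')) * tk v.Completion (b.map i)) := by
      have h8 : baseChange j (fK f) β = AdjoinRoot.mk ((fK f).map j)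
          ((C (algebraMap F[X] (RatFunc F) P.1 ^ (-e')) *
            b.map (algebraMap F[X] (RatFunc F))).map j) := by
        rw [hβ, baseChange, AdjoinRoot.map, AdjoinRoot.lift_mk, ← Polynomial.eval₂_map,
          ← AdjoinRoot.aeval_eq, Polynomial.aeval_def]
        rfl
      rw [h8, pr_mk]
      congr 1
      rw [Polynomial.map_mul, Polynomial.map_C, map_zpow₀, hLD.comp]
      congr 1
      exact hLD.map b
    have hβrep : Rep (i P.1) ρ (f.map i) (pr hd (baseChange j (fK f) β)) (-e') t⁻¹ := by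
      refine ⟨inv_ne_zero ht0, b.map i, ?_, hβ1⟩
      rw [hLD.map_red b, hb]
      exact hb'
    have hβ0 : β ≠ 0 := by
      intro h8
      rw [h8, map_zero, map_zero] at hβrep
      obtain ⟨h9, p, hp, hp'⟩ := hβrep
      have h10 := hRA.uniq 0 (-e') 0 (t⁻¹) 1 ⟨h9, p, hp, hp'⟩
      -- zero has no representation
      have h11 : AdjoinRoot.mk (tk v.Completion (f.map i)) (tk v.Completion p) = 0 := by
        rw [map_mul] at hp'
        rcases mul_eq_zero.1 hp'.symm with h12 | h12
        · exfalso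
          rw [AdjoinRoot.mk_eq_zero] at h12
          have h13 : IsUnit (C (algebraMap O v.Completion (i P.1) ^ (-e')) : v.Completion[X]) :=
            isUnit_C.2 (IsUnit.mk0 _ (zpow_ne_zero _ hπ0))
          exact hRA.irr.not_isUnit (isUnit_of_dvd_unit h12 h13)
        · exact h12
      rw [AdjoinRoot.mk_eq_zero] at h11
      have h12 : f.map i ∣ p := (Polynomial.map_dvd_map (algebraMap O v.Completion) hinj hg₀).1 h11
      have h13 := Polynomial.map_dvd ρ h12
      rw [← AdjoinRoot.mk_eq_zero, hp] at h13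
      exact h9 h13
    refine ⟨β, hβ0, ?_⟩
    rw [h7 F f hf P O v.Completion i j ρ hLD]
    -- the product
    have hprod := hRA.mul _ _ _ _ _ _ hs (hRA.mul _ _ _ _ _ _ hβrep hβrep)
    have h8 : e + (-e' + -e') = 0 := by omega
    have h9 : s * (t⁻¹ * t⁻¹) = 1 := by
      rw [ht]
      field_simp
    rw [h8, h9] at hprod
    obtain ⟨-, p, hp, hp'⟩ := hprod
    rw [zpow_zero, C_1, one_mul] at hp'
    -- `p - 1` is in `(f, π)`
    have h10 : (f.map i).map ρ ∣ p.map ρ - 1 := by
      rw [← AdjoinRoot.mk_eq_mk, map_one, hp]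
    obtain ⟨r, hr⟩ := h10
    obtain ⟨r', hr'⟩ := Polynomial.map_surjective ρ hLD.surj r
    have h11 : C (i P.1) ∣ p - 1 - f.map i * r' := by
      rw [C_dvd_iff_dvd_coeff]
      intro l
      rw [← hLD.ker, ← coeff_map, Polynomial.map_sub, Polynomial.map_sub, Polynomial.map_mul,
        Polynomial.map_one, hr, hr', sub_self, coeff_zero]
    obtain ⟨c', hc'⟩ := h11
    refine ⟨c', ?_⟩
    have hbc : ∀ x : LL f, ∃ q : v.Completion[X], baseChange j (fK f) x =
        AdjoinRoot.mk ((fK f).map j) q := fun x => by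
      obtain ⟨q, hq⟩ := AdjoinRoot.mk_surjective (baseChange j (fK f) x)
      exact ⟨q, hq.symm⟩
    obtain ⟨q, hq⟩ := hbc (z * β ^ 2)
    have hq2 : AdjoinRoot.mk (tk v.Completion (f.map i)) q =
        AdjoinRoot.mk (tk v.Completion (f.map i)) (tk v.Completion p) := by
      rw [← pr_mk hd q, ← hq, ← hp', map_mul, map_pow, map_mul, map_pow, pow_two]
    rw [hq, ← map_one (AdjoinRoot.mk ((fK f).map j)), ← map_add, AdjoinRoot.mk_eq_mk, hLD.map f]
    rw [AdjoinRoot.mk_eq_mk] at hq2
    have h12 : q - (1 + C (algebraMap O v.Completion (i P.1)) * tk v.Completion c') =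
        (q - tk v.Completion p) + tk v.Completion (f.map i) * tk v.Completion r' := by
      have h13 : tk v.Completion p = 1 + tk v.Completion (f.map i) * tk v.Completion r' +
          C (algebraMap O v.Completion (i P.1)) * tk v.Completion c' := by
        have h14 : p = 1 + f.map i * r' + C (i P.1) * c' := by
          rw [← hc']; ring
        conv_lhs => rw [h14]
        simp only [tk, Polynomial.map_add, Polynomial.map_mul, Polynomial.map_C,
          Polynomial.map_one]
      rw [h13]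
      ring
    rw [h12]
    exact dvd_add hq2 (dvd_mul_right _ _)

end Pool.Agent.Helper54.HL
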