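import Pool.Agent.Helper54.HL.St
import Pool.Agent.Helper47.BSD.Compl
import Pool.Agent.Helper47.BSD.AV

/-!
# HY, local part: the valuation ring of the completion (module LD0)
-/

set_option autoImplicit false

namespace Pool.Agent.Helper54.HL

open Polynomial IsDedekindDomain
open Pool.Agent.Helper54.PT (Prm IsAbsP ordK)
open Pool.Agent.Helper3.HY
open Pool.Agent.Helper47.BSD (rf rf_ne_zero exists_rf_decomp norm_algebraMap ultra_completion
  exists_abs_eq exists_charP)

section aux_LD0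

variable {F : Type} [Field F] {P : Prm F} {v : AbsoluteValue (RatFunc F) ℝ}

private lemma v_rf_LD0 (hP : IsAbsP P v) {g : F[X]} (hg : g ≠ 0) :
    v (rf g) = (2 : ℝ) ^ (-(multiplicity P.1 g : ℤ)) := by
  rw [hP _ (rf_ne_zero hg), ordK, rf, RatFunc.num_algebraMap, RatFunc.denom_algebraMap,
    multiplicity_eq_zero.2 (fun h => P.2.2.not_isUnit (isUnit_of_dvd_one h))]
  simp

private lemma v_rf_le_LD0 (hP : IsAbsP P v) (g : F[X]) : v (rf g) ≤ 1 := by
  by_cases hg : g = 0
  · subst hg; rw [rf, map_zero, map_zero]; norm_num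
  rw [v_rf_LD0 hP hg]
  exact zpow_le_one_of_nonpos₀ (by norm_num) (by simp)

private lemma v_rf_one_LD0 (hP : IsAbsP P v) {g : F[X]} (hg : ¬ P.1 ∣ g) : v (rf g) = 1 := by
  have h0 : g ≠ 0 := by rintro rfl; exact hg (dvd_zero _)
  rw [v_rf_LD0 hP h0, multiplicity_eq_zero.2 hg]
  simp

private lemma v_rf_lt_LD0 (hP : IsAbsP P v) {g : F[X]} (h : v (rf g) < 1) : P.1 ∣ g := by
  by_contra hg
  rw [v_rf_one_LD0 hP hg] at h
  exact lt_irrefl _ h

private lemma v_P_LD0 (hP : IsAbsP P v) : v (rf P.1) = 1 / 2 := by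
  rw [v_rf_LD0 hP P.2.2.ne_zero, multiplicity_self]
  norm_num

/-- Approximation of an integral rational function by a polynomial. -/
private lemma approx_LD0 (hP : IsAbsP P v) {x : RatFunc F} (hx : v x ≤ 1) (n : ℕ) :
    ∃ a : F[X], v (x - rf a) ≤ (1 / 2) ^ n := by
  by_cases hx0 : x = 0
  · refine ⟨0, ?_⟩
    subst hx0
    rw [rf, map_zero, sub_zero, map_zero]
    positivity
  obtain ⟨m, b, d, hb, hd, hxe⟩ := exists_rf_decomp P.2.2 hx0
  have hvx : v x = (1 / 2 : ℝ) ^ m := by
    rw [hxe, map_div₀, map_mul, map_zpow₀, v_P_LD0 hP, v_rf_one_LD0 hP hb, v_rf_one_LD0 hP hd]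
    ring
  have hm : 0 ≤ m := by
    by_contra hm
    have h1 : (1 : ℝ) < (1 / 2 : ℝ) ^ m := by
      rw [one_div, inv_zpow', ← zpow_zero (2 : ℝ)]
      exact zpow_lt_zpow_right₀ (by norm_num) (by omega)
    rw [hvx] at hx
    exact absurd hx (not_le.2 h1)
  obtain ⟨k, rfl⟩ := Int.eq_ofNat_of_zero_le hm
  have hco : IsCoprime (P.1 ^ n) d :=
    ((Irreducible.coprime_iff_not_dvd P.2.2).2 hd).pow_left
  obtain ⟨w, u, hwu⟩ := hco
  refine ⟨P.1 ^ k * b * u, ?_⟩
  have hd0 : rf d ≠ 0 := rf_ne_zero (by rintro rfl; exact hd (dvd_zero _))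
  have h1 : rf w * rf P.1 ^ n + rf u * rf d = 1 := by
    have := congrArg rf hwu
    simpa [rf] using this
  have h2 : x - rf (P.1 ^ k * b * u) =
      rf P.1 ^ n * (rf P.1 ^ k * rf b * rf w) / rf d := by
    rw [hxe]
    simp only [rf, map_mul, map_pow, zpow_natCast]
    rw [eq_div_iff hd0, sub_mul, div_mul_cancel₀ _ hd0]
    linear_combination (-(rf P.1 ^ k * rf b)) * h1
  rw [h2, map_div₀, map_mul, map_pow, v_P_LD0 hP, v_rf_one_LD0 hP hd, div_one]
  have h3 : v (rf P.1 ^ k * rf b * rf w) ≤ 1 := by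
    have : rf P.1 ^ k * rf b * rf w = rf (P.1 ^ k * b * w) := by simp [rf]
    rw [this]
    exact v_rf_le_LD0 hP _
  exact mul_le_of_le_one_right (by positivity) h3

end aux_LD0

theorem hLD0 : StLD0 := by
  intro F _ _ P v hv hP
  obtain ⟨p, hp, hchar⟩ := exists_charP (F := F)
  haveI hu : IsUltrametricDist v.Completion := ultra_completion v p hp
  -- the norms of the completion
  have hnorm : ∀ a : v.Completion, a ≠ 0 → ∃ n : ℤ, ‖a‖ = (2 : ℝ) ^ n := by
    intro a ha
    obtain ⟨y, hy0, hy⟩ := exists_abs_eq v p hp a ha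
    exact ⟨-ordK P y, by rw [← hy, hP y hy0]⟩
  -- the valuation ring
  let O : ValuationSubring v.Completion :=
    { carrier := {x | ‖x‖ ≤ 1}
      mul_mem' := fun {a b} ha hb => by
        change ‖a * b‖ ≤ 1
        rw [norm_mul]
        exact mul_le_one₀ ha (norm_nonneg _) hb
      one_mem' := by change ‖(1 : v.Completion)‖ ≤ 1; rw [norm_one]
      add_mem' := fun {a b} ha hb =>
        (IsUltrametricDist.norm_add_le_max a b).trans (max_le ha hb)
      zero_mem' := by change ‖(0 : v.Completion)‖ ≤ 1; rw [norm_zero]; norm_num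
      neg_mem' := fun {a} ha => by change ‖-a‖ ≤ 1; rw [norm_neg]; exact ha
      mem_or_inv_mem' := fun a => by
        change ‖a‖ ≤ 1 ∨ ‖a⁻¹‖ ≤ 1
        rcases le_total ‖a‖ 1 with h | h
        · exact Or.inl h
        · right; rw [norm_inv]; exact inv_le_one_of_one_le₀ h }
  have hO : ∀ x : v.Completion, x ∈ O ↔ ‖x‖ ≤ 1 := fun x => Iff.rfl
  let j : RatFunc F →+* v.Completion := algebraMap (RatFunc F) v.Completion
  have hj : ∀ x : RatFunc F, ‖j x‖ = v x := norm_algebraMap v
  let i : F[X] →+* O := (j.comp (algebraMap F[X] (RatFunc F))).codRestrict O.toSubring fun a => by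
    change ‖j (rf a)‖ ≤ 1
    rw [hj]; exact v_rf_le_LD0 hP a
  have hi : ∀ a : F[X], ((i a : O) : v.Completion) = j (rf a) := fun a => rfl
  -- units and divisibility
  have hunit : ∀ c : O, ‖(c : v.Completion)‖ = 1 → IsUnit c := by
    intro c hc
    have hc0 : (c : v.Completion) ≠ 0 := by
      intro h; rw [h, norm_zero] at hc; norm_num at hc
    refine IsUnit.of_mul_eq_one ⟨(c : v.Completion)⁻¹, ?_⟩ ?_
    · rw [hO, norm_inv, hc, inv_one]
    · apply Subtype.ext
      exact mul_inv_cancel₀ hc0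
  have hunit' : ∀ c : O, IsUnit c → ‖(c : v.Completion)‖ = 1 := by
    intro c hc
    obtain ⟨c', hc'⟩ := hc.exists_right_inv
    have h1 : ‖(c : v.Completion)‖ * ‖(c' : v.Completion)‖ = 1 := by
      rw [← norm_mul]
      have := congrArg (fun z : O => ‖(z : v.Completion)‖) hc'
      simpa using this
    have h2 := c.2; have h3 := c'.2
    rw [hO] at h2 h3
    have h4 : 0 ≤ ‖(c : v.Completion)‖ := norm_nonneg _
    nlinarith [norm_nonneg (c' : v.Completion)]
  have hPn : ‖((i P.1 : O) : v.Completion)‖ = 1 / 2 := by rw [hi, hj, v_P_LD0 hP]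
  have hP0 : ((i P.1 : O) : v.Completion) ≠ 0 := by
    intro h; rw [h, norm_zero] at hPn; norm_num at hPn
  have hdvd : ∀ (n : ℕ) (c : O), ‖(c : v.Completion)‖ ≤ (1 / 2 : ℝ) ^ n → i P.1 ^ n ∣ c := by
    intro n c hc
    refine ⟨⟨(c : v.Completion) / ((i P.1 : O) : v.Completion) ^ n, ?_⟩, ?_⟩
    · rw [hO, norm_div, norm_pow, hPn]
      exact div_le_one_of_le₀ hc (by positivity)
    · apply Subtype.ext
      change (c : v.Completion) = ((i P.1 : O) : v.Completion) ^ n *
        ((c : v.Completion) / ((i P.1 : O) : v.Completion) ^ n)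
      rw [mul_div_cancel₀ _ (pow_ne_zero n hP0)]
  have hlt : ∀ c : O, ‖(c : v.Completion)‖ < 1 → i P.1 ∣ c := by
    intro c hc
    by_cases hc0 : (c : v.Completion) = 0
    · have : c = 0 := Subtype.ext hc0
      rw [this]; exact dvd_zero _
    have h1 : ‖(c : v.Completion)‖ ≤ (1 / 2 : ℝ) ^ 1 := by
      obtain ⟨n, hn⟩ := hnorm _ hc0
      rw [hn] at hc ⊢
      have h2 : n < 0 := by
        by_contra h
        exact absurd hc (not_lt.2 (one_le_zpow₀ (by norm_num) (not_lt.1 h)))
      have h3 : (2 : ℝ) ^ n ≤ 2 ^ (-1 : ℤ) := zpow_le_zpow_right₀ (by norm_num) (by omega)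
      refine h3.trans (by norm_num)
    have := hdvd 1 c h1
    rwa [pow_one] at this
  have hirr : Irreducible (i P.1) := by
    constructor
    · intro h
      have := hunit' _ h
      rw [hPn] at this; norm_num at this
    · intro a b hab
      by_contra hcon
      push Not at hcon
      have ha : ‖(a : v.Completion)‖ < 1 := lt_of_le_of_ne a.2 fun h => hcon.1 (hunit a h)
      have hb : ‖(b : v.Completion)‖ < 1 := lt_of_le_of_ne b.2 fun h => hcon.2 (hunit b h)
      obtain ⟨a', rfl⟩ := hlt a ha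
      obtain ⟨b', rfl⟩ := hlt b hb
      have h1 : (1 / 2 : ℝ) = 1 / 2 * ‖(a' : v.Completion)‖ * (1 / 2 * ‖(b' : v.Completion)‖) := by
        have := congrArg (fun z : O => ‖(z : v.Completion)‖) hab
        simpa [hPn] using this
      have h2 := a'.2; have h3 := b'.2
      rw [hO] at h2 h3
      nlinarith [norm_nonneg (a' : v.Completion), norm_nonneg (b' : v.Completion)]
  have hfac : ∀ {x : O}, x ≠ 0 → ∃ n : ℕ, Associated (i P.1 ^ n) x := by
    intro x hx
    have hx0 : (x : v.Completion) ≠ 0 := fun h => hx (Subtype.ext h)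
    obtain ⟨n, hn⟩ := hnorm _ hx0
    have hx1 : ‖(x : v.Completion)‖ ≤ 1 := x.2
    have hn0 : n ≤ 0 := by
      by_contra h
      rw [hn] at hx1
      exact absurd hx1 (not_le.2 (one_lt_zpow₀ (by norm_num) (by omega)))
    obtain ⟨k, hk⟩ := Int.eq_ofNat_of_zero_le (show 0 ≤ -n by omega)
    have hxk : ‖(x : v.Completion)‖ = (1 / 2 : ℝ) ^ k := by
      rw [hn, show n = -(k : ℤ) by omega, zpow_neg, zpow_natCast]
      rw [one_div, inv_pow]
    obtain ⟨u, hu⟩ := hdvd k x hxk.le
    refine ⟨k, ?_⟩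
    have hu1 : ‖(u : v.Completion)‖ = 1 := by
      have h1 : (1 / 2 : ℝ) ^ k = (1 / 2) ^ k * ‖(u : v.Completion)‖ := by
        rw [← hxk]
        have := congrArg (fun z : O => ‖(z : v.Completion)‖) hu
        simpa [hPn, hxk] using this
      have h2 : (1 / 2 : ℝ) ^ k ≠ 0 := by positivity
      exact (mul_right_eq_self₀.1 h1.symm).resolve_right h2
    obtain ⟨u', hu'⟩ := hunit u hu1
    exact ⟨u', by rw [hu', ← hu]⟩
  haveI hdvr : IsDiscreteValuationRing O :=
    IsDiscreteValuationRing.ofHasUnitMulPowIrreducibleFactorization ⟨i P.1, hirr, hfac⟩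
  -- density
  have hdense : ∀ (c : O) (n : ℕ), ∃ a : F[X], i P.1 ^ n ∣ c - i a := by
    intro c n
    obtain ⟨y, hy⟩ := Metric.denseRange_iff.1
      (UniformSpace.Completion.denseRange_coe (α := WithAbs v)) (c : v.Completion)
      ((1 / 2 : ℝ) ^ n) (by positivity)
    have hy' : ‖(c : v.Completion) - j y.ofAbs‖ < (1 / 2) ^ n := by
      rw [dist_eq_norm] at hy
      exact hy
    have h1 : v y.ofAbs ≤ 1 := by
      rw [← hj]
      have h2 : j y.ofAbs = (c : v.Completion) + -((c : v.Completion) - j y.ofAbs) := by ring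
      rw [h2]
      refine (IsUltrametricDist.norm_add_le_max _ _).trans (max_le c.2 ?_)
      rw [norm_neg]
      exact hy'.le.trans (pow_le_one₀ (by norm_num) (by norm_num))
    obtain ⟨a, ha⟩ := approx_LD0 hP h1 n
    refine ⟨a, hdvd n _ ?_⟩
    have h3 : ((c - i a : O) : v.Completion) =
        ((c : v.Completion) - j y.ofAbs) + j (y.ofAbs - rf a) := by
      rw [map_sub]
      change (c : v.Completion) - j (rf a) = _
      ring
    rw [h3]
    refine (IsUltrametricDist.norm_add_le_max _ _).trans (max_le hy'.le ?_)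
    rw [hj]; exact ha
  -- residue map
  have hker : ∀ a : F[X], i P.1 ∣ i a → P.1 ∣ a := by
    intro a ha
    apply v_rf_lt_LD0 hP
    rw [← hj, ← hi]
    obtain ⟨b, hb⟩ := ha
    rw [hb]
    have h1 : ‖((i P.1 * b : O) : v.Completion)‖ = 1 / 2 * ‖(b : v.Completion)‖ := by
      rw [← hPn, ← norm_mul]; rfl
    rw [h1]
    have h2 := b.2
    rw [hO] at h2
    linarith
  let J : Ideal O := Ideal.span {i P.1}
  have hJ : ∀ c : O, Ideal.Quotient.mk J c = 0 ↔ i P.1 ∣ c := fun c => by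
    rw [Ideal.Quotient.eq_zero_iff_mem, Ideal.mem_span_singleton]
  have hnt : Nontrivial (O ⧸ J) := by
    refine ⟨1, 0, fun h => ?_⟩
    rw [← map_one (Ideal.Quotient.mk J), hJ] at h
    exact hirr.not_isUnit (isUnit_of_dvd_one h)
  let ψ : kp P →+* (O ⧸ J) := Ideal.Quotient.lift (Ideal.span {P.1}) ((Ideal.Quotient.mk J).comp i)
    (fun a ha => by
      rw [Ideal.mem_span_singleton] at ha
      obtain ⟨b, rfl⟩ := ha
      rw [RingHom.comp_apply, hJ, map_mul]
      exact dvd_mul_right _ _)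
  have hψ : ∀ a : F[X], ψ (red P a) = Ideal.Quotient.mk J (i a) := fun a => rfl
  have hbij : Function.Bijective ψ := by
    refine ⟨ψ.injective, fun y => ?_⟩
    obtain ⟨c, rfl⟩ := Ideal.Quotient.mk_surjective y
    obtain ⟨a, ha⟩ := hdense c 1
    rw [pow_one] at ha
    refine ⟨red P a, ?_⟩
    rw [hψ, eq_comm, ← sub_eq_zero, ← map_sub, hJ]
    exact ha
  let e : kp P ≃+* (O ⧸ J) := RingEquiv.ofBijective ψ hbij
  let ρ : O →+* kp P := (e.symm : (O ⧸ J) →+* kp P).comp (Ideal.Quotient.mk J)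
  have hρ : ∀ c : O, ρ c = e.symm (Ideal.Quotient.mk J c) := fun c => rfl
  refine ⟨O, inferInstance, inferInstance, hdvr, inferInstance, inferInstance, i, ρ, ?_, ?_⟩
  · refine ⟨fun a => rfl, hirr, ?_, ?_, hdense⟩
    · intro a
      rw [hρ, RingEquiv.symm_apply_eq]
      exact (hψ a).symm
    · intro c
      rw [hρ, RingEquiv.map_eq_zero_iff, hJ]
  · intro x
    constructor
    · intro hx
      exact ⟨⟨x, hx⟩, rfl⟩
    · rintro ⟨c, rfl⟩
      exact c.2

end Pool.Agent.Helper54.HL
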