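import Pool.Agent.Helper54.HL.St
import Pool.Agent.Helper47.BSD.Compl
import Pool.Agent.Helper47.BSD.AV

/-!
# HY, local part: assembly of the local data (module LDA)
-/

set_option autoImplicit false

namespace Pool.Agent.Helper54.HL

open Polynomial IsDedekindDomain
open Pool.Agent.Helper54.PT (Prm IsAbsP)
open Pool.Agent.Helper3.HY
open Pool.Agent.Helper47.BSD (ultra_completion exists_charP nontrivNormed)

theorem hLDA (h0 : StLD0) (h1 : StLDI) (h2 : StLDP) (h3 : StLDR) : StLD := by
  intro F _ _ P v hv hP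
  obtain ⟨O, _, _, _, _, _, i, ρ, hLD, hO⟩ := h0 F P v hv hP
  obtain ⟨p, hp, hchar⟩ := exists_charP (F := F)
  haveI := hchar
  haveI hu : IsUltrametricDist v.Completion := ultra_completion v p hp
  letI : NontriviallyNormedField v.Completion := nontrivNormed v hv
  refine ⟨O, inferInstance, inferInstance, inferInstance, inferInstance, inferInstance, i, ρ, hLD,
    ?_, ?_⟩
  · exact h3 O v.Completion (kp P) hO (i P.1) hLD.unif ρ hLD.surj hLD.ker
  · intro U hU hirr
    rcases h1 O v.Completion hO (i P.1) hLD.unif U hU hirr with ⟨U₀, hU₀, rfl⟩ | h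
    · left
      obtain ⟨ψ, n, hψ⟩ := h2 O v.Completion (kp P) hO (i P.1) hLD.unif ρ hLD.surj hLD.ker U₀ hU₀
        hirr
      exact ⟨U₀, hU₀, rfl, ψ, n, hψ⟩
    · exact Or.inr h

end Pool.Agent.Helper54.HL
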