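import Pool.Agent.Helper54.HL.St

/-!
# HY, local part: module LDI, irreducible polynomials over a complete field
-/

set_option autoImplicit false

namespace Pool.Agent.Helper54.HL

open Polynomial IsDedekindDomain
open Pool.Agent.Helper54.PT (Prm IsAbsP)
open Pool.Agent.Helper3.HY

/-- The coefficients of an irreducible polynomial are bounded by the constant coefficient. -/
theorem coeff_le_LDI {k : Type} [NontriviallyNormedField k] [IsUltrametricDist k]
    [CompleteSpace k] {U : k[X]} (hU : U.Monic) (hirr : Irreducible U) :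
    spectralValue U = ‖U.coeff 0‖ ^ (1 / U.natDegree : ℝ) := by
  have := Fact.mk hirr
  have hmin : minpoly k (AdjoinRoot.root U) = U := by
    rw [AdjoinRoot.minpoly_root hirr.ne_zero, hU.leadingCoeff, inv_one, C_1, mul_one]
  have hfin : FiniteDimensional k (AdjoinRoot U) := hU.finite_adjoinRoot
  have h := spectralNorm.spectralNorm_eq_norm_coeff_zero_rpow k (AdjoinRoot U)
    (AdjoinRoot.root U)
  rw [spectralNorm, hmin] at h
  exact h

/-- An element of norm less than one is divisible by the uniformizer. -/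
theorem small_LDI {O k : Type} [CommRing O] [IsDomain O] [IsDiscreteValuationRing O]
    [NontriviallyNormedField k] [Algebra O k]
    (hO : ∀ x : k, ‖x‖ ≤ 1 ↔ ∃ c : O, algebraMap O k c = x) {π : O} (hπ : Irreducible π) {x : k}
    (hx : ‖x‖ < 1) : ∃ c : O, x = algebraMap O k (π * c) := by
  obtain ⟨c, hc⟩ := (hO x).1 hx.le
  have hnu : ¬ IsUnit c := by
    rintro ⟨u, rfl⟩
    have h1 : ‖algebraMap O k ((u⁻¹ : Oˣ) : O)‖ ≤ 1 := (hO _).2 ⟨_, rfl⟩
    have h2 : algebraMap O k (u : O) * algebraMap O k ((u⁻¹ : Oˣ) : O) = 1 := by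
      rw [← map_mul, Units.mul_inv, map_one]
    have h3 : ‖algebraMap O k (u : O)‖ * ‖algebraMap O k ((u⁻¹ : Oˣ) : O)‖ = 1 := by
      rw [← norm_mul, h2, norm_one]
    rw [hc] at h3
    have h4 := norm_nonneg x
    nlinarith
  have h5 : c ∈ IsLocalRing.maximalIdeal O := (IsLocalRing.mem_maximalIdeal c).2 hnu
  rw [hπ.maximalIdeal_eq, Ideal.mem_span_singleton] at h5
  obtain ⟨d, rfl⟩ := h5
  exact ⟨d, hc.symm⟩

theorem hLDI : StLDI := by
  intro O k _ _ _ _ _ _ _ _ hO π hπ U hU hirr
  have hsp := coeff_le_LDI hU hirr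
  have hm : 0 < U.natDegree := hirr.natDegree_pos
  have hm' : (0 : ℝ) < U.natDegree := by exact_mod_cast hm
  rcases le_or_gt ‖U.coeff 0‖ 1 with h0 | h0
  · left
    have h1 : spectralValue U ≤ 1 := by
      rw [hsp]
      exact Real.rpow_le_one (norm_nonneg _) h0 (by positivity)
    have h2 := (spectralValue_le_one_iff hU).1 h1
    have h3 : U ∈ Polynomial.lifts (algebraMap O k) := by
      rw [Polynomial.lifts_iff_coeff_lifts]
      intro n
      exact (hO _).1 (h2 n)
    obtain ⟨U₀, hU₀, -, hmon⟩ := Polynomial.lifts_and_natDegree_eq_and_monic h3 hU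
    exact ⟨U₀, hmon, hU₀⟩
  · right
    have hne : U.coeff 0 ≠ 0 := by
      intro h
      rw [h, norm_zero] at h0
      linarith
    refine ⟨hne, fun l hl => ?_⟩
    have key : ‖U.coeff l / U.coeff 0‖ < 1 := by
      rw [norm_div, div_lt_one (by linarith)]
      rcases lt_trichotomy l U.natDegree with h | h | h
      · have h4 : spectralValueTerms U l ≤ spectralValue U :=
          le_ciSup (spectralValueTerms_bddAbove U) l
        rw [spectralValueTerms_of_lt_natDegree U h, hsp] at h4
        have hl' : (0 : ℝ) < U.natDegree - l := by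
          have : (l : ℝ) < U.natDegree := by exact_mod_cast h
          linarith
        have h5 : ‖U.coeff l‖ ≤ ‖U.coeff 0‖ ^ ((U.natDegree - l : ℝ) / U.natDegree) := by
          have h6 := Real.rpow_le_rpow (Real.rpow_nonneg (norm_nonneg _) _) h4 hl'.le
          rw [← Real.rpow_mul (norm_nonneg _), ← Real.rpow_mul (norm_nonneg _),
            one_div_mul_cancel hl'.ne', Real.rpow_one] at h6
          rwa [one_div_mul_eq_div] at h6
        refine h5.trans_lt ?_
        have h7 : (U.natDegree - l : ℝ) / U.natDegree < 1 := by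
          rw [div_lt_one hm']
          have : (1 : ℝ) ≤ l := by exact_mod_cast hl
          linarith
        calc ‖U.coeff 0‖ ^ ((U.natDegree - l : ℝ) / U.natDegree) < ‖U.coeff 0‖ ^ (1 : ℝ) :=
              Real.rpow_lt_rpow_of_exponent_lt h0 h7
          _ = ‖U.coeff 0‖ := Real.rpow_one _
      · rw [h, hU.coeff_natDegree, norm_one]
        exact h0
      · rw [coeff_eq_zero_of_natDegree_lt h, norm_zero]
        linarith
    obtain ⟨c, hc⟩ := small_LDI hO hπ key
    refine ⟨c, ?_⟩
    rw [← hc]
    field_simp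

end Pool.Agent.Helper54.HL
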