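import Pool.Agent.Helper54.HL.St

/-!
# HL: the reduction of an irreducible integral polynomial is a power of an irreducible polynomial
-/

set_option autoImplicit false

namespace Pool.Agent.Helper54.HL

open Polynomial IsDedekindDomain

theorem norm_pow_LDP {k M : Type} [Field k] [Field M] [Algebra k M] [FiniteDimensional k M]
    (y : M) : ∃ r d : ℕ, Algebra.norm k y = ((-1) ^ d * (minpoly k y).coeff 0) ^ r := by
  have hx : IsIntegral k y := Algebra.IsIntegral.isIntegral y
  refine ⟨Module.finrank (IntermediateField.adjoin k {y}) M,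
    (IntermediateField.adjoin.powerBasis hx).dim, ?_⟩
  rw [Algebra.norm_eq_norm_adjoin k y]
  congr 1
  have h := Algebra.PowerBasis.norm_gen_eq_coeff_zero_minpoly
    (IntermediateField.adjoin.powerBasis hx)
  rw [IntermediateField.adjoin.powerBasis_gen hx] at h
  rw [h]
  congr 2
  have h2 := minpoly.algebraMap_eq (A := k) (B := IntermediateField.adjoin k {y}) (B' := M)
    (algebraMap (IntermediateField.adjoin k {y}) M).injective
    (IntermediateField.AdjoinSimple.gen k y)
  rw [IntermediateField.AdjoinSimple.algebraMap_gen] at h2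
  exact h2.symm

section spec

variable {k M : Type} [NontriviallyNormedField k] [IsUltrametricDist k] [CompleteSpace k]
  [Field M] [Algebra k M] [FiniteDimensional k M]

theorem spec_lt_LDP (y : M) (h : ‖Algebra.norm k y‖ < 1) : spectralNorm k M y < 1 := by
  by_contra hc
  push Not at hc
  obtain ⟨r, d, hr⟩ := norm_pow_LDP (k := k) y
  rw [hr, norm_pow, norm_mul, norm_pow, norm_neg, norm_one, one_pow, one_mul] at h
  have h1 : 1 ≤ ‖(minpoly k y).coeff 0‖ := by
    by_contra h2
    push Not at h2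
    rw [spectralNorm.spectralNorm_eq_norm_coeff_zero_rpow k M y] at hc
    have hpos : 0 < (minpoly k y).natDegree :=
      minpoly.natDegree_pos (Algebra.IsIntegral.isIntegral y)
    have := Real.rpow_lt_one (norm_nonneg _) h2
      (z := (1 / (minpoly k y).natDegree : ℝ)) (by positivity)
    linarith
  exact absurd h (not_lt.2 (one_le_pow₀ h1))

end spec

/-- (LDP) -/
theorem hLDP (h3 : StNB) : StLDP := by
  classical
  intro O k κ _ _ _ _ _ _ _ _ _ hO π hπ ρ hρs hρk U₀ hU₀ hirr
  haveI : Fact (Irreducible (tk k U₀)) := ⟨hirr⟩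
  have hinj : Function.Injective (algebraMap O k) := IsFractionRing.injective O k
  have hmU : (tk k U₀).Monic := hU₀.map _
  haveI : FiniteDimensional k (AdjoinRoot (tk k U₀)) :=
    (AdjoinRoot.powerBasis hmU.ne_zero).finite
  -- elements of norm < 1
  have hlt : ∀ c : O, ρ c = 0 → ‖algebraMap O k c‖ < 1 := by
    intro c hc
    have h1 : ‖algebraMap O k c‖ ≤ 1 := (hO _).2 ⟨c, rfl⟩
    refine lt_of_le_of_ne h1 fun h2 => ?_
    have h3 : ‖(algebraMap O k c)⁻¹‖ ≤ 1 := by rw [norm_inv, h2, inv_one]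
    obtain ⟨c', hc'⟩ := (hO _).1 h3
    have hc0 : algebraMap O k c ≠ 0 := by
      intro h; rw [h, norm_zero] at h2; exact zero_ne_one h2
    have h4 : c * c' = 1 := by
      apply hinj
      rw [map_mul, hc', map_one, mul_inv_cancel₀ hc0]
    exact hπ.not_isUnit (isUnit_of_dvd_unit ((hρk c).1 hc) (IsUnit.of_mul_eq_one _ h4))
  set M := AdjoinRoot (tk k U₀) with hM
  let s : M → ℝ := spectralNorm k M
  have hs1 : ∀ c : k, s (algebraMap k M c) = ‖c‖ := fun c => spectralNorm_extends c
  have hsadd : ∀ x y : M, s (x + y) ≤ max (s x) (s y) := fun x y =>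
    isNonarchimedean_spectralNorm x y
  have hsmul : ∀ x y : M, s (x * y) = s x * s y := fun x y => spectralAlgNorm_mul x y
  have hs0 : ∀ x : M, 0 ≤ s x := fun x => spectralNorm_nonneg x
  have hroot : s (AdjoinRoot.root (tk k U₀)) ≤ 1 := by
    have h1 : minpoly k (AdjoinRoot.root (tk k U₀)) = tk k U₀ := by
      rw [AdjoinRoot.minpoly_root hmU.ne_zero, hmU.leadingCoeff, inv_one, C_1, mul_one]
    show spectralValue (minpoly k (AdjoinRoot.root (tk k U₀))) ≤ 1
    rw [h1, spectralValue_le_one_iff hmU]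
    intro n
    rw [coeff_map]
    exact (hO _).2 ⟨_, rfl⟩
  have hroot' : ∀ n : ℕ, s (AdjoinRoot.root (tk k U₀) ^ n) ≤ 1 := by
    intro n
    induction n with
    | zero => rw [pow_zero, ← map_one (algebraMap k M), hs1, norm_one]
    | succ n ih =>
      rw [pow_succ, hsmul]
      exact mul_le_one₀ ih (hs0 _) hroot
  have hint : ∀ p : O[X], s (AdjoinRoot.mk (tk k U₀) (tk k p)) ≤ 1 := by
    intro p
    induction p using Polynomial.induction_on' with
    | add p q hp hq =>
      rw [show tk k (p + q) = tk k p + tk k q from Polynomial.map_add _, map_add]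
      exact (hsadd _ _).trans (max_le hp hq)
    | monomial n a =>
      rw [show tk k (monomial n a) = monomial n (algebraMap O k a) from Polynomial.map_monomial _,
        ← C_mul_X_pow_eq_monomial, map_mul, map_pow,
        AdjoinRoot.mk_X, hsmul, AdjoinRoot.mk_C]
      have h1 : s (AdjoinRoot.of (tk k U₀) (algebraMap O k a)) ≤ 1 := by
        have := hs1 (algebraMap O k a)
        rw [AdjoinRoot.algebraMap_eq] at this
        rw [this]
        exact (hO _).2 ⟨_, rfl⟩
      exact mul_le_one₀ h1 (hs0 _) (hroot' n)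
  -- the key step
  have hmUb : (U₀.map ρ).Monic := hU₀.map _
  have key : ∀ (Ψ : O[X]) (ψ' : κ[X]), Ψ.map ρ ∣ U₀.map ρ → ¬ IsUnit (Ψ.map ρ) →
      s (AdjoinRoot.mk (tk k U₀) (tk k Ψ)) < 1 := by
    intro Ψ _ hd hu
    apply spec_lt_LDP
    rw [← h3 O k (algebraMap O k) U₀ Ψ hU₀]
    apply hlt
    rw [h3 O κ ρ U₀ Ψ hU₀]
    obtain ⟨q, hq⟩ := hd
    by_contra hne
    haveI : Module.Free κ (AdjoinRoot (U₀.map ρ)) := hmUb.free_adjoinRoot
    haveI : Module.Finite κ (AdjoinRoot (U₀.map ρ)) := hmUb.finite_adjoinRoot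
    rw [Algebra.norm_apply] at hne
    have hinj' := (LinearMap.equivOfDetNeZero _ hne).injective
    have h5 : AdjoinRoot.mk (U₀.map ρ) q = 0 := by
      apply hinj'
      rw [map_zero]
      show AdjoinRoot.mk (U₀.map ρ) (Ψ.map ρ) * AdjoinRoot.mk (U₀.map ρ) q = 0
      rw [← map_mul, ← hq, AdjoinRoot.mk_self]
    rw [AdjoinRoot.mk_eq_zero] at h5
    obtain ⟨r, hr⟩ := h5
    apply hu
    have h6 : U₀.map ρ * (Ψ.map ρ * r) = U₀.map ρ * 1 := by
      rw [mul_one]
      nth_rewrite 2 [hq]
      rw [hr]; ring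
    have h7 := mul_left_cancel₀ hmUb.ne_zero h6
    exact IsUnit.of_mul_eq_one _ h7
  -- two different factors are impossible
  have two : ∀ ψ₁ ψ₂ : κ[X], ψ₁ ∣ U₀.map ρ → ψ₂ ∣ U₀.map ρ → ¬ IsUnit ψ₁ → ¬ IsUnit ψ₂ →
      ¬ IsCoprime ψ₁ ψ₂ := by
    intro ψ₁ ψ₂ h1 h2 hu1 hu2 hcop
    obtain ⟨Ψ₁, rfl⟩ := Polynomial.map_surjective ρ hρs ψ₁
    obtain ⟨Ψ₂, rfl⟩ := Polynomial.map_surjective ρ hρs ψ₂
    obtain ⟨b₁, b₂, hb⟩ := hcop
    obtain ⟨B₁, rfl⟩ := Polynomial.map_surjective ρ hρs b₁
    obtain ⟨B₂, rfl⟩ := Polynomial.map_surjective ρ hρs b₂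
    have k1 := key Ψ₁ 0 h1 hu1
    have k2 := key Ψ₂ 0 h2 hu2
    -- the difference is divisible by `π`
    have h5 : ∃ c : O[X], B₁ * Ψ₁ + B₂ * Ψ₂ = 1 + C π * c := by
      have h6 : C π ∣ B₁ * Ψ₁ + B₂ * Ψ₂ - 1 := by
        rw [C_dvd_iff_dvd_coeff]
        intro n
        rw [← hρk, ← coeff_map, Polynomial.map_sub, Polynomial.map_add, Polynomial.map_mul,
          Polynomial.map_mul, hb, Polynomial.map_one, sub_self, coeff_zero]
      obtain ⟨c, hc⟩ := h6
      exact ⟨c, by rw [← hc]; ring⟩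
    obtain ⟨c, hc⟩ := h5
    have e1 : (1 : M) = AdjoinRoot.mk (tk k U₀) (tk k B₁) * AdjoinRoot.mk (tk k U₀) (tk k Ψ₁) +
        (AdjoinRoot.mk (tk k U₀) (tk k B₂) * AdjoinRoot.mk (tk k U₀) (tk k Ψ₂) +
          algebraMap k M (algebraMap O k π) * AdjoinRoot.mk (tk k U₀) (tk k (-c))) := by
      have h7 : (1 : O[X]) = B₁ * Ψ₁ + (B₂ * Ψ₂ + C π * (-c)) := by
        rw [← add_assoc, hc]; ring
      have h8 := congrArg (fun p => AdjoinRoot.mk (tk k U₀) (tk k p)) h7
      simp only [tk, Polynomial.map_add, Polynomial.map_mul, map_add, map_mul, Polynomial.map_one,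
        map_one, Polynomial.map_C, AdjoinRoot.mk_C] at h8
      rw [AdjoinRoot.algebraMap_eq]
      exact h8
    have e2 : s (1 : M) < 1 := by
      rw [e1]
      refine (hsadd _ _).trans_lt (max_lt ?_ ((hsadd _ _).trans_lt (max_lt ?_ ?_)))
      · rw [hsmul]; exact mul_lt_one_of_nonneg_of_lt_one_right (hint _) (hs0 _) k1
      · rw [hsmul]; exact mul_lt_one_of_nonneg_of_lt_one_right (hint _) (hs0 _) k2
      · rw [hsmul, hs1]
        exact mul_lt_one_of_nonneg_of_lt_one_left (norm_nonneg _)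
          (hlt π ((hρk π).2 dvd_rfl)) (hint _)
    have e3 : s (1 : M) = 1 := by
      have := hs1 1
      rwa [map_one, norm_one] at this
    rw [e3] at e2
    exact lt_irrefl _ e2
  -- conclusion
  have hdeg : 0 < (U₀.map ρ).natDegree := by
    rw [hU₀.natDegree_map]
    have := hirr.natDegree_pos
    rwa [hU₀.natDegree_map] at this
  have hnu : ¬ IsUnit (U₀.map ρ) := by
    intro h
    rw [natDegree_eq_zero_of_isUnit h] at hdeg
    exact lt_irrefl _ hdeg
  obtain ⟨ψ, hψirr, hψd⟩ := WfDvdMonoid.exists_irreducible_factor hnu hmUb.ne_zero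
  have hψm : (normalize ψ).Monic := Polynomial.monic_normalize hψirr.ne_zero
  have hψi : Irreducible (normalize ψ) := (associated_normalize ψ).irreducible hψirr
  have hψd' : normalize ψ ∣ U₀.map ρ := (normalize_associated ψ).dvd.trans hψd
  have hall : ∀ p ∈ UniqueFactorizationMonoid.normalizedFactors (U₀.map ρ), p = normalize ψ := by
    intro p hp
    have hpi := UniqueFactorizationMonoid.irreducible_of_normalized_factor p hp
    have hpd := UniqueFactorizationMonoid.dvd_of_mem_normalizedFactors hp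
    have hpn := UniqueFactorizationMonoid.normalize_normalized_factor p hp
    have h1 := two (normalize ψ) p hψd' hpd hψi.not_isUnit hpi.not_isUnit
    rw [hψi.coprime_iff_not_dvd, not_not] at h1
    have h2 := hψi.associated_of_dvd hpi h1
    have h3 := normalize_eq_normalize h2.dvd h2.symm.dvd
    rw [hpn, normalize_idem] at h3
    exact h3.symm
  have hrep := Multiset.eq_replicate_of_mem hall
  have hprod : (UniqueFactorizationMonoid.normalizedFactors (U₀.map ρ)).prod = U₀.map ρ := by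
    rw [UniqueFactorizationMonoid.prod_normalizedFactors_eq hmUb.ne_zero]
    exact hmUb.normalize_eq_self
  rw [hrep, Multiset.prod_replicate] at hprod
  refine ⟨normalize ψ, _, hψm, hψi, ?_, hprod.symm⟩
  by_contra h0
  have h0' : Multiset.card (UniqueFactorizationMonoid.normalizedFactors (U₀.map ρ)) = 0 := by
    omega
  rw [h0', pow_zero] at hprod
  exact hnu (hprod ▸ isUnit_one)

end Pool.Agent.Helper54.HL
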