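import Pool.Agent.Helper54.HL.St

/-!
# HY, local part: Hensel's lemma (module LDR)
-/

set_option autoImplicit false

namespace Pool.Agent.Helper54.HL

open Polynomial IsDedekindDomain
open Pool.Agent.Helper54.PT (Prm IsAbsP)
open Pool.Agent.Helper3.HY

section aux_LDR

variable {O : Type} [CommRing O]

/-- simplified Newton iteration -/
private noncomputable def seq_LDR (g : O[X]) (u a : O) : ℕ → O
  | 0 => a
  | n + 1 => seq_LDR g u a n - u * g.eval (seq_LDR g u a n)

private lemma step_LDR (g : O[X]) (x y : O) :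
    ∃ c : O, g.eval (x + y) = g.eval x + g.derivative.eval x * y + c * y ^ 2 := by
  obtain ⟨c, hc⟩ := Polynomial.binomExpansion g x y
  exact ⟨c, hc⟩

private lemma seq_spec_LDR {π : O} {g : O[X]} {u a : O} (h0 : π ∣ g.eval a)
    (hu : π ∣ 1 - u * g.derivative.eval a) (n : ℕ) :
    π ^ (n + 1) ∣ g.eval (seq_LDR g u a n) ∧ π ∣ seq_LDR g u a n - a := by
  induction n with
  | zero =>
    refine ⟨by simpa [seq_LDR] using h0, by simp [seq_LDR]⟩
  | succ n ih =>
    obtain ⟨⟨e, he⟩, hd⟩ := ih
    set x := seq_LDR g u a n with hx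
    have hs : seq_LDR g u a (n + 1) = x - u * g.eval x := rfl
    obtain ⟨c, hc⟩ := step_LDR g x (-(u * g.eval x))
    have h1 : π ∣ 1 - u * g.derivative.eval x := by
      have h2 : x - a ∣ g.derivative.eval x - g.derivative.eval a :=
        Polynomial.sub_dvd_eval_sub x a g.derivative
      have h3 : π ∣ g.derivative.eval x - g.derivative.eval a := hd.trans h2
      have h4 : 1 - u * g.derivative.eval x = (1 - u * g.derivative.eval a) -
          u * (g.derivative.eval x - g.derivative.eval a) := by ring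
      rw [h4]
      exact dvd_sub hu (Dvd.dvd.mul_left h3 u)
    obtain ⟨t, ht⟩ := h1
    constructor
    · rw [hs, sub_eq_add_neg, hc]
      have h5 : g.eval x + g.derivative.eval x * -(u * g.eval x) + c * (-(u * g.eval x)) ^ 2 =
          g.eval x * (1 - u * g.derivative.eval x) + c * u ^ 2 * (g.eval x) ^ 2 := by ring
      rw [h5, ht, he]
      refine dvd_add ⟨e * t, by ring⟩ ⟨c * u ^ 2 * e ^ 2 * π ^ n, by ring⟩
    · rw [hs]
      have h6 : x - u * g.eval x - a = (x - a) - u * g.eval x := by ring
      rw [h6]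
      refine dvd_sub hd (Dvd.dvd.mul_left ?_ u)
      rw [he]
      exact ⟨π ^ n * e, by ring⟩

end aux_LDR

theorem hLDR : StLDR := by
  intro O k κ _ _ _ _ _ _ _ _ _ hO π hπ ρ hρ hker g a hg h0 h1
  have hle : ∀ c : O, ‖algebraMap O k c‖ ≤ 1 := fun c => (hO _).2 ⟨c, rfl⟩
  have hinj : Function.Injective (algebraMap O k) := IsFractionRing.injective O k
  have hπ0 : algebraMap O k π ≠ 0 := by
    intro h
    exact hπ.ne_zero ((map_eq_zero_iff _ hinj).1 h)
  set r : ℝ := ‖algebraMap O k π‖ with hr
  have hr0 : 0 < r := norm_pos_iff.2 hπ0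
  have hr1 : r < 1 := by
    by_contra h
    rw [not_lt] at h
    obtain ⟨c, hc⟩ := (hO (algebraMap O k π)⁻¹).1 (by
      rw [norm_inv]
      exact inv_le_one_of_one_le₀ h)
    apply hπ.not_isUnit
    refine IsUnit.of_mul_eq_one c (hinj ?_)
    rw [map_mul, hc, mul_inv_cancel₀ hπ0, map_one]
  -- the approximate inverse of the derivative
  obtain ⟨u, hu⟩ := hρ (ρ (g.derivative.eval a))⁻¹
  have hu' : π ∣ 1 - u * g.derivative.eval a := by
    rw [← hker, map_sub, map_mul, map_one, hu, inv_mul_cancel₀ h1, sub_self]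
  have h0' : π ∣ g.eval a := (hker _).1 h0
  have hspec := seq_spec_LDR h0' hu'
  set s : ℕ → O := seq_LDR g u a with hs
  set x : ℕ → k := fun n => algebraMap O k (s n) with hx
  have hdvd : ∀ (n : ℕ) (c : O), π ^ n ∣ c → ‖algebraMap O k c‖ ≤ r ^ n := by
    rintro n c ⟨d, rfl⟩
    rw [map_mul, map_pow, norm_mul, norm_pow]
    exact mul_le_of_le_one_right (by positivity) (hle d)
  have hstep : ∀ n, dist (x n) (x (n + 1)) ≤ r * r ^ n := by
    intro n
    rw [dist_eq_norm]
    have h2 : x n - x (n + 1) = algebraMap O k (u * g.eval (s n)) := by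
      have : s (n + 1) = s n - u * g.eval (s n) := rfl
      simp only [hx, this, map_sub]
      ring
    rw [h2]
    have := hdvd (n + 1) _ (Dvd.dvd.mul_left (hspec n).1 u)
    rwa [pow_succ'] at this
  have hcau : CauchySeq x := cauchySeq_of_le_geometric r r hr1 hstep
  obtain ⟨y, hy⟩ := cauchySeq_tendsto_of_complete hcau
  have hy1 : ‖y‖ ≤ 1 := le_of_tendsto hy.norm (Filter.Eventually.of_forall fun n => hle _)
  obtain ⟨b, hb⟩ := (hO y).1 hy1
  refine ⟨b, ?_, ?_⟩
  · -- the limit is a root
    apply hinj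
    have hev : ∀ c : O, algebraMap O k (g.eval c) = (tk k g).eval (algebraMap O k c) := by
      intro c
      rw [tk, Polynomial.eval_map, Polynomial.eval₂_at_apply]
    rw [map_zero, hev, hb]
    have h4 : Filter.Tendsto (fun n => (tk k g).eval (x n)) Filter.atTop
        (nhds ((tk k g).eval y)) := ((tk k g).continuous.tendsto y).comp hy
    have h5 : Filter.Tendsto (fun n => (tk k g).eval (x n)) Filter.atTop (nhds 0) := by
      rw [tendsto_zero_iff_norm_tendsto_zero]
      refine squeeze_zero (fun n => norm_nonneg _) (fun n => ?_)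
        ((tendsto_pow_atTop_nhds_zero_of_lt_one hr0.le hr1).comp (Filter.tendsto_add_atTop_nat 1))
      have h6 := hdvd (n + 1) _ (hspec n).1
      rw [hev] at h6
      exact h6
    exact tendsto_nhds_unique h4 h5
  · have h3 : ‖y - x 0‖ ≤ r := by
      have h4 : Filter.Tendsto (fun n => x n - x 0) Filter.atTop (nhds (y - x 0)) :=
        hy.sub_const _
      refine le_of_tendsto h4.norm (Filter.Eventually.of_forall fun n => ?_)
      have h5 : x n - x 0 = algebraMap O k (s n - a) := by
        simp only [hx, map_sub]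
        rfl
      rw [h5]
      have := hdvd 1 (s n - a) (by rw [pow_one]; exact (hspec n).2)
      rwa [pow_one] at this
    obtain ⟨c, hc⟩ := (hO ((y - x 0) * (algebraMap O k π)⁻¹)).1 (by
      rw [norm_mul, norm_inv, ← div_eq_mul_inv]
      exact div_le_one_of_le₀ h3 hr0.le)
    have h6 : b - a = c * π := by
      apply hinj
      rw [map_mul, hc, inv_mul_cancel_right₀ hπ0, map_sub, hb]
      rfl
    have h7 : ρ (b - a) = 0 := (hker _).2 ⟨c, by rw [h6, mul_comm]⟩
    rw [map_sub] at h7
    exact sub_eq_zero.1 h7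

end Pool.Agent.Helper54.HL
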