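import Pool.Agent.Helper54.HL.St

/-!
# HY, local part: module LP, all points at a ramified twist
-/

set_option autoImplicit false

namespace Pool.Agent.Helper54.HL

open Polynomial IsDedekindDomain
open Pool.Agent.Helper54.PT (Prm IsAbsP)
open Pool.Agent.Helper3.HY

/-- A square of a constant times an element near one. -/
theorem big_LP {O k κ : Type} [CommRing O] [Field k] [Algebra O k] [Field κ] {π : O}
    {ρ : O →+* κ} (hρ : ρ π = 0) {g₂ : O[X]} (hR : RepA k π ρ g₂) (hirr : Irreducible (g₂.map ρ))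
    {h : k[X]} (hd : tk k g₂ ∣ h) {c : k} (hc : c ≠ 0) {w : AdjoinRoot h} (hw : Nr π w) (a : κ) :
    LinePt π ρ g₂ a (pr hd (algebraMap k (AdjoinRoot h) c ^ 2 * w)) := by
  have := Fact.mk hR.irr
  have := Fact.mk hirr
  obtain ⟨p, hp⟩ := hw
  -- the constant
  have hz0 : AdjoinRoot.of (tk k g₂) c ≠ 0 := by
    rw [Ne, map_eq_zero]
    exact hc
  obtain ⟨e, s, hes⟩ := hR.ex _ hz0
  have e1 : pr hd (algebraMap k (AdjoinRoot h) c) = AdjoinRoot.of (tk k g₂) c :=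
    pr_mk hd (C c)
  -- the element near one
  have hmap : (1 + C π * p).map ρ = 1 := by
    rw [Polynomial.map_add, Polynomial.map_one, Polynomial.map_mul, Polynomial.map_C, hρ, C_0,
      zero_mul, add_zero]
  have e2 : pr hd w = AdjoinRoot.mk (tk k g₂) (tk k (1 + C π * p)) := by
    have e4 : tk k (1 + C π * p) = 1 + C (algebraMap O k π) * tk k p := by
      rw [tk, Polynomial.map_add, Polynomial.map_one, Polynomial.map_mul, Polynomial.map_C]
    have e3 : w = AdjoinRoot.mk h (tk k (1 + C π * p)) := by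
      rw [hp, e4, map_add, map_one]
    rw [e3, pr_mk]
  have hint := hR.int (1 + C π * p) (by
    rw [hmap, map_one]
    exact one_ne_zero)
  rw [hmap, map_one, ← e2] at hint
  have h1 := hR.mul _ _ _ _ _ _ hes hes
  have h2 := hR.mul _ _ _ _ _ _ h1 hint
  refine ⟨e + e + 0, s * s * 1, ?_, Or.inl ⟨?_, ?_⟩⟩
  · rw [map_mul, map_pow, e1, pow_two]
    exact h2
  · rw [add_zero]
    exact ⟨e, rfl⟩
  · rw [mul_one]
    exact ⟨s, rfl⟩

theorem hLP (h1 : StLA) (h2 : StLB) (h3 : StLC) (h4 : StBG) (h5 : StRA) : StLP := by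
  intro O k κ _ _ _ _ _ _ _ _ π ρ hπ hsurj hker h20 hUV g θ g₂ hg hg₂ hirr hdeg h hh hd D' hD' y
    hy
  obtain ⟨U, V, hU, hUirr, hcop, hdvd, rfl⟩ := hy
  rcases hUV U hU hUirr with hint | hbig
  · obtain ⟨U₀, hU₀, rfl, ψ, n, hψ, hψirr, hn, hmap⟩ := hint
    by_cases ha : ψ = X - C (ρ θ)
    · exact h2 O k κ π ρ hπ hsurj hker h20 g θ g₂ hg hg₂ hirr hdeg h hh hd D' hD' U₀ V ψ n hU₀
        hUirr hcop hdvd hψ hψirr hn hmap ha
    · by_cases hb : ψ = g₂.map ρ
      · exact h3 O k κ π ρ hπ hsurj hker h20 g θ g₂ hg hg₂ hirr hdeg h hh hd D' hD' U₀ V ψ n hU₀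
          hUirr hcop hdvd hψ hψirr hn hmap hb
      · exact h1 O k κ π ρ hπ hsurj hker h20 g θ g₂ hg hg₂ hirr hdeg h hh hd D' hD' U₀ V ψ n hU₀
          hUirr hcop hdvd hψ hψirr hn hmap ⟨ha, hb⟩
  · have hmon : ((X - C θ) * g₂).Monic := (monic_X_sub_C θ).mul hg₂
    have hodd : Odd ((X - C θ) * g₂).natDegree := by
      rw [(monic_X_sub_C θ).natDegree_mul hg₂, natDegree_X_sub_C, hdeg]
      exact ⟨g, by ring⟩
    have hD0 : algebraMap O k (π * D') ≠ 0 := by
      have : π * D' ≠ 0 := mul_ne_zero hπ.ne_zero hD'.ne_zero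
      rwa [Ne, FaithfulSMul.algebraMap_eq_zero_iff]
    obtain ⟨c, w, hc, hw, hcw⟩ := h4 O k π hπ ((X - C θ) * g₂) hmon hodd h hh _ hD0 U V hU hbig
      hcop hdvd
    rw [hcw]
    exact big_LP ((hker π).2 dvd_rfl) (h5 O k κ π ρ hπ hsurj hker g₂ hg₂ hirr) hirr hd hc hw (ρ θ)

end Pool.Agent.Helper54.HL
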