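import Pool.Agent.Helper54.HL.St

/-!
# HL module Line (helper72)
-/

set_option autoImplicit false

namespace Pool.Agent.Helper54.HL

open Polynomial IsDedekindDomain
open Pool.Agent.Helper54.PT (Prm IsAbsP)
open Pool.Agent.Helper3.HY

private lemma exp_sq_Line (e : ℤ) : IsSquare (WithZero.exp (-e)) ↔ Even e := by
  constructor
  · rintro ⟨x, hx⟩
    have hx0 : x ≠ 0 := by
      rintro rfl
      rw [mul_zero] at hx
      exact WithZero.exp_ne_zero hx
    have h1 := congrArg WithZero.log hx
    rw [WithZero.log_exp, WithZero.log_mul hx0 hx0] at h1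
    exact ⟨-WithZero.log x, by omega⟩
  · rintro ⟨n, rfl⟩
    exact ⟨WithZero.exp (-n), by rw [← WithZero.exp_add]; congr 1; ring⟩

private lemma sq_congr_Line {κ : Type} [Field κ] {p p' x x' : κ[X]} (h : p = p') (hx : x = x') :
    IsSquare (AdjoinRoot.mk p x) ↔ IsSquare (AdjoinRoot.mk p' x') := by
  subst h; subst hx; rfl

private lemma zmod_Line : ∀ a : ZMod 2, a = 0 ∨ a = 1 := by decide

private lemma zmod2_Line : ∀ a : ZMod 2, a + a = 0 := by decide

theorem hLine (h1 : StLD) (h2 : StIN) (h3 : StLP) (h4 : StCM) (h4' : StCV) (h5 : StNV)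
    (h6 : StDE) (h7 : StNG) (h8 : StHom) (h9 : StFA) (h10 : StQP) (h11 : StRA) : StLine := by
  classical
  intro F _ _ h2F g hg f hf hfN _ _ _ P hT q hq
  obtain ⟨a, p, hpm, hpi, hpd, hfa⟩ := id hT
  refine ⟨if IsSquare (AdjoinRoot.mk p (X - C a)) then 0 else 1, ?_⟩
  set η : ZMod 2 := if IsSquare (AdjoinRoot.mk p (X - C a)) then 0 else 1 with hη
  intro D hD v hv hPv z hz
  obtain ⟨O, _, _, _, _, _, i, ρ, hLD, hRL, hIrr⟩ := h1 F P v hv hPv
  set j : RatFunc F →+* v.Completion := algebraMap (RatFunc F) v.Completion with hj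
  have hpa : p.eval a ≠ 0 := by
    intro h
    have h12 := Polynomial.degree_eq_one_of_irreducible_of_root hpi h
    rw [degree_eq_natDegree hpi.ne_zero, hpd] at h12
    have h13 : 2 * g = 1 := by exact_mod_cast h12
    omega
  obtain ⟨θ, g₂, hg2m, hθ, hfac, hg2⟩ := h9 O (kp P) ρ hLD.surj hRL (f.map i) a p (hf.map i) hpm hpa
    (by rw [hLD.map_red, hfa])
  have hmap : (fK f).map j = tk v.Completion ((X - C θ) * g₂) := by
    rw [hLD.map f, hfac]
  have hd : tk v.Completion g₂ ∣ (fK f).map j := by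
    rw [hmap, show tk v.Completion ((X - C θ) * g₂) = tk v.Completion (X - C θ) *
      tk v.Completion g₂ from Polynomial.map_mul _]
    exact Dvd.intro_left _ rfl
  have hρunit : ∀ c : O, ρ c ≠ 0 → IsUnit c := by
    intro c hc
    by_contra hcu
    apply hc
    rw [hLD.ker]
    have h12 : c ∈ IsLocalRing.maximalIdeal O := (IsLocalRing.mem_maximalIdeal c).2 hcu
    rw [(IsDiscreteValuationRing.irreducible_iff_uniformizer _).1 hLD.unif,
      Ideal.mem_span_singleton] at h12
    exact h12
  have hiD : IsUnit (i D) := by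
    apply hρunit
    rw [hLD.rho]
    intro h
    exact hD (AdjoinRoot.mk_eq_zero.1 h)
  have hDv : j (algebraMap F[X] (RatFunc F) (P.1 * D)) =
      algebraMap O v.Completion (i P.1 * i D) := by
    rw [← hLD.comp, map_mul i]
  have hDv0 : j (algebraMap F[X] (RatFunc F) (P.1 * D)) ≠ 0 := by
    rw [hDv, map_ne_zero_iff _ (IsFractionRing.injective O v.Completion)]
    exact mul_ne_zero hLD.unif.ne_zero hiD.ne_zero
  have hom := h8 F h2F g hg f hf P hT q hq
  have hone := hom 1 1 one_ne_zero one_ne_zero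
  rw [mul_one] at hone
  have hone1 : om q (1 : LL f) = 0 := by
    have := hone.1
    rw [zmod2_Line] at this
    exact this
  have hone2 : ep P q (1 : LL f) = 0 := by
    have := hone.2
    rw [zmod2_Line] at this
    exact this
  have hadd : ∀ b c : ZMod 2, b + c = 0 → c = b := by decide
  let Cl : Subgroup (LL f)ˣ :=
    { carrier := {z | (om q (z : LL f) = 0 ∧ ep P q (z : LL f) = 0) ∨
        (om q (z : LL f) = 1 ∧ ep P q (z : LL f) = η)}
      mul_mem' := by
        intro x y hx hy
        have h12 := hom (x : LL f) (y : LL f) x.ne_zero y.ne_zero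
        rw [Set.mem_ofPred_eq, Units.val_mul, h12.1, h12.2]
        rcases hx with ⟨hx1, hx2⟩ | ⟨hx1, hx2⟩ <;> rcases hy with ⟨hy1, hy2⟩ | ⟨hy1, hy2⟩
        · left; rw [hx1, hy1, hx2, hy2]; exact ⟨add_zero 0, add_zero 0⟩
        · right; rw [hx1, hy1, hx2, hy2]; exact ⟨zero_add 1, zero_add η⟩
        · right; rw [hx1, hy1, hx2, hy2]; exact ⟨add_zero 1, add_zero η⟩
        · left; rw [hx1, hy1, hx2, hy2]; exact ⟨zmod2_Line 1, zmod2_Line η⟩
      one_mem' := by
        left
        rw [Units.val_one]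
        exact ⟨hone1, hone2⟩
      inv_mem' := by
        intro x hx
        have h12 := hom (x : LL f) ((x⁻¹ : (LL f)ˣ) : LL f) x.ne_zero (x⁻¹).ne_zero
        rw [← Units.val_mul, mul_inv_cancel, Units.val_one, hone1, hone2] at h12
        rw [Set.mem_ofPred_eq, hadd _ _ h12.1.symm, hadd _ _ h12.2.symm]
        exact hx }
  have hClmem : ∀ x : (LL f)ˣ, x ∈ Cl ↔ ((om q (x : LL f) = 0 ∧ ep P q (x : LL f) = 0) ∨
        (om q (x : LL f) = 1 ∧ ep P q (x : LL f) = η)) := fun x => Iff.rfl
  refine (hClmem z).1 (h2 F f hf P O v.Completion i j ρ hLD _ hDv0 Cl ?_ ?_ ?_ z hz)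
  · intro x hx
    obtain ⟨h12, h13⟩ := h5 F f hf P q hq.1 (x : LL f) hx
    rw [hClmem]
    left
    constructor
    · rw [om, if_pos]
      rw [EvenAt, h13]
      exact IsSquare.one
    · rw [ep, if_pos]
      refine ⟨0, 1, one_ne_zero, ?_⟩
      rw [pow_zero, mul_one, one_pow, mul_one]
      exact h12
  · intro x
    rw [hClmem]
    left
    have h12 := hom (x : LL f) (x : LL f) x.ne_zero x.ne_zero
    rw [Units.val_pow_eq_pow_val, sq, h12.1, h12.2]
    exact ⟨zmod2_Line _, zmod2_Line _⟩
  · intro y y' hyy hy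
    obtain ⟨z₁, hz1, hw⟩ := h6 F f hf P O v.Completion i j ρ hLD y y' hyy
    refine ⟨Units.mk0 z₁ hz1, ?_, hw⟩
    rw [hClmem, Units.val_mk0]
    have hg2d : g₂.natDegree = 2 * g := by
      rw [← hpd, ← hg2, hg2m.natDegree_map]
    have h2κ : (2 : kp P) ≠ 0 := by
      intro h
      apply h2F
      have h12 : algebraMap F (kp P) 2 = 0 := by rw [map_ofNat]; exact h
      exact (map_eq_zero_iff _ (algebraMap F (kp P)).injective).1 h12
    have : Finite (kp P) := by
      have : Module.Finite F (kp P) := P.2.1.finite_adjoinRoot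
      exact Module.finite_of_finite F
    have hLP := h3 O v.Completion (kp P) (i P.1) ρ hLD.unif hLD.surj hLD.ker h2κ hIrr g θ g₂ hg hg2m
      (by rw [hg2]; exact hpi) hg2d _ hmap hd (i D) hiD y (by rw [← hDv]; exact hy)
    obtain ⟨e, s, hrep, hcase⟩ := hLP
    have hRA := h11 O v.Completion (kp P) (i P.1) ρ hLD.unif hLD.surj hLD.ker g₂ hg2m
      (by rw [hg2]; exact hpi)
    have hrepw : Rep (i P.1) ρ g₂ (pr hd (baseChange j (fK f) z₁ * y')) 0 1 := by
      obtain ⟨r, hr⟩ := hw
      have h12 : (1 + C (i P.1) * r : O[X]).map ρ = 1 := by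
        rw [Polynomial.map_add, Polynomial.map_one, Polynomial.map_mul, map_C,
          (hLD.ker (i P.1)).2 dvd_rfl, C_0, zero_mul, add_zero]
      have h13 := hRA.int (1 + C (i P.1) * r) (by
        rw [h12, map_one]
        have : Fact (Irreducible (g₂.map ρ)) := ⟨by rw [hg2]; exact hpi⟩
        exact one_ne_zero)
      rw [h12, map_one] at h13
      have h14 : tk v.Completion (1 + C (i P.1) * r) =
          1 + C (algebraMap O v.Completion (i P.1)) * tk v.Completion r := by
        rw [show tk v.Completion (1 + C (i P.1) * r) =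
          (1 + C (i P.1) * r).map (algebraMap O v.Completion) from rfl,
          Polynomial.map_add, Polynomial.map_one, Polynomial.map_mul, map_C]
      rw [h14, map_add, map_one] at h13
      rw [hr, map_add, map_one, pr_mk]
      exact h13
    have hrepz : Rep (i P.1) ρ g₂ (pr hd (baseChange j (fK f) z₁)) e s := by
      have h12 := hRA.mul _ _ _ _ _ _ hrepw hrep
      rw [← map_mul, mul_assoc, mul_comm y' y, hyy, mul_one, zero_add, one_mul] at h12
      exact h12
    obtain ⟨p₀, hp0⟩ := Polynomial.map_surjective (red P) (AdjoinRoot.mk_surjective) p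
    have hCM := h4 F h2F f hf P O v.Completion i j ρ hLD g₂ hg2m (by rw [hg2]; exact hpi)
      (by rw [hfac]; exact Dvd.intro_left _ rfl) hd p₀ (by rw [hp0, hg2]) q hq.1
      (h10 F g hg f hf P a p hfa hpm hpi hpd q hq p₀ hp0) z₁ e s hrepz
    have hEv : EvenAt q z₁ ↔ Even e := by
      rw [EvenAt, hCM.1, exp_sq_Line]
    rcases hcase with ⟨he, hs⟩ | ⟨he, hs⟩
    · left
      refine ⟨?_, hCM.2.2 hs⟩
      rw [om, if_pos (hEv.2 he)]
    · right
      refine ⟨?_, ?_⟩
      · rw [om, if_neg (fun h => he (hEv.1 h))]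
      · have h12 : ep P q z₁ = 0 ↔ IsSquare (AdjoinRoot.mk p (X - C a)) := by
          rw [hCM.2, hs]
          exact sq_congr_Line hg2 (by rw [hθ])
        by_cases h13 : IsSquare (AdjoinRoot.mk p (X - C a))
        · rw [hη, if_pos h13]
          exact h12.2 h13
        · rw [hη, if_neg h13]
          exact (zmod_Line _).resolve_left (fun h => h13 (h12.1 h))

end Pool.Agent.Helper54.HL
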