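import Pool.Agent.Helper54.HL.St

/-!
# HY, local part: norms (module NMB)
-/

set_option autoImplicit false

namespace Pool.Agent.Helper54.HL

open Polynomial IsDedekindDomain
open Pool.Agent.Helper54.PT (Prm IsAbsP)
open Pool.Agent.Helper3.HY

theorem hNMB (h : StNR) : StNM ∧ StNB ∧ StNS := by
  refine ⟨?_, ?_, ?_⟩
  · intro B _ _ f g p hf hg
    rw [h B (f * g) p (hf.mul hg), h B f p hf, h B g p hg, hf.natDegree_mul hg]
    exact resultant_mul_left f g p p.natDegree le_rfl
  · intro B B' _ _ _ _ φ f p hf
    rw [h B f p hf, h B' (f.map φ) (p.map φ) (hf.map φ), ← resultant_map_map,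
      hf.natDegree_map]
    obtain ⟨l, hl⟩ := Nat.exists_eq_add_of_le (natDegree_map_le (f := φ) (p := p))
    have h1 := resultant_add_right_deg (f.map φ) (p.map φ) f.natDegree (p.map φ).natDegree l le_rfl
    have h2 : (f.map φ).coeff f.natDegree = 1 := by
      rw [coeff_map, hf.coeff_natDegree, map_one]
    rw [h2, one_pow, one_mul] at h1
    rw [hl]
    exact h1
  · intro B _ _ f g hf hg
    rw [h B f g hf, h B g f hg]
    exact resultant_comm f g f.natDegree g.natDegree

end Pool.Agent.Helper54.HL
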