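import Pool.Agent.Helper54.HL.St
import Pool.Agent.Helper3.HY.Base

/-!
# HL: module NO
-/

set_option autoImplicit false

namespace Pool.Agent.Helper54.HL

open Polynomial IsDedekindDomain
open Pool.Agent.Helper54.PT (Prm IsAbsP)
open Pool.Agent.Helper3.HY

section

variable {F : Type} [Field F]

theorem baseChange_mk_NO {k : Type} [Field k] (j : RatFunc F →+* k) (h : (RatFunc F)[X])
    (q : (RatFunc F)[X]) :
    baseChange j h (AdjoinRoot.mk h q) = AdjoinRoot.mk (h.map j) (q.map j) := by
  induction q using Polynomial.induction_on' with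
  | add p q hp hq => rw [map_add, map_add, hp, hq, Polynomial.map_add, map_add]
  | monomial n a =>
    rw [← C_mul_X_pow_eq_monomial, map_mul, map_pow, AdjoinRoot.mk_X, AdjoinRoot.mk_C, map_mul,
      map_pow, Polynomial.map_mul, Polynomial.map_pow, map_X, map_C, map_mul, map_pow,
      AdjoinRoot.mk_X, AdjoinRoot.mk_C]
    unfold baseChange
    rw [AdjoinRoot.map_of, AdjoinRoot.map_root]

variable {P : Prm F} {O k : Type} [CommRing O] [IsDomain O] [IsDiscreteValuationRing O] [Field k]
  [Algebra O k] [IsFractionRing O k] {i : F[X] →+* O} {j : RatFunc F →+* k} {ρ : O →+* kp P}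

omit [IsFractionRing O k] in
theorem isUnit_i_NO (h : LD P i j ρ) {a : F[X]} (ha : ¬ P.1 ∣ a) : IsUnit (i a) := by
  by_contra hu
  have h1 : i a ∈ IsLocalRing.maximalIdeal O := hu
  rw [h.unif.maximalIdeal_eq, Ideal.mem_span_singleton] at h1
  have h2 := (h.ker (i a)).2 h1
  rw [h.rho] at h2
  exact ha (AdjoinRoot.mk_eq_zero.1 h2)

theorem coeff_NO (h : LD P i j ρ) (x : RatFunc F) (c : O) (hx : j x = algebraMap O k (i P.1 * c)) :
    ∃ b d : F[X], ¬ P.1 ∣ d ∧ algebraMap F[X] (RatFunc F) d * x =
      algebraMap F[X] (RatFunc F) P.1 * algebraMap F[X] (RatFunc F) b := by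
  have hden : algebraMap F[X] (RatFunc F) x.denom ≠ 0 :=
    (map_ne_zero_iff _ (RatFunc.algebraMap_injective F)).2 x.denom_ne_zero
  have h1 : algebraMap F[X] (RatFunc F) x.denom * x = algebraMap F[X] (RatFunc F) x.num := by
    have h0 := x.num_div_denom
    rw [div_eq_iff hden] at h0
    rw [h0, mul_comm]
  have h2 : i x.denom * (i P.1 * c) = i x.num := by
    apply IsFractionRing.injective O k
    rw [map_mul, ← hx, h.comp, h.comp, ← map_mul, h1]
  have h3 : ¬ P.1 ∣ x.denom := by
    intro hd
    have h4 : ¬ P.1 ∣ x.num := by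
      intro hn
      have h5 := RatFunc.isCoprime_num_denom x
      exact P.2.2.not_isUnit (h5.isUnit_of_dvd' hn hd)
    have h6 := isUnit_i_NO h h4
    rw [← h2] at h6
    exact h.unif.not_isUnit (isUnit_of_mul_isUnit_left (isUnit_of_mul_isUnit_right h6))
  have h4 : P.1 ∣ x.num := by
    by_contra hn
    have h6 := isUnit_i_NO h hn
    rw [← h2] at h6
    exact h.unif.not_isUnit (isUnit_of_mul_isUnit_left (isUnit_of_mul_isUnit_right h6))
  obtain ⟨b, hb⟩ := h4
  refine ⟨b, x.denom, h3, ?_⟩
  rw [h1, hb, map_mul]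

omit [Field F] in
theorem common_NO {F : Type} [Field F] {P : Prm F} (q : (RatFunc F)[X])
    (h : ∀ n, ∃ b d : F[X], ¬ P.1 ∣ d ∧ algebraMap F[X] (RatFunc F) d * q.coeff n =
      algebraMap F[X] (RatFunc F) P.1 * algebraMap F[X] (RatFunc F) b) :
    ∃ (a : F[X]) (r : F[X][X]), ¬ P.1 ∣ a ∧ C (algebraMap F[X] (RatFunc F) a) * q =
      C (algebraMap F[X] (RatFunc F) P.1) * r.map (algebraMap F[X] (RatFunc F)) := by
  classical
  choose b d hd hbd using h
  have hprime : Prime P.1 := P.2.2.prime
  refine ⟨∏ n ∈ q.support, d n,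
    ∑ n ∈ q.support, C ((∏ m ∈ q.support.erase n, d m) * b n) * X ^ n, ?_, ?_⟩
  · intro hdvd
    obtain ⟨n, -, hn⟩ := (hprime.dvd_finsetProd_iff _).1 hdvd
    exact hd n hn
  · ext n
    rw [coeff_C_mul, coeff_C_mul, coeff_map, finsetSum_coeff]
    simp only [coeff_C_mul, coeff_X_pow, mul_ite, mul_one, mul_zero, Finset.sum_ite_eq]
    split_ifs with hn
    · rw [← Finset.mul_prod_erase q.support d hn, map_mul, map_mul]
      linear_combination (algebraMap F[X] (RatFunc F) (∏ m ∈ q.support.erase n, d m)) * hbd n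
    · rw [notMem_support_iff.1 hn, map_zero, mul_zero, mul_zero]

end

theorem hNO : StNO := by
  intro F _ f hf P O k _ _ _ _ _ _ i j ρ hLD z
  have hhm : (fK f).Monic := hf.map _
  have hjm : ((fK f).map j).Monic := hhm.map _
  have hmap : (fK f).map j = tk k (f.map i) := hLD.map f
  have hf0 : (f.map i).Monic := hf.map _
  constructor
  · rintro ⟨r, a, ha, haz⟩
    obtain ⟨r₀, rfl⟩ := AdjoinRoot.mk_surjective r
    obtain ⟨u, hu⟩ := isUnit_i_NO hLD ha
    have hal : ∀ c : F[X], baseChange j (fK f) (algebraMap F[X] (LL f) c) =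
        AdjoinRoot.mk ((fK f).map j) (C (algebraMap O k (i c))) := by
      intro c
      rw [IsScalarTower.algebraMap_apply F[X] (RatFunc F) (LL f),
        show algebraMap (RatFunc F) (LL f) (algebraMap F[X] (RatFunc F) c) =
          AdjoinRoot.mk (fK f) (C (algebraMap F[X] (RatFunc F) c)) from rfl,
        baseChange_mk_NO, map_C, hLD.comp]
    have h1 := congrArg (baseChange j (fK f)) haz
    rw [map_mul, map_mul, map_sub, map_one, hal, hal, algebraMap_mk, baseChange_mk_NO] at h1
    have h2 : (r₀.map (algebraMap F[X] (RatFunc F))).map j = tk k (r₀.map i) := by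
      rw [tk, Polynomial.map_map, Polynomial.map_map,
        show j.comp (algebraMap F[X] (RatFunc F)) = (algebraMap O k).comp i from
          RingHom.ext fun a => (hLD.comp a).symm]
    rw [h2] at h1
    refine ⟨C (↑u⁻¹ : O) * r₀.map i, ?_⟩
    have h3 : AdjoinRoot.mk ((fK f).map j) (C (algebraMap O k (↑u⁻¹ : O))) *
        AdjoinRoot.mk ((fK f).map j) (C (algebraMap O k (i a))) = 1 := by
      rw [← map_mul, ← C_mul, ← map_mul, ← hu, Units.inv_mul, map_one, C_1, map_one]
    have h4 : tk k (C (↑u⁻¹ : O) * r₀.map i) =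
        C (algebraMap O k (↑u⁻¹ : O)) * tk k (r₀.map i) := by
      unfold tk
      rw [Polynomial.map_mul, map_C]
    rw [h4]
    simp only [map_mul]
    linear_combination (AdjoinRoot.mk ((fK f).map j) (C (algebraMap O k (↑u⁻¹ : O)))) * h1 -
      (baseChange j (fK f) z - 1) * h3
  · rintro ⟨p, hp⟩
    -- reduce `p` modulo `f.map i`
    set p' := p %ₘ (f.map i) with hp'
    have h1 : AdjoinRoot.mk ((fK f).map j) (tk k p) = AdjoinRoot.mk ((fK f).map j) (tk k p') := by
      rw [AdjoinRoot.mk_eq_mk, hmap]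
      refine ⟨tk k (p /ₘ (f.map i)), ?_⟩
      unfold tk
      rw [← Polynomial.map_mul, ← Polynomial.map_sub]
      congr 1
      rw [hp', sub_eq_iff_eq_add, add_comm, modByMonic_add_div p]
    obtain ⟨q₀, hq₀⟩ := AdjoinRoot.mk_surjective (z - 1)
    set q := q₀ %ₘ (fK f) with hq
    have h2 : z - 1 = AdjoinRoot.mk (fK f) q := by
      rw [← hq₀, AdjoinRoot.mk_eq_mk]
      exact ⟨q₀ /ₘ (fK f), by rw [sub_eq_iff_eq_add, add_comm, modByMonic_add_div q₀]⟩
    have h3 : AdjoinRoot.mk ((fK f).map j) (q.map j) =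
        AdjoinRoot.mk ((fK f).map j) (C (algebraMap O k (i P.1)) * tk k p') := by
      rw [← baseChange_mk_NO, ← h2, map_sub, map_one, hp, map_mul, map_mul, h1]
      ring
    have hdq : q.degree < (fK f).degree := degree_modByMonic_lt _ hhm
    have hdp : (tk k p').degree < ((fK f).map j).degree := by
      rw [hmap]
      unfold tk
      rw [hf0.degree_map]
      exact degree_map_le.trans_lt (degree_modByMonic_lt _ hf0)
    have h4 : q.map j = C (algebraMap O k (i P.1)) * tk k p' := by
      rw [AdjoinRoot.mk_eq_mk] at h3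
      by_contra hne
      have h5 : q.map j - C (algebraMap O k (i P.1)) * tk k p' ≠ 0 := sub_ne_zero.2 hne
      have h6 : (q.map j - C (algebraMap O k (i P.1)) * tk k p').degree <
          ((fK f).map j).degree := by
        refine (degree_sub_le _ _).trans_lt (max_lt ?_ ?_)
        · rw [hhm.degree_map]
          exact degree_map_le.trans_lt hdq
        · refine lt_of_le_of_lt ?_ hdp
          rw [degree_C_mul]
          intro h0
          have h7 : i P.1 = 0 := by
            apply IsFractionRing.injective O k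
            rw [h0, map_zero]
          exact hLD.unif.ne_zero h7
      exact h5 (eq_zero_of_dvd_of_degree_lt h3 h6)
    have h5 : ∀ n, ∃ b d : F[X], ¬ P.1 ∣ d ∧ algebraMap F[X] (RatFunc F) d * q.coeff n =
      algebraMap F[X] (RatFunc F) P.1 * algebraMap F[X] (RatFunc F) b := by
      intro n
      refine coeff_NO hLD (q.coeff n) (p'.coeff n) ?_
      rw [← coeff_map, h4, coeff_C_mul]
      unfold tk
      rw [coeff_map, map_mul]
    obtain ⟨a, r, ha, har⟩ := common_NO q h5
    refine ⟨AdjoinRoot.mk f r, a, ha, ?_⟩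
    have hal : ∀ c : F[X], algebraMap F[X] (LL f) c =
        AdjoinRoot.mk (fK f) (C (algebraMap F[X] (RatFunc F) c)) := by
      intro c
      rw [IsScalarTower.algebraMap_apply F[X] (RatFunc F) (LL f)]
      rfl
    rw [hal, hal, h2, algebraMap_mk, ← map_mul, ← map_mul, har]

end Pool.Agent.Helper54.HL
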