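import Pool.Agent.Helper54.HL.St

/-!
# HL module NR: the norm in `AdjoinRoot f` is the resultant
-/

set_option autoImplicit false

namespace Pool.Agent.Helper54.HL

open Polynomial

/-- over a field over which `g` splits -/
theorem split_NR {K : Type} [Field K] {n : Type} [Fintype n] [DecidableEq n] (M : Matrix n n K)
    (g : K[X]) (hg : g.Splits) (hg0 : g ≠ 0) :
    (aeval M g).det = resultant M.charpoly g := by
  have key : ∀ s : Multiset K, (aeval M (s.map fun b => X - C b).prod).det =
      resultant M.charpoly (s.map fun b => X - C b).prod := by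
    intro s
    induction s using Multiset.induction_on with
    | empty => simp
    | cons b s ih =>
      rw [Multiset.map_cons, Multiset.prod_cons, map_mul, Matrix.det_mul, ih]
      have h1 : ((X - C b) * (s.map fun b => X - C b).prod).natDegree =
          (X - C b).natDegree + (s.map fun b => X - C b).prod.natDegree :=
        natDegree_mul (X_sub_C_ne_zero b) (monic_multiset_prod_of_monic _ _
          (fun b _ => monic_X_sub_C b)).ne_zero
      rw [h1, resultant_mul_right _ _ _ _ le_rfl]
      congr 1
      rw [natDegree_X_sub_C, resultant_X_sub_C_right _ _ _ le_rfl, Matrix.charpoly_natDegree_eq_dim,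
        Matrix.eval_charpoly, ← Matrix.det_neg]
      congr 1
      rw [map_sub, aeval_X, aeval_C, neg_sub]
      rfl
  have h1 := hg.eq_prod_roots
  set c := g.leadingCoeff with hc
  have hc0 : c ≠ 0 := leadingCoeff_ne_zero.2 hg0
  set p := (g.roots.map fun b => X - C b).prod with hp
  have hpm : p.Monic := monic_multiset_prod_of_monic _ _ (fun b _ => monic_X_sub_C b)
  have h2 : g.natDegree = (C c).natDegree + p.natDegree := by
    rw [h1, natDegree_mul (C_ne_zero.2 hc0) hpm.ne_zero]
  rw [h2]
  conv_lhs => rw [h1]
  conv_rhs => rw [h1]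
  rw [resultant_mul_right _ _ _ _ le_rfl, map_mul, Matrix.det_mul, key g.roots]
  congr 1
  rw [natDegree_C, resultant_C_zero_right, aeval_C, Matrix.charpoly_natDegree_eq_dim,
    Matrix.algebraMap_eq_diagonal, Matrix.det_diagonal]
  simp

/-- the general statement about matrices -/
theorem det_NR {B : Type} [CommRing B] [IsDomain B] {n : Type} [Fintype n] [DecidableEq n]
    (M : Matrix n n B) (g : B[X]) : (aeval M g).det = resultant M.charpoly g := by
  by_cases hg0 : g = 0
  · subst hg0
    rw [map_zero, natDegree_zero, resultant_zero_right, pow_zero, mul_one,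
      Matrix.charpoly_natDegree_eq_dim]
    rcases isEmpty_or_nonempty n with h | h
    · simp
    · rw [Matrix.det_zero, zero_pow Fintype.card_ne_zero]
  set Ω := AlgebraicClosure (FractionRing B)
  set φ : B →+* Ω := (algebraMap (FractionRing B) Ω).comp (algebraMap B (FractionRing B)) with hφ
  have hinj : Function.Injective φ :=
    (algebraMap (FractionRing B) Ω).injective.comp (IsFractionRing.injective B (FractionRing B))
  apply hinj
  rw [← resultant_map_map, RingHom.map_det, ← Matrix.charpoly_map]
  have h1 := split_NR (φ.mapMatrix M) (g.map φ) (IsAlgClosed.splits _)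
    ((Polynomial.map_ne_zero_iff hinj).2 hg0)
  rw [Matrix.charpoly_natDegree_eq_dim, natDegree_map_eq_of_injective hinj] at h1
  rw [Matrix.charpoly_natDegree_eq_dim]
  refine Eq.trans ?_ h1
  congr 1
  rw [aeval_def, aeval_def, hom_eval₂, eval₂_map]
  congr 1
  ext b i j
  simp [Matrix.algebraMap_matrix_apply, Matrix.map_apply]
  split_ifs <;> simp

theorem hNR : StNR := by
  intro B _ _ f g hf
  set pb := AdjoinRoot.powerBasis' hf with hpb
  have hgen : pb.gen = AdjoinRoot.root f := AdjoinRoot.powerBasis'_gen hf
  have hdim : pb.dim = f.natDegree := AdjoinRoot.powerBasis'_dim hf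
  have hmin : minpoly B pb.gen = f := by
    have hint : IsIntegral B pb.gen := pb.isIntegral_gen
    have h1 : (minpoly B pb.gen).Monic := minpoly.monic hint
    have h2 : (minpoly B pb.gen).natDegree = f.natDegree := by
      rw [pb.natDegree_minpoly, hdim]
    by_contra hne
    have h3 : f - minpoly B pb.gen ≠ 0 := fun h => hne (sub_eq_zero.1 h).symm
    have h4 : aeval pb.gen (f - minpoly B pb.gen) = 0 := by
      rw [map_sub, minpoly.aeval, sub_zero, hgen, AdjoinRoot.aeval_eq, AdjoinRoot.mk_self]
    have h5 := pb.dim_le_natDegree_of_root h3 h4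
    have hfn : f ≠ 0 := hf.ne_zero
    have h6 : (f - minpoly B pb.gen).degree < f.degree :=
      degree_sub_lt_left (by rw [degree_eq_natDegree hfn, degree_eq_natDegree h1.ne_zero, h2]) hfn
        (by rw [hf.leadingCoeff, h1.leadingCoeff])
    have h7 := natDegree_lt_natDegree h3 h6
    omega
  rw [Algebra.norm_eq_matrix_det pb.basis]
  have h8 : AdjoinRoot.mk f g = aeval pb.gen g := by rw [hgen, AdjoinRoot.aeval_eq]
  have h9 : Algebra.leftMulMatrix pb.basis (aeval pb.gen g) =
      aeval (Algebra.leftMulMatrix pb.basis pb.gen) g := by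
    rw [← Polynomial.aeval_algHom_apply]
  rw [h8, h9, det_NR, charpoly_leftMulMatrix, hmin]

end Pool.Agent.Helper54.HL
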