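import Pool.Agent.Helper54.HL.St
import Pool.Agent.Helper3.HY.Base

/-!
# HL: module NV
-/

set_option autoImplicit false

namespace Pool.Agent.Helper54.HL

open Polynomial IsDedekindDomain
open Pool.Agent.Helper54.PT (Prm IsAbsP)
open Pool.Agent.Helper3.HY

theorem hNV : StNV := by
  intro F _ f hf _ _ _ P q hq z hz
  obtain ⟨r, a, ha, haz⟩ := hz
  have haq : algebraMap F[X] (RR f) a ∉ q.asIdeal := by
    intro hmem
    have hcop : IsCoprime P.1 a := (P.2.2.coprime_iff_not_dvd).2 ha
    obtain ⟨u, w, huw⟩ := hcop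
    have h1 : (1 : RR f) ∈ q.asIdeal := by
      rw [← map_one (algebraMap F[X] (RR f)), ← huw, map_add, map_mul, map_mul]
      exact q.asIdeal.add_mem (q.asIdeal.mul_mem_left _ hq) (q.asIdeal.mul_mem_left _ hmem)
    exact q.isPrime.ne_top ((Ideal.eq_top_iff_one _).2 h1)
  have hva : q.valuation (LL f) (algebraMap F[X] (LL f) a) = 1 := by
    rw [IsScalarTower.algebraMap_apply F[X] (RR f) (LL f)]
    exact HeightOneSpectrum.valuation_eq_one_iff_notMem q |>.2 haq
  have hvP : q.valuation (LL f) (algebraMap F[X] (LL f) P.1) < 1 := by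
    rw [IsScalarTower.algebraMap_apply F[X] (RR f) (LL f)]
    exact (HeightOneSpectrum.valuation_lt_one_iff_mem q _).2 hq
  have hvr : q.valuation (LL f) (algebraMap (RR f) (LL f) r) ≤ 1 :=
    HeightOneSpectrum.valuation_le_one q r
  have h1 : q.valuation (LL f) (z - 1) < 1 := by
    have h2 := congrArg (q.valuation (LL f)) haz
    rw [map_mul, map_mul, hva, one_mul] at h2
    rw [h2]
    exact mul_lt_one_of_lt_of_le hvP hvr
  refine ⟨h1, ?_⟩
  have h1' : q.valuation (LL f) (z - 1) < q.valuation (LL f) (1 : LL f) := by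
    rw [map_one]; exact h1
  have h3 : q.valuation (LL f) (1 + (z - 1)) = q.valuation (LL f) (1 : LL f) :=
    Valuation.map_add_eq_of_lt_left _ h1'
  rwa [add_sub_cancel, map_one] at h3

end Pool.Agent.Helper54.HL
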