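import Pool.Agent.Helper54.HL.St

/-!
# HL, module OS: symmetry of the order
-/

set_option autoImplicit false

namespace Pool.Agent.Helper54.HL

open Polynomial

private theorem len_OS {A : Type} [CommRing A] (f g : A) :
    Ring.ord (A ⧸ Ideal.span {f}) (Ideal.Quotient.mk _ g) =
      Module.length A ((A ⧸ Ideal.span {f}) ⧸
        (Ideal.span {g}).map (Ideal.Quotient.mkₐ A (Ideal.span {f}))) := by
  have h1 : (Ideal.span {g}).map (Ideal.Quotient.mkₐ A (Ideal.span {f})) =
      Ideal.span {Ideal.Quotient.mk (Ideal.span {f}) g} := by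
    rw [Ideal.map_span, Set.image_singleton]
    rfl
  rw [h1, Ring.ord]
  exact (Module.length_eq_of_surjective (S := A) (R := A ⧸ Ideal.span {f})
    (M := (A ⧸ Ideal.span {f}) ⧸ Ideal.span {Ideal.Quotient.mk (Ideal.span {f}) g})
    Ideal.Quotient.mk_surjective).symm

theorem hOS : StOS := by
  intro B _ f g
  have h1 := len_OS f g
  have h2 := len_OS g f
  have h3 := (DoubleQuot.quotQuotEquivCommₐ B[X] (Ideal.span {f})
    (Ideal.span {g})).toLinearEquiv.length_eq
  exact h1.trans (h3.trans h2.symm)

end Pool.Agent.Helper54.HL
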