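import Pool.Agent.Helper54.HL.St

/-!
# HY, local part: primes of `R` and primes of `F[t]`
-/

set_option autoImplicit false

namespace Pool.Agent.Helper54.HL

open Polynomial IsDedekindDomain
open Pool.Agent.Helper54.PT (Prm IsAbsP)
open Pool.Agent.Helper3.HY

theorem natDegree_ne_Over {F : Type} [Field F] {f : F[X][X]} (hi : Irreducible (fK f)) :
    f.natDegree ≠ 0 := by
  have h1 : (fK f).natDegree = f.natDegree :=
    natDegree_map_eq_of_injective (IsFractionRing.injective F[X] (RatFunc F)) f
  rw [← h1]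
  exact hi.natDegree_pos.ne'

theorem inj_Over {F : Type} [Field F] {f : F[X][X]} (hi : Irreducible (fK f)) :
    Function.Injective (algebraMap F[X] (RR f)) := by
  rw [AdjoinRoot.algebraMap_eq]
  refine AdjoinRoot.of.injective_of_degree_ne_zero ?_
  intro h
  exact natDegree_ne_Over hi (natDegree_eq_of_degree_eq_some h)

theorem mk_map_Over {A B : Type} [CommRing A] [CommRing B] (φ : A →+* B) (f : A[X]) (g : B[X])
    (h : g ∣ f.map φ) (p : A[X]) :
    AdjoinRoot.map φ f g h (AdjoinRoot.mk f p) = AdjoinRoot.mk g (p.map φ) := by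
  rw [AdjoinRoot.map, AdjoinRoot.lift_mk, ← Polynomial.eval₂_map, ← AdjoinRoot.aeval_eq,
    Polynomial.aeval_def]
  rfl

theorem over_Over : StOver := by
  intro F _ _ f hf hfact _ _
  have hdec : DecidableEq F := Classical.decEq F
  have hi : Irreducible (fK f) := hfact.out
  have hinj := inj_Over hi
  have hfin : Module.Finite F[X] (RR f) := hf.finite_adjoinRoot
  have hint : Algebra.IsIntegral F[X] (RR f) := Algebra.IsIntegral.of_finite _ _
  constructor
  · have hnf : ¬ IsField (RR f) := fun h =>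
      Polynomial.not_isField F (isField_of_isIntegral_of_isField hinj h)
    obtain ⟨p, hp, hpp⟩ := Ring.not_isField_iff_exists_prime.1 hnf
    exact ⟨⟨p, hpp, hp⟩⟩
  · intro q
    have hne : q.asIdeal.comap (algebraMap F[X] (RR f)) ≠ ⊥ :=
      Ideal.IsIntegral.comap_ne_bot F[X] q.ne_bot
    have hprime : (q.asIdeal.comap (algebraMap F[X] (RR f))).IsPrime := by
      have := q.isPrime
      exact Ideal.comap_isPrime _ _
    obtain ⟨g, hg⟩ := (IsPrincipalIdealRing.principal
      (q.asIdeal.comap (algebraMap F[X] (RR f)))).principal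
    have hg' : q.asIdeal.comap (algebraMap F[X] (RR f)) = Ideal.span {g} := hg
    have hg0 : g ≠ 0 := by
      rintro rfl
      apply hne
      rw [hg']
      simp
    have hgp : Prime g := by
      rw [hg'] at hprime
      exact (Ideal.span_singleton_prime hg0).1 hprime
    refine ⟨⟨normalize g, monic_normalize hg0, ?_⟩, ?_⟩
    · exact ((normalize_associated g).irreducible_iff).2 hgp.irreducible
    · show normalize g ∈ q.asIdeal.comap (algebraMap F[X] (RR f))
      rw [hg', Ideal.mem_span_singleton]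
      exact (associated_normalize g).dvd

theorem q_Over : StQ := by
  intro F _ _ g hg f hf hfact _ _ P hP
  have hi : Irreducible (fK f) := hfact.out
  have hinj := inj_Over hi
  obtain ⟨a, p, hpm, hpi, hpd, hfp⟩ := hP
  have hfact2 : Fact (Irreducible p) := ⟨hpi⟩
  have hd : p ∣ f.map (red P) := by
    rw [hfp]; exact dvd_mul_left _ _
  let φ : RR f →+* AdjoinRoot p := AdjoinRoot.map (red P) f p hd
  have hφP : φ (algebraMap F[X] (RR f) P.1) = 0 := by
    show AdjoinRoot.map (red P) f p hd (AdjoinRoot.of f P.1) = 0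
    rw [AdjoinRoot.map_of, red, AdjoinRoot.mk_self, map_zero]
  have hne : RingHom.ker φ ≠ ⊥ := by
    intro h
    have h1 : algebraMap F[X] (RR f) P.1 ∈ RingHom.ker φ := (RingHom.mem_ker).2 hφP
    rw [h, Ideal.mem_bot] at h1
    exact P.2.2.ne_zero (hinj (h1.trans (map_zero _).symm))
  refine ⟨⟨RingHom.ker φ, RingHom.ker_isPrime φ, hne⟩, ?_, ?_⟩
  · exact (RingHom.mem_ker).2 hφP
  · obtain ⟨p₀, hp₀⟩ := Polynomial.map_surjective (red P) AdjoinRoot.mk_surjective p
    refine ⟨p₀, ?_, ?_, ?_, ?_⟩
    · rw [hp₀]; exact hpm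
    · rw [hp₀]; exact hpi
    · rw [hp₀]; exact hpd
    · show AdjoinRoot.mk f p₀ ∈ RingHom.ker φ
      rw [RingHom.mem_ker]
      show AdjoinRoot.map (red P) f p hd (AdjoinRoot.mk f p₀) = 0
      rw [mk_map_Over, hp₀, AdjoinRoot.mk_self]

theorem hOver : StOver ∧ StQ := ⟨over_Over, q_Over⟩

end Pool.Agent.Helper54.HL
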