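import Pool.Agent.Helper54.HL.M_LC
import Pool.Agent.Helper3.HY.BaseU
import Pool.Agent.Helper92.TW.C7

set_option autoImplicit false

namespace Pool.Agent.Helper54.HL

open Polynomial IsDedekindDomain
open Pool.Agent.Helper54.PT (Prm IsAbsP)
open Pool.Agent.Helper3.HY

namespace Q3

theorem even_of_isSquare_exp {n : ℤ} (h : IsSquare (WithZero.exp n : WithZero (Multiplicative ℤ))) :
    Even n := by
  obtain ⟨x, hx⟩ := h
  have hx0 : x ≠ 0 := by
    rintro rfl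
    rw [mul_zero] at hx
    exact WithZero.exp_ne_zero hx
  refine ⟨WithZero.log x, ?_⟩
  rw [← WithZero.log_mul hx0 hx0, ← hx, WithZero.log_exp]

theorem isSquare_exp {n : ℤ} (h : Even n) :
    IsSquare (WithZero.exp n : WithZero (Multiplicative ℤ)) := by
  obtain ⟨m, rfl⟩ := h
  exact ⟨WithZero.exp m, WithZero.exp_add m m⟩

theorem bc_mk {k k' : Type} [Field k] [Field k'] (j : k →+* k') (h p : k[X]) :
    baseChange j h (AdjoinRoot.mk h p) = AdjoinRoot.mk (h.map j) (p.map j) := by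
  rw [baseChange, AdjoinRoot.map, AdjoinRoot.lift_mk]
  rw [← AdjoinRoot.aeval_eq, Polynomial.aeval_def, Polynomial.eval₂_map]
  rfl

section

variable {O k κ : Type} [CommRing O] [Field k] [Algebra O k] [Field κ] {π : O} {ρ : O →+* κ}
  {g₀ : O[X]}

theorem rep_zpow [Fact (Irreducible (tk k g₀))] [Fact (Irreducible (g₀.map ρ))]
    (hA : RepA k π ρ g₀) {z : AdjoinRoot (tk k g₀)} {e : ℤ}
    {s : AdjoinRoot (g₀.map ρ)} (h : Rep π ρ g₀ z e s) (n : ℤ) :
    Rep π ρ g₀ (z ^ n) (n * e) (s ^ n) := by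
  have hz := H94.rep_ne hA h
  obtain ⟨m, rfl | rfl⟩ := Int.eq_nat_or_neg n
  · rw [zpow_natCast, zpow_natCast]
    exact H94.rep_pow hA h m
  · have h1 := H94.rep_pow hA h m
    obtain ⟨s', h2, h3⟩ := H94.rep_inv hA (z' := (z ^ m)⁻¹) h1
      (mul_inv_cancel₀ (pow_ne_zero _ hz))
    rw [zpow_neg, zpow_neg, zpow_natCast, zpow_natCast]
    have h4 : (s ^ m)⁻¹ = s' := inv_eq_of_mul_eq_one_right h3
    rw [h4, neg_mul]
    exact h2

theorem rep_lin {θ b1 u1 : O} (hA : RepA k π ρ (X - C θ)) (hirr : Irreducible ((X - C θ).map ρ))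
    (hθ : θ - b1 = π * u1) (hu1 : ρ u1 ≠ 0) :
    ∃ σ, Rep π ρ (X - C θ) (AdjoinRoot.mk (tk k (X - C θ)) (tk k (X - C b1))) 1 σ := by
  refine ⟨AdjoinRoot.mk (Polynomial.map ρ (X - C θ : O[X])) (C (ρ u1)), ?_⟩
  · have h11 := hA.mul _ _ _ _ _ _ (hA.pow 1) (H94.rep_const hA hirr (u := u1) hu1)
    rw [add_zero, one_mul, zpow_one, ← map_mul, ← C_mul, ← map_mul, ← hθ] at h11
    have h12 : AdjoinRoot.mk (tk k (X - C θ)) (tk k (X - C b1)) =
        AdjoinRoot.mk (tk k (X - C θ)) (C (algebraMap O k (θ - b1))) := by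
      rw [AdjoinRoot.mk_eq_mk]
      refine ⟨1, ?_⟩
      simp only [tk, Polynomial.map_sub, map_X, map_C, map_sub, C_sub]
      ring
    rw [h12]
    exact h11

/-- Bezout with a linear factor -/
theorem bezout {g₂ : O[X]} {θ : O} (hu : IsUnit (g₂.eval θ)) :
    ∃ u v : O[X], u * (X - C θ) + v * g₂ = 1 := by
  obtain ⟨q, hq⟩ := H94.div_linear g₂ θ
  obtain ⟨v, hv⟩ := hu.exists_right_inv
  refine ⟨-(q * C v), C v, ?_⟩
  have h2 : C (g₂.eval θ) * C v = (1 : O[X]) := by rw [← C_mul, hv, C_1]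
  calc -(q * C v) * (X - C θ) + C v * g₂
      = -(q * C v) * (X - C θ) + C v * ((X - C θ) * q + C (g₂.eval θ)) := by rw [← hq]
    _ = C (g₂.eval θ) * C v := by ring
    _ = 1 := h2

theorem glue_aux {l G Y1 Y2 uu vv W : k[X]} {c : k} (hB : uu * l + vv * G = 1)
    (hy1 : l ∣ W - (1 + C c * Y1)) (hy2 : G ∣ W - (1 + C c * Y2)) :
    l * G ∣ W - (1 + C c * (vv * G * Y1 + uu * l * Y2)) := by
  have hcop : IsCoprime l G := ⟨uu, vv, hB⟩
  refine hcop.mul_dvd ?_ ?_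
  · have : W - (1 + C c * (vv * G * Y1 + uu * l * Y2)) =
        (W - (1 + C c * Y1)) + l * (C c * uu * (Y1 - Y2)) := by
      have h3 : vv * G = 1 - uu * l := by rw [← hB]; ring
      rw [h3]; ring
    rw [this]
    exact dvd_add hy1 (dvd_mul_right _ _)
  · have : W - (1 + C c * (vv * G * Y1 + uu * l * Y2)) =
        (W - (1 + C c * Y2)) + G * (C c * vv * (Y2 - Y1)) := by
      have h3 : uu * l = 1 - vv * G := by rw [← hB]; ring
      rw [h3]; ring
    rw [this]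
    exact dvd_add hy2 (dvd_mul_right _ _)

/-- gluing -/
theorem glue [IsDomain O] (hker : ∀ c, ρ c = 0 ↔ π ∣ c) (hsurj : Function.Surjective ρ)
    {g₂ : O[X]} {θ : O} (hu : IsUnit (g₂.eval θ)) {h : k[X]}
    (hh : h = tk k ((X - C θ) * g₂)) (hd1 : tk k (X - C θ) ∣ h) (hd2 : tk k g₂ ∣ h)
    {w : AdjoinRoot h} (h1 : Rep π ρ (X - C θ) (pr hd1 w) 0 1) (h2 : Rep π ρ g₂ (pr hd2 w) 0 1) :
    Nr π w := by
  obtain ⟨y1, hy1⟩ := H94.rep_one_near hker hsurj h1
  obtain ⟨y2, hy2⟩ := H94.rep_one_near hker hsurj h2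
  obtain ⟨W, rfl⟩ := AdjoinRoot.mk_surjective w
  obtain ⟨u, v, huv⟩ := bezout hu
  rw [pr_mk, ← map_one (AdjoinRoot.mk (tk k (X - C θ))), ← map_add, AdjoinRoot.mk_eq_mk] at hy1
  rw [pr_mk, ← map_one (AdjoinRoot.mk (tk k g₂)), ← map_add, AdjoinRoot.mk_eq_mk] at hy2
  have hB : tk k u * tk k (X - C θ) + tk k v * tk k g₂ = 1 := by
    have := congrArg (tk k) huv
    simpa only [tk, Polynomial.map_add, Polynomial.map_mul, Polynomial.map_one] using this
  have hyk : tk k (v * g₂ * y1 + u * (X - C θ) * y2) =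
      tk k v * tk k g₂ * tk k y1 + tk k u * tk k (X - C θ) * tk k y2 := by
    simp only [tk, Polynomial.map_add, Polynomial.map_mul]
  refine ⟨v * g₂ * y1 + u * (X - C θ) * y2, ?_⟩
  rw [← map_one (AdjoinRoot.mk h), ← map_add, AdjoinRoot.mk_eq_mk, hyk]
  have hprod : h = tk k (X - C θ) * tk k g₂ := by
    rw [hh]; simp only [tk, Polynomial.map_mul]
  have h3 := glue_aux hB hy1 hy2
  rwa [← hprod] at h3

end

theorem core (h1 : StRA) (h2 : StRB) (h3 : StCV) (h3' : StCM) (h5 : StNB) (h5' : StNM)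
    (h6 : StFS) (h7 : StNO) (h9 : StQP) (h10 : StUQ)
    {F : Type} [Field F] [Fintype F] (h2F : (2 : F) ≠ 0) {g : ℕ} (hg : 1 ≤ g) {f : F[X][X]}
    (hf : f.Monic) [Fact (Irreducible (fK f))] [IsDedekindDomain (RR f)]
    [IsFractionRing (RR f) (LL f)] {P : Prm F} {O k : Type} [CommRing O] [IsDomain O]
    [IsDiscreteValuationRing O] [Field k] [Algebra O k] [IsFractionRing O k] {i : F[X] →+* O}
    {j : RatFunc F →+* k} {ρ : O →+* kp P} (hLD : LD P i j ρ) {θ : O} {g₂ : O[X]}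
    (hg₂ : g₂.Monic) (hf₀ : f.map i = (X - C θ) * g₂) (hirr : Irreducible (g₂.map ρ))
    (hdegρ : (g₂.map ρ).natDegree = 2 * g) (q : HeightOneSpectrum (RR f)) (hq : IsQ g P q)
    (z : LL f) (hz : z ≠ 0) (hzN : IsSquare (Algebra.norm (RatFunc F) z)) :
    (∀ q', Over P q' → q' ≠ q → EvenAt q' z) ∧ (om q z = 0 → ep P q z = 0 → LocSq P z) := by
  have hπ : Irreducible (i P.1) := hLD.unif
  have hsurj := hLD.surj
  have hker := hLD.ker
  have hfin : Finite (kp P) := finite_kp P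
  have h2κ : (2 : kp P) ≠ 0 := two_ne_zero_kp h2F P
  set π := i P.1 with hπdef
  have hg₂ρ : (g₂.map ρ).Monic := hg₂.map ρ
  have hXρ : (X - C θ).map ρ = X - C (ρ θ) := by simp
  have hXm : (X - C θ : O[X]).Monic := monic_X_sub_C θ
  have hXirr : Irreducible ((X - C θ).map ρ) := by rw [hXρ]; exact irreducible_X_sub_C _
  have hga : (g₂.map ρ).eval (ρ θ) ≠ 0 := by
    intro h0
    have h11 : (g₂.map ρ).natDegree = 1 := natDegree_eq_of_degree_eq_some
      (degree_eq_one_of_irreducible_of_root hirr (x := ρ θ) h0)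
    rw [hdegρ] at h11
    omega
  have hgθ : IsUnit (g₂.eval θ) := by
    apply unit_of_rho_LC hπ hker
    rwa [eval_map, eval₂_hom] at hga
  have hh : (fK f).map j = tk k ((X - C θ) * g₂) := by rw [hLD.map, hf₀]
  have hd1 : tk k (X - C θ) ∣ (fK f).map j := by
    rw [hh]; exact Polynomial.map_dvd _ (dvd_mul_right _ _)
  have hd2 : tk k g₂ ∣ (fK f).map j := by
    rw [hh]; exact Polynomial.map_dvd _ (dvd_mul_left _ _)
  have hA1 := h1 O k (kp P) π ρ hπ hsurj hker (X - C θ) hXm hXirr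
  have hA2 := h1 O k (kp P) π ρ hπ hsurj hker g₂ hg₂ hirr
  have hB1 := h2 O k (kp P) π ρ hπ hsurj hker (X - C θ) hXm hXirr
  have hB2 := h2 O k (kp P) π ρ hπ hsurj hker g₂ hg₂ hirr
  have : Fact (Irreducible (tk k (X - C θ))) := ⟨hA1.irr⟩
  have : Fact (Irreducible (tk k g₂)) := ⟨hA2.irr⟩
  have : Fact (Irreducible ((X - C θ).map ρ)) := ⟨hXirr⟩
  have : Fact (Irreducible (g₂.map ρ)) := ⟨hirr⟩
  let ev1 : LL f →+* AdjoinRoot (tk k (X - C θ)) := (pr hd1).comp (baseChange j (fK f))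
  let ev2 : LL f →+* AdjoinRoot (tk k g₂) := (pr hd2).comp (baseChange j (fK f))
  have hev1 : ∀ x : LL f, ev1 x = pr hd1 (baseChange j (fK f) x) := fun x => rfl
  have hev2 : ∀ x : LL f, ev2 x = pr hd2 (baseChange j (fK f) x) := fun x => rfl
  obtain ⟨e1, s1, hs1⟩ := hA1.ex (ev1 z) ((map_ne_zero ev1).2 hz)
  obtain ⟨e2, s2, hs2⟩ := hA2.ex (ev2 z) ((map_ne_zero ev2).2 hz)
  obtain ⟨c1, hc1, hc1'⟩ := hB1.norm _ _ _ hs1
  obtain ⟨c2, hc2, hc2'⟩ := hB2.norm _ _ _ hs2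
  have hfin1 : FiniteDimensional (kp P) (AdjoinRoot ((X - C θ).map ρ)) :=
    (hXm.map ρ).finite_adjoinRoot
  have hfin2 : FiniteDimensional (kp P) (AdjoinRoot (g₂.map ρ)) := hg₂ρ.finite_adjoinRoot
  have hc10 : ρ c1 ≠ 0 := by rw [hc1]; exact Algebra.norm_ne_zero_iff.2 hs1.1
  have hc20 : ρ c2 ≠ 0 := by rw [hc2]; exact Algebra.norm_ne_zero_iff.2 hs2.1
  have hprod : (fK f).map j = tk k (X - C θ) * tk k g₂ := by
    rw [hh]; simp only [tk, Polynomial.map_mul]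
  have hnorm : Even (e1 + e2 * (2 * g : ℕ)) ∧ IsSquare (c1 * c2) := by
    apply H94.sq_lemma (k := k) hπ
    · rw [← hker, map_mul]; exact mul_ne_zero hc10 hc20
    · obtain ⟨pz, hpz⟩ := AdjoinRoot.mk_surjective z
      have h11 : IsSquare (Algebra.norm k (baseChange j (fK f) z)) := by
        rw [← hpz, bc_mk, ← h5 (RatFunc F) k j (fK f) pz (hf.map _), hpz]
        exact hzN.map j
      have h12 : ∀ h' : k[X], h' = tk k (X - C θ) * tk k g₂ → ∀ (e1 : tk k (X - C θ) ∣ h')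
          (e2 : tk k g₂ ∣ h') (x : AdjoinRoot h'), Algebra.norm k x =
            Algebra.norm k (pr e1 x) * Algebra.norm k (pr e2 x) := by
        rintro _ rfl e1 e2 x
        obtain ⟨px, rfl⟩ := AdjoinRoot.mk_surjective x
        rw [h5' k _ _ px (hXm.map _) (hg₂.map _), pr_mk, pr_mk]
      rw [h12 _ hprod hd1 hd2, ← hev1, ← hev2, hc1', hc2'] at h11
      convert h11 using 1
      have hdg : g₂.natDegree = 2 * g := by rw [← hdegρ, hg₂.natDegree_map]
      rw [hdg, natDegree_X_sub_C, map_mul, zpow_add₀ (H94.am_ne hπ)]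
      push_cast
      rw [mul_one]
      ring
  obtain ⟨hev, hcc⟩ := hnorm
  have he1 : Even e1 := by
    have h11 : Even (e2 * (2 * g : ℕ)) := ⟨e2 * g, by push_cast; ring⟩
    have h12 := hev.sub h11
    rwa [add_sub_cancel_right] at h12
  -- lifts
  have hredsurj : Function.Surjective (red P) := AdjoinRoot.mk_surjective
  obtain ⟨a0, ha0⟩ := hredsurj (ρ θ)
  obtain ⟨H0, hH0⟩ := Polynomial.map_surjective (red P) hredsurj (g₂.map ρ)
  have hfred : f.map (red P) = (X - C (ρ θ)) * g₂.map ρ := by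
    rw [← hLD.map_red, hf₀, Polynomial.map_mul, hXρ]
  have hH0q : AdjoinRoot.mk f H0 ∈ q.asIdeal :=
    h9 F g hg f hf P (ρ θ) (g₂.map ρ) hfred hg₂ρ hirr hdegρ q hq H0 hH0
  refine ⟨?_, ?_⟩
  · intro q' hq' hne
    have hmem : AdjoinRoot.mk f (X - C a0) * AdjoinRoot.mk f H0 ∈ q'.asIdeal := by
      have h11 : C P.1 ∣ (X - C a0) * H0 - f := by
        rw [C_dvd_iff_dvd_coeff]
        intro n
        have h12 : ((X - C a0) * H0 - f).map (red P) = 0 := by
          rw [Polynomial.map_sub, Polynomial.map_mul, hH0, hfred]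
          simp [ha0]
        have h13 := congrArg (fun r => coeff r n) h12
        simp only [coeff_map, coeff_zero] at h13
        exact AdjoinRoot.mk_eq_zero.1 h13
      obtain ⟨r, hr⟩ := h11
      have h14 : (X - C a0) * H0 = f + C P.1 * r := by rw [← hr]; ring
      rw [← map_mul, h14, map_add, AdjoinRoot.mk_self, zero_add, map_mul]
      exact Ideal.mul_mem_right _ _ hq'
    rcases q'.isPrime.mem_or_mem hmem with h11 | h11
    · have h12 := h3 F f hf P O k i j ρ hLD (X - C θ) hXm hXirr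
        (by rw [hf₀]; exact dvd_mul_right _ _) hd1 (X - C a0)
        (by rw [hXρ, Polynomial.map_sub, map_X, map_C, ha0]) q' hq' h11 z e1 s1 hs1
      change IsSquare _
      rw [h12]
      exact isSquare_exp he1.neg
    · exact absurd (h10 F f hf P q q' hq.1 hq' H0 H0 (by rw [hH0]; exact hirr) rfl hH0q h11)
        (Ne.symm hne)
  · intro hom hep
    have hevq : EvenAt q z := by
      by_contra h11
      rw [om, if_neg h11] at hom
      exact one_ne_zero hom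
    obtain ⟨hval, hep'⟩ := h3' F h2F f hf P O k i j ρ hLD g₂ hg₂ hirr
      (by rw [hf₀]; exact dvd_mul_left _ _) hd2 H0 hH0 q hq.1 hH0q z e2 s2 hs2
    have he2 : Even e2 := by
      have h11 : IsSquare (q.valuation (LL f) z) := hevq
      rw [hval] at h11
      simpa using (even_of_isSquare_exp h11).neg
    have hs2S : IsSquare s2 := hep'.1 hep
    have hs1S : IsSquare s1 := by
      have h11 : IsSquare (ρ c2) := by rw [hc2]; exact hs2S.map _
      have h12 : IsSquare (ρ c1 * ρ c2) := by rw [← map_mul]; exact hcc.map ρ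
      have h13 := (H94.isSquare_mul_iff hc20 h11).1 h12
      rw [hc1] at h13
      exact ((h6 (kp P) h2κ _ (hXm.map ρ) hXirr).1 s1).1 h13
    obtain ⟨t1, ht1⟩ := hs1S
    obtain ⟨t2, ht2⟩ := hs2S
    have ht10 : t1 ≠ 0 := by rintro rfl; exact hs1.1 (by rw [ht1, mul_zero])
    have ht20 : t2 ≠ 0 := by rintro rfl; exact hs2.1 (by rw [ht2, mul_zero])
    -- the element `θ - a1`
    obtain ⟨a1, w1, hw1⟩ := hLD.dense (θ + π) 2
    rw [← hπdef] at hw1
    have hθa1 : θ - i a1 = π * (-1 + π * w1) := by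
      have : θ - i a1 = (θ + π - i a1) - π := by ring
      rw [this, hw1]; ring
    have hρπ : ρ π = 0 := (hker π).2 dvd_rfl
    have hρa1 : ρ (i a1) = ρ θ := by
      have h11 := congrArg ρ hθa1
      rw [map_sub, map_mul, hρπ, zero_mul, sub_eq_zero] at h11
      exact h11.symm
    have hρu1 : ρ (-1 + π * w1) = -1 := by
      rw [map_add, map_neg, map_one, map_mul, hρπ, zero_mul, add_zero]
    set y : LL f := AdjoinRoot.mk (fK f) (X - C (algebraMap F[X] (RatFunc F) a1)) with hy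
    have hbcy : baseChange j (fK f) y = AdjoinRoot.mk ((fK f).map j) (tk k (X - C (i a1))) := by
      rw [hy, bc_mk]
      congr 1
      simp [tk, hLD.comp]
    obtain ⟨σ1, hy1⟩ : ∃ σ1, Rep π ρ (X - C θ) (ev1 y) 1 σ1 := by
      rw [hev1, hbcy, pr_mk]
      exact rep_lin hA1 hXirr hθa1 (by rw [hρu1]; exact neg_ne_zero.2 one_ne_zero)
    have hy2 : Rep π ρ g₂ (ev2 y) 0 (AdjoinRoot.mk (g₂.map ρ) ((X - C (i a1)).map ρ)) := by
      have h11 := hA2.int (X - C (i a1)) (by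
        rw [Ne, AdjoinRoot.mk_eq_zero]
        intro h12
        have h13 := natDegree_le_of_dvd h12 (by
          rw [Polynomial.map_sub, map_X, map_C]; exact X_sub_C_ne_zero _)
        rw [hdegρ, Polynomial.map_sub, map_X, map_C, natDegree_X_sub_C] at h13
        omega)
      rw [hev2, hbcy, pr_mk]
      exact h11
    generalize AdjoinRoot.mk (g₂.map ρ) ((X - C (i a1)).map ρ) = τ2 at hy2
    have hσ10 : σ1 ≠ 0 := hy1.1
    have hτ20 : τ2 ≠ 0 := hy2.1
    obtain ⟨ϖ, hϖ1, hϖ2⟩ : ∃ ϖ : LL f, Rep π ρ (X - C θ) (ev1 ϖ) 1 1 ∧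
        Rep π ρ g₂ (ev2 ϖ) 1 1 := by
      have hbcϖ : baseChange j (fK f) (AdjoinRoot.mk (fK f) (C (algebraMap F[X] (RatFunc F) P.1))) =
          AdjoinRoot.mk ((fK f).map j) (C (algebraMap O k π ^ (1 : ℤ))) := by
        rw [bc_mk, zpow_one, map_C, hπdef, hLD.comp]
      refine ⟨AdjoinRoot.mk (fK f) (C (algebraMap F[X] (RatFunc F) P.1)), ?_, ?_⟩
      · rw [hev1, hbcϖ, pr_mk]; exact hA1.pow 1
      · rw [hev2, hbcϖ, pr_mk]; exact hA2.pow 1
    clear_value y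
    obtain ⟨r2, hr2⟩ := he2
    obtain ⟨r1, hr1⟩ := he1
    -- first approximation
    set β0 : LL f := ϖ ^ (-r2) * y ^ (r2 - r1) with hβ0
    have hb1 : Rep π ρ (X - C θ) (ev1 β0) (-r1) (σ1 ^ (r2 - r1)) := by
      have h11 := hA1.mul _ _ _ _ _ _ (rep_zpow hA1 hϖ1 (-r2)) (rep_zpow hA1 hy1 (r2 - r1))
      rw [one_zpow, one_mul, ← map_zpow₀, ← map_zpow₀, ← map_mul] at h11
      convert h11 using 1
      ring
    have hb2 : Rep π ρ g₂ (ev2 β0) (-r2) (τ2 ^ (r2 - r1)) := by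
      have h11 := hA2.mul _ _ _ _ _ _ (rep_zpow hA2 hϖ2 (-r2)) (rep_zpow hA2 hy2 (r2 - r1))
      rw [one_zpow, one_mul, ← map_zpow₀, ← map_zpow₀, ← map_mul] at h11
      convert h11 using 1
      ring
    -- the residues
    set x1 := (t1 * σ1 ^ (r2 - r1))⁻¹ with hx1
    set x2 := (t2 * τ2 ^ (r2 - r1))⁻¹ with hx2
    have hx10 : x1 ≠ 0 := inv_ne_zero (mul_ne_zero ht10 (zpow_ne_zero _ hσ10))
    have hx20 : x2 ≠ 0 := inv_ne_zero (mul_ne_zero ht20 (zpow_ne_zero _ hτ20))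
    obtain ⟨b1, hb1'⟩ := AdjoinRoot.mk_surjective x1
    obtain ⟨b2, hb2'⟩ := AdjoinRoot.mk_surjective x2
    have hcop : IsCoprime (Polynomial.map ρ (X - C θ : O[X])) (g₂.map ρ) := by
      obtain ⟨u, v, huv⟩ := bezout hgθ
      refine ⟨u.map ρ, v.map ρ, ?_⟩
      rw [← Polynomial.map_mul, ← Polynomial.map_mul, ← Polynomial.map_add, huv,
        Polynomial.map_one]
    obtain ⟨u, v, huv⟩ := hcop
    obtain ⟨b, hb⟩ := Polynomial.map_surjective (red P) hredsurj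
      (b1 * (v * g₂.map ρ) + b2 * (u * Polynomial.map ρ (X - C θ : O[X])))
    set bθ : LL f := AdjoinRoot.mk (fK f) (b.map (algebraMap F[X] (RatFunc F))) with hbθ
    have hbcb : baseChange j (fK f) bθ = AdjoinRoot.mk ((fK f).map j) (tk k (b.map i)) := by
      rw [hbθ, bc_mk]
      congr 1
      exact hLD.map b
    have hbρ : (b.map i).map ρ = b1 * (v * g₂.map ρ) + b2 * (u * Polynomial.map ρ (X - C θ : O[X])) := by
      rw [hLD.map_red, hb]
    have hres1 : AdjoinRoot.mk (Polynomial.map ρ (X - C θ : O[X])) ((b.map i).map ρ) = x1 := by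
      rw [hbρ, ← hb1', AdjoinRoot.mk_eq_mk]
      refine ⟨(b2 - b1) * u, ?_⟩
      have h11 : v * g₂.map ρ = 1 - u * Polynomial.map ρ (X - C θ : O[X]) := by rw [← huv]; ring
      rw [h11]; ring
    have hres2 : AdjoinRoot.mk (g₂.map ρ) ((b.map i).map ρ) = x2 := by
      rw [hbρ, ← hb2', AdjoinRoot.mk_eq_mk]
      refine ⟨(b1 - b2) * v, ?_⟩
      have h11 : u * Polynomial.map ρ (X - C θ : O[X]) = 1 - v * g₂.map ρ := by rw [← huv]; ring
      rw [h11]; ring
    have hbb1 : Rep π ρ (X - C θ) (ev1 bθ) 0 x1 := by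
      have h11 := hA1.int (b.map i) (by rw [hres1]; exact hx10)
      rw [hres1] at h11
      rw [hev1, hbcb, pr_mk]
      exact h11
    have hbb2 : Rep π ρ g₂ (ev2 bθ) 0 x2 := by
      have h11 := hA2.int (b.map i) (by rw [hres2]; exact hx20)
      rw [hres2] at h11
      rw [hev2, hbcb, pr_mk]
      exact h11
    have hβ1 := hA1.mul _ _ _ _ _ _ hb1 hbb1
    have hβ2 := hA2.mul _ _ _ _ _ _ hb2 hbb2
    rw [← map_mul, add_zero] at hβ1 hβ2
    have hw1' := hA1.mul _ _ _ _ _ _ hs1 (H94.rep_pow hA1 hβ1 2)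
    have hw2' := hA2.mul _ _ _ _ _ _ hs2 (H94.rep_pow hA2 hβ2 2)
    rw [← map_pow, ← map_mul] at hw1' hw2'
    have hexp1 : e1 + ((2 : ℕ) : ℤ) * -r1 = 0 := by rw [hr1]; push_cast; ring
    have hexp2 : e2 + ((2 : ℕ) : ℤ) * -r2 = 0 := by rw [hr2]; push_cast; ring
    have hone1 : s1 * (σ1 ^ (r2 - r1) * x1) ^ 2 = 1 := by
      rw [ht1, hx1, mul_inv]
      have h11 : σ1 ^ (r2 - r1) ≠ 0 := zpow_ne_zero _ hσ10
      field_simp
    have hone2 : s2 * (τ2 ^ (r2 - r1) * x2) ^ 2 = 1 := by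
      rw [ht2, hx2, mul_inv]
      have h11 : τ2 ^ (r2 - r1) ≠ 0 := zpow_ne_zero _ hτ20
      field_simp
    rw [hexp1, hone1] at hw1'
    rw [hexp2, hone2] at hw2'
    refine ⟨β0 * bθ, ?_, ?_⟩
    · intro h0
      rw [h0, map_zero] at hβ1
      exact H94.rep_ne hA1 hβ1 rfl
    · exact (h7 F f hf P O k i j ρ hLD _).2
        (glue hker hsurj hgθ hh hd1 hd2 hw1' hw2')

end Q3

theorem hQ3 (h1 : StRA) (h2 : StRB) (h3 : StCV) (h3' : StCM) (h4 : StLD) (h5 : StNB)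
    (h5' : StNM) (h6 : StFS) (h7 : StNO) (h8 : StFA) (h9 : StQP) (h10 : StUQ) : StQ3 := by
  intro F _ _ h2F g hg f hf _ _ _ P hT q hq z hz hzN
  obtain ⟨a, p, hp, hpirr, hpdeg, hfp⟩ := hT
  obtain ⟨v, hv, hvP⟩ := Pool.Agent.Helper54.PT.exists_absP P
  obtain ⟨O, _, _, _, _, _, i, ρ, hLD, hRL, -⟩ := h4 F P v hv hvP
  have hpa : p.eval a ≠ 0 := by
    intro h0
    have h11 : p.natDegree = 1 := natDegree_eq_of_degree_eq_some
      (degree_eq_one_of_irreducible_of_root hpirr (x := a) h0)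
    rw [hpdeg] at h11
    omega
  obtain ⟨θ, g₂, hg₂, hθ, hf₀, hg₂ρ⟩ := h8 O (kp P) ρ hLD.surj hRL (f.map i) a p (hf.map i) hp
    hpa (by rw [hLD.map_red, hfp])
  subst hg₂ρ
  exact Q3.core h1 h2 h3 h3' h5 h5' h6 h7 h9 h10 h2F hg hf hLD hg₂ hf₀ hpirr hpdeg q hq z hz hzN

end Pool.Agent.Helper54.HL
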