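import Pool.Agent.Helper54.HL.M_UQ

/-!
# HL, module QP: the prime `q` contains `p(θ)`
-/

set_option autoImplicit false

namespace Pool.Agent.Helper54.HL

open Polynomial IsDedekindDomain
open Pool.Agent.Helper54.PT (Prm IsAbsP)
open Pool.Agent.Helper3.HY

theorem hQP : StQP := by
  intro F _ _ g hg f hf _ _ _ P a p hfac hpm hpi hpd q hq p₀ hp₀
  obtain ⟨hov, p₁, hp1m, hp1i, hp1d, hp1q⟩ := hq
  obtain ⟨a₀, ha₀⟩ := AdjoinRoot.mk_surjective a
  -- `(θ - a₀) p₀(θ)` lies in `q`
  have h1 : AdjoinRoot.mk f ((X - C a₀) * p₀) ∈ q.asIdeal := by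
    refine mem_congr_UQ hov (b := f) ?_ ?_
    · rw [Polynomial.map_mul, Polynomial.map_sub, map_X, map_C, hp₀, hfac]
      congr 3
    · rw [AdjoinRoot.mk_self]; exact Ideal.zero_mem _
  rw [map_mul] at h1
  rcases q.isPrime.mem_or_mem h1 with h2 | h2
  · exfalso
    -- `p₁ mod P` is divisible by `X - a`
    have h3 : ¬ (X - C a) ∣ p₁.map (red P) := by
      rintro ⟨c, hc⟩
      have h4 : IsUnit c := (hp1i.isUnit_or_isUnit hc).resolve_left (not_isUnit_X_sub_C a)
      have h5 := hp1d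
      rw [hc, natDegree_mul (X_sub_C_ne_zero a) h4.ne_zero, natDegree_X_sub_C,
        natDegree_eq_zero_of_isUnit h4] at h5
      omega
    have h4 : IsCoprime (X - C a) (p₁.map (red P)) :=
      ((irreducible_X_sub_C a).isCoprime_or_dvd _).resolve_right h3
    obtain ⟨u, w, huw⟩ := h4
    obtain ⟨u₀, rfl⟩ := surj_UQ P u
    obtain ⟨w₀, rfl⟩ := surj_UQ P w
    have h5 : (1 : F[X][X]).map (red P) = (u₀ * (X - C a₀) + w₀ * p₁).map (red P) := by
      rw [Polynomial.map_one, Polynomial.map_add, Polynomial.map_mul, Polynomial.map_mul,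
        Polynomial.map_sub, map_X, map_C]
      rw [← huw]
      congr 4
      exact ha₀.symm
    have h6 : AdjoinRoot.mk f (1 : F[X][X]) ∈ q.asIdeal := by
      refine mem_congr_UQ hov h5 ?_
      rw [map_add, map_mul, map_mul]
      exact Ideal.add_mem _ (Ideal.mul_mem_left _ _ h2) (Ideal.mul_mem_left _ _ hp1q)
    rw [map_one] at h6
    exact q.isPrime.ne_top ((Ideal.eq_top_iff_one _).2 h6)
  · exact h2

end Pool.Agent.Helper54.HL
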