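import Pool.Agent.Helper54.HL.St

/-!
# HL: unramified factors, the calculus of `Rep`
-/

set_option autoImplicit false

namespace Pool.Agent.Helper54.HL

open Polynomial

theorem map_eq_zero_RA {O κ : Type} [CommRing O] [Field κ] (π : O) (ρ : O →+* κ)
    (hker : ∀ c, ρ c = 0 ↔ π ∣ c) {p : O[X]} (h : p.map ρ = 0) : C π ∣ p := by
  rw [C_dvd_iff_dvd_coeff]
  intro i
  rw [← hker, ← coeff_map, h, coeff_zero]

theorem hRA : StRA := by
  intro O k κ _ _ _ _ _ _ _ π ρ hπ hρ hker g₀ hg hirr
  classical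
  have hmon : (g₀.map ρ).Monic := hg.map ρ
  have hinj : Function.Injective (algebraMap O k) := IsFractionRing.injective O k
  have hπ0 : algebraMap O k π ≠ 0 := by
    rw [Ne, ← map_zero (algebraMap O k), hinj.eq_iff]
    exact hπ.ne_zero
  have hirrk : Irreducible (tk k g₀) :=
    (Polynomial.Monic.irreducible_iff_irreducible_map_fraction_map hg).1
      (Polynomial.Monic.irreducible_of_irreducible_map ρ g₀ hg hirr)
  have : Fact (Irreducible (g₀.map ρ)) := ⟨hirr⟩
  have : Fact (Irreducible (tk k g₀)) := ⟨hirrk⟩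
  refine ⟨hirrk, ?_, ?_, ?_, ?_, ?_⟩
  · -- existence
    intro z hz
    obtain ⟨q₀, rfl⟩ := AdjoinRoot.mk_surjective z
    have hmk : (tk k g₀).Monic := hg.map _
    set q := q₀ %ₘ (tk k g₀) with hq
    have hqz : AdjoinRoot.mk (tk k g₀) q₀ = AdjoinRoot.mk (tk k g₀) q := by
      rw [AdjoinRoot.mk_eq_mk, hq, modByMonic_eq_sub_mul_div]
      rw [sub_sub_cancel]
      exact dvd_mul_right _ _
    rw [hqz] at hz ⊢
    have hq0 : q ≠ 0 := by
      rintro h
      exact hz (by rw [h, map_zero])
    have hqdeg : q.degree < (tk k g₀).degree := degree_modByMonic_lt _ hmk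
    obtain ⟨b, hb, hbq⟩ := IsLocalization.integerNormalization_spec (nonZeroDivisors O) q
    set p' := IsLocalization.integerNormalization (nonZeroDivisors O) q with hp'
    have hb0 : b ≠ 0 := nonZeroDivisors.ne_zero hb
    have hbk : algebraMap O k b ≠ 0 := by
      rw [Ne, ← map_zero (algebraMap O k), hinj.eq_iff]
      exact hb0
    have hbq' : tk k p' = C (algebraMap O k b) * q := by
      rw [tk, hbq, ← Polynomial.smul_eq_C_mul]
      exact (algebraMap_smul k b q).symm
    have hp'0 : p' ≠ 0 := by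
      intro h
      rw [h, tk, Polynomial.map_zero] at hbq'
      rcases mul_eq_zero.1 hbq'.symm with h1 | h1
      · exact hbk (C_eq_zero.1 h1)
      · exact hq0 h1
    have hCπ : Irreducible (C π) := (Polynomial.prime_C_iff.2 hπ.prime).irreducible
    obtain ⟨m, p, hp, hpp⟩ := WfDvdMonoid.max_power_factor hp'0 hCπ
    obtain ⟨j, u, hu⟩ := IsDiscreteValuationRing.eq_unit_mul_pow_irreducible hb0 hπ
    have hpmap : p.map ρ ≠ 0 := fun h => hp (map_eq_zero_RA π ρ hker h)
    -- q = π ^ (m - j) * u⁻¹ * p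
    have hu' : algebraMap O k (u : O) * algebraMap O k ((u⁻¹ : Oˣ) : O) = 1 := by
      rw [← map_mul, Units.mul_inv, map_one]
    have hqp : q = C (algebraMap O k π ^ ((m : ℤ) - j)) * tk k (C ((u⁻¹ : Oˣ) : O) * p) := by
      have h1 : C (algebraMap O k b) * q = C (algebraMap O k b) *
          (C (algebraMap O k π ^ ((m : ℤ) - j)) * tk k (C ((u⁻¹ : Oˣ) : O) * p)) := by
        rw [← hbq', hpp]
        simp only [tk, Polynomial.map_mul, Polynomial.map_pow, Polynomial.map_C]
        rw [hu, map_mul, map_pow]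
        have h2 : (algebraMap O k π) ^ m =
            (algebraMap O k (u : O) * algebraMap O k π ^ j) * (algebraMap O k π ^ ((m : ℤ) - j) *
              algebraMap O k ((u⁻¹ : Oˣ) : O)) := by
          rw [zpow_sub₀ hπ0, zpow_natCast, zpow_natCast]
          have hj : algebraMap O k π ^ j ≠ 0 := pow_ne_zero _ hπ0
          field_simp
          exact hu'.symm
        calc C (algebraMap O k π) ^ m * Polynomial.map (algebraMap O k) p
            = C ((algebraMap O k π) ^ m) * Polynomial.map (algebraMap O k) p := by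
              rw [C_pow]
          _ = _ := by
              rw [h2]
              simp only [C_mul]
              ring
      exact mul_left_cancel₀ (C_ne_zero.2 hbk) h1
    have hunit : ρ ((u⁻¹ : Oˣ) : O) ≠ 0 := by
      have h1 : ρ ((u⁻¹ : Oˣ) : O) * ρ (u : O) = 1 := by
        rw [← map_mul, Units.inv_mul, map_one]
      exact left_ne_zero_of_mul_eq_one h1
    have hppdeg : (C ((u⁻¹ : Oˣ) : O) * p).degree = q.degree := by
      rw [hqp, degree_C_mul (zpow_ne_zero _ hπ0), tk, degree_map_eq_of_injective hinj]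
    refine ⟨(m : ℤ) - j, AdjoinRoot.mk (g₀.map ρ) ((C ((u⁻¹ : Oˣ) : O) * p).map ρ), ?_,
      C ((u⁻¹ : Oˣ) : O) * p, rfl, ?_⟩
    · rw [Ne, AdjoinRoot.mk_eq_zero]
      intro hdvd
      have h1 : ((C ((u⁻¹ : Oˣ) : O) * p).map ρ) ≠ 0 := by
        rw [Polynomial.map_mul, Polynomial.map_C]
        exact mul_ne_zero (C_ne_zero.2 hunit) hpmap
      have h2 := degree_le_of_dvd hdvd h1
      have h3 : ((C ((u⁻¹ : Oˣ) : O) * p).map ρ).degree ≤ q.degree := by
        rw [← hppdeg]; exact degree_map_le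
      have h4 : (g₀.map ρ).degree = (tk k g₀).degree := by
        rw [tk, hg.degree_map ρ, hg.degree_map]
      rw [h4] at h2
      exact absurd (h2.trans h3) (not_le.2 hqdeg)
    · exact congrArg (AdjoinRoot.mk (tk k g₀)) hqp
  · -- uniqueness
    have key : ∀ (e : ℤ) (d : ℕ) (p p' : O[X]),
        AdjoinRoot.mk (tk k g₀) (C (algebraMap O k π ^ e) * tk k p) =
          AdjoinRoot.mk (tk k g₀) (C (algebraMap O k π ^ (e + d)) * tk k p') →
        AdjoinRoot.mk (g₀.map ρ) (p.map ρ) =
          AdjoinRoot.mk (g₀.map ρ) ((C (π ^ d) * p').map ρ) := by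
      intro e d p p' h
      rw [AdjoinRoot.mk_eq_mk] at h ⊢
      have h1 : C (algebraMap O k π ^ e) * tk k p - C (algebraMap O k π ^ (e + d)) * tk k p' =
          C (algebraMap O k π ^ e) * tk k (p - C (π ^ d) * p') := by
        rw [zpow_add₀ hπ0, zpow_natCast]
        simp only [tk, Polynomial.map_sub, Polynomial.map_mul, Polynomial.map_C, map_pow, C_mul,
          Polynomial.map_pow]
        ring
      rw [h1] at h
      have h2 : tk k g₀ ∣ tk k (p - C (π ^ d) * p') := by
        have h3 : IsUnit (C (algebraMap O k π ^ e) : k[X]) :=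
          isUnit_C.2 (IsUnit.mk0 _ (zpow_ne_zero _ hπ0))
        exact (h3.dvd_mul_left).1 h
      have h3 : g₀ ∣ p - C (π ^ d) * p' := (Polynomial.map_dvd_map (algebraMap O k) hinj hg).1 h2
      have h4 := Polynomial.map_dvd ρ h3
      rwa [Polynomial.map_sub] at h4
    have key2 : ∀ (z : AdjoinRoot (tk k g₀)) (e e' : ℤ) (s s' : AdjoinRoot (g₀.map ρ)),
        e ≤ e' → Rep π ρ g₀ z e s → Rep π ρ g₀ z e' s' → e = e' ∧ s = s' := by
      rintro z e e' s s' hee ⟨hs, p, hp, hz⟩ ⟨hs', p', hp', hz'⟩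
      obtain ⟨d, rfl⟩ : ∃ d : ℕ, e' = e + d := ⟨(e' - e).toNat, by omega⟩
      have h := key e d p p' (hz.symm.trans hz')
      rcases Nat.eq_zero_or_pos d with rfl | hd
      · refine ⟨by simp, ?_⟩
        rw [← hp, h, ← hp']
        simp
      · exfalso
        apply hs
        rw [← hp, h, Polynomial.map_mul, Polynomial.map_C, map_pow, (hker π).2 dvd_rfl,
          zero_pow hd.ne', C_0, zero_mul, map_zero]
    intro z e e' s s' h h'
    rcases le_total e e' with hee | hee
    · exact key2 z e e' s s' hee h h'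
    · obtain ⟨h1, h2⟩ := key2 z e' e s' s hee h' h
      exact ⟨h1.symm, h2.symm⟩
  · -- multiplication
    rintro z z' e e' s s' ⟨hs, p, rfl, rfl⟩ ⟨hs', p', rfl, rfl⟩
    refine ⟨mul_ne_zero hs hs', p * p', ?_, ?_⟩
    · rw [Polynomial.map_mul, map_mul]
    · rw [← map_mul, zpow_add₀ hπ0]
      congr 1
      simp only [tk, Polynomial.map_mul, C_mul]
      ring
  · -- integral elements
    intro p hp
    exact ⟨hp, p, rfl, by rw [zpow_zero, C_1, one_mul]⟩
  · -- powers of the uniformizer
    intro e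
    exact ⟨one_ne_zero, 1, by rw [Polynomial.map_one, map_one],
      by rw [show tk k (1 : O[X]) = 1 from Polynomial.map_one _, mul_one]⟩

end Pool.Agent.Helper54.HL
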