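import Pool.Agent.Helper54.HL.St

/-!
# HL: unramified factors, order and norm
-/

set_option autoImplicit false
set_option linter.unusedSectionVars false

namespace Pool.Agent.Helper54.HL

open Polynomial

section

variable {O κ : Type} [CommRing O] [IsDomain O] [IsDiscreteValuationRing O] [Field κ]
  (π : O) (ρ : O →+* κ) (g₀ : O[X])

/-- The reduction map of `O[x] / g₀`. -/
noncomputable def redE_RB : AdjoinRoot g₀ →+* AdjoinRoot (g₀.map ρ) :=
  AdjoinRoot.map ρ g₀ (g₀.map ρ) dvd_rfl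

theorem redE_mk_RB (p : O[X]) :
    redE_RB ρ g₀ (AdjoinRoot.mk g₀ p) = AdjoinRoot.mk (g₀.map ρ) (p.map ρ) := by
  rw [redE_RB, AdjoinRoot.map, AdjoinRoot.lift_mk, ← Polynomial.eval₂_map, ← AdjoinRoot.aeval_eq,
    Polynomial.aeval_def]
  rfl

theorem exists_lift_RB (hρ : Function.Surjective ρ) (p : κ[X]) : ∃ q : O[X], q.map ρ = p :=
  Polynomial.map_surjective ρ hρ p

theorem ker_RB (hρ : Function.Surjective ρ) (hker : ∀ c, ρ c = 0 ↔ π ∣ c) :
    RingHom.ker (redE_RB ρ g₀) = Ideal.span {AdjoinRoot.mk g₀ (C π)} := by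
  apply le_antisymm
  · intro x hx
    obtain ⟨p, rfl⟩ := AdjoinRoot.mk_surjective x
    rw [RingHom.mem_ker, redE_mk_RB, AdjoinRoot.mk_eq_zero] at hx
    obtain ⟨r, hr⟩ := hx
    obtain ⟨q, hq⟩ := exists_lift_RB ρ hρ r
    have h1 : C π ∣ p - g₀ * q := by
      rw [C_dvd_iff_dvd_coeff]
      intro i
      rw [← hker, ← coeff_map, Polynomial.map_sub, Polynomial.map_mul, hq, hr, sub_self,
        coeff_zero]
    obtain ⟨s, hs⟩ := h1
    rw [Ideal.mem_span_singleton]
    refine ⟨AdjoinRoot.mk g₀ s, ?_⟩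
    rw [← map_mul, AdjoinRoot.mk_eq_mk]
    exact ⟨q, by rw [← hs]; ring⟩
  · rw [Ideal.span_singleton_le_iff_mem, RingHom.mem_ker, redE_mk_RB, Polynomial.map_C,
      (hker π).2 dvd_rfl, C_0, map_zero]

theorem max_RB (hρ : Function.Surjective ρ) (hker : ∀ c, ρ c = 0 ↔ π ∣ c)
    (hirr : Irreducible (g₀.map ρ)) : (Ideal.span {AdjoinRoot.mk g₀ (C π)}).IsMaximal := by
  have : Fact (Irreducible (g₀.map ρ)) := ⟨hirr⟩
  rw [← ker_RB π ρ g₀ hρ hker]
  apply RingHom.ker_isMaximal_of_surjective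
  intro y
  obtain ⟨p, rfl⟩ := AdjoinRoot.mk_surjective y
  obtain ⟨q, hq⟩ := exists_lift_RB ρ hρ p
  exact ⟨AdjoinRoot.mk g₀ q, by rw [redE_mk_RB, hq]⟩

theorem unit_RB (hπ : Irreducible π) (hρ : Function.Surjective ρ) (hker : ∀ c, ρ c = 0 ↔ π ∣ c)
    (hg : g₀.Monic) (hirr : Irreducible (g₀.map ρ)) (p : O[X])
    (hp : AdjoinRoot.mk (g₀.map ρ) (p.map ρ) ≠ 0) : IsUnit (AdjoinRoot.mk g₀ p) := by
  by_contra hcon
  obtain ⟨M, hM, hpM⟩ := exists_max_ideal_of_mem_nonunits hcon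
  have hfin : Module.Finite O (AdjoinRoot g₀) := hg.finite_adjoinRoot
  have h1 : (Ideal.comap (algebraMap O (AdjoinRoot g₀)) M).IsMaximal :=
    Ideal.isMaximal_comap_of_isIntegral_of_isMaximal M
  have h2 : π ∈ Ideal.comap (algebraMap O (AdjoinRoot g₀)) M := by
    rw [IsLocalRing.eq_maximalIdeal h1]
    exact hπ.not_isUnit
  have h3 : AdjoinRoot.mk g₀ (C π) ∈ M := h2
  have h4 : Ideal.span {AdjoinRoot.mk g₀ (C π)} = M :=
    (max_RB π ρ g₀ hρ hker hirr).eq_of_le hM.ne_top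
      ((Ideal.span_singleton_le_iff_mem _).2 h3)
  rw [← h4, ← ker_RB π ρ g₀ hρ hker, RingHom.mem_ker, redE_mk_RB] at hpM
  exact hp hpM

end

theorem hRB (h1 : StRA) (h2 : StNB) : StRB := by
  intro O k κ _ _ _ _ _ _ _ π ρ hπ hρ hker g₀ hg hirr
  have hRA := h1 O k κ π ρ hπ hρ hker g₀ hg hirr
  have hinj : Function.Injective (algebraMap O k) := IsFractionRing.injective O k
  have hπ0 : algebraMap O k π ≠ 0 := by
    rw [Ne, ← map_zero (algebraMap O k), hinj.eq_iff]
    exact hπ.ne_zero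
  have hfirr : Fact (Irreducible (g₀.map ρ)) := ⟨hirr⟩
  have hmk : (tk k g₀).Monic := hg.map _
  refine ⟨?_, ?_⟩
  · intro p e s hrep
    obtain ⟨hs, p', hp', hz⟩ := hrep
    -- divisibility over `O`
    have hdiv : ∀ q : O[X], tk k g₀ ∣ tk k q → g₀ ∣ q := fun q hq =>
      (Polynomial.map_dvd_map (algebraMap O k) hinj hg).1 hq
    have he : 0 ≤ e := by
      by_contra hcon
      push Not at hcon
      obtain ⟨d, hd, rfl⟩ : ∃ d : ℕ, 0 < d ∧ e = -(d : ℤ) := ⟨(-e).toNat, by omega, by omega⟩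
      rw [AdjoinRoot.mk_eq_mk] at hz
      have h3 : tk k g₀ ∣ tk k (C (π ^ d) * p - p') := by
        have h4 : tk k (C (π ^ d) * p - p') = C (algebraMap O k π ^ d) *
            (tk k p - C (algebraMap O k π ^ (-(d : ℤ))) * tk k p') := by
          rw [zpow_neg, zpow_natCast, mul_sub, ← mul_assoc, ← C_mul,
            mul_inv_cancel₀ (pow_ne_zero _ hπ0), C_1, one_mul]
          simp only [tk, Polynomial.map_sub, Polynomial.map_mul, Polynomial.map_C, Polynomial.map_pow,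
            C_pow]
        rw [h4]
        exact hz.mul_left _
      have h4 := Polynomial.map_dvd ρ (hdiv _ h3)
      rw [Polynomial.map_sub, Polynomial.map_mul, Polynomial.map_C, map_pow,
        (hker π).2 dvd_rfl, zero_pow hd.ne', C_0, zero_mul, zero_sub, dvd_neg,
        ← AdjoinRoot.mk_eq_zero, hp'] at h4
      exact hs h4
    obtain ⟨m, rfl⟩ := Int.eq_ofNat_of_zero_le he
    refine ⟨m, rfl, ?_⟩
    have h3 : AdjoinRoot.mk g₀ p = AdjoinRoot.mk g₀ (C π) ^ m * AdjoinRoot.mk g₀ p' := by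
      rw [← map_pow, ← map_mul, AdjoinRoot.mk_eq_mk]
      apply hdiv
      rw [AdjoinRoot.mk_eq_mk] at hz
      convert hz using 1
      simp only [tk, Polynomial.map_sub, Polynomial.map_mul, Polynomial.map_C, Polynomial.map_pow,
        zpow_natCast, C_pow]
    have hunit : IsUnit (AdjoinRoot.mk g₀ p') :=
      unit_RB π ρ g₀ hπ hρ hker hg hirr p' (by rw [hp']; exact hs)
    have hirrO : Irreducible g₀ := Polynomial.Monic.irreducible_of_irreducible_map ρ g₀ hg hirr
    have hdom : IsDomain (AdjoinRoot g₀) := AdjoinRoot.isDomain_of_prime hirrO.prime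
    have hne : AdjoinRoot.mk g₀ (C π) ≠ 0 := by
      rw [Ne, AdjoinRoot.mk_eq_zero]
      intro hdvd
      have h4 := Polynomial.map_dvd ρ hdvd
      have h5 := degree_le_of_dvd hdvd (C_ne_zero.2 hπ.ne_zero)
      rw [degree_C hπ.ne_zero] at h5
      have h6 : 0 < (g₀.map ρ).natDegree := hirr.natDegree_pos
      rw [hg.natDegree_map] at h6
      have h7 := natDegree_pos_iff_degree_pos.1 h6
      exact absurd h5 (not_le.2 h7)
    have hmax := max_RB π ρ g₀ hρ hker hirr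
    have hord : Ring.ord (AdjoinRoot g₀) (AdjoinRoot.mk g₀ (C π)) = 1 := by
      rw [Ring.ord, Module.length_eq_one_iff]
      rw [isSimpleModule_iff_isSimpleModule_of_algebraMap_surjective
        (S := AdjoinRoot g₀ ⧸ Ideal.span {AdjoinRoot.mk g₀ (C π)}) Ideal.Quotient.mk_surjective]
      let _ := Ideal.Quotient.field (Ideal.span {AdjoinRoot.mk g₀ (C π)})
      exact instIsSimpleModule _
    rw [h3, Ring.ord_mul_of_isUnit_right hunit, Ring.ord_pow (mem_nonZeroDivisors_of_ne_zero hne),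
      hord]
    simp
  · rintro z e s ⟨hs, p', hp', rfl⟩
    refine ⟨Algebra.norm O (AdjoinRoot.mk g₀ p'), ?_, ?_⟩
    · rw [h2 O κ ρ g₀ p' hg, hp']
    · have hfirrk : Fact (Irreducible (tk k g₀)) := ⟨hRA.irr⟩
      rw [map_mul, map_mul, ← h2 O k (algebraMap O k) g₀ p' hg]
      congr 1
      have h3 : AdjoinRoot.mk (tk k g₀) (C (algebraMap O k π ^ e)) =
          algebraMap k (AdjoinRoot (tk k g₀)) (algebraMap O k π ^ e) := rfl
      rw [h3, Algebra.norm_algebraMap, (AdjoinRoot.powerBasis hmk.ne_zero).finrank,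
        AdjoinRoot.powerBasis_dim, hg.natDegree_map, zpow_mul, zpow_natCast]

end Pool.Agent.Helper54.HL
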