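import Pool.Agent.Helper54.HL.St

/-!
# HY, local part: scaling of the roots (module TR)
-/

set_option autoImplicit false

namespace Pool.Agent.Helper54.HL

open Polynomial IsDedekindDomain
open Pool.Agent.Helper54.PT (Prm IsAbsP)
open Pool.Agent.Helper3.HY

section aux_TR

variable {k : Type} [Field k] (h : k[X]) (D : k)

private lemma comp_scaleRoots_TR : (h.scaleRoots D).comp (C D * X) = C (D ^ h.natDegree) * h := by
  rw [comp, scaleRoots_eval₂_mul C X D, eval₂_C_X, C_pow]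

private lemma aeval_one_TR :
    aeval (algebraMap k (AdjoinRoot h) D * AdjoinRoot.root h) (h.scaleRoots D) = 0 :=
  scaleRoots_aeval_eq_zero (by rw [AdjoinRoot.aeval_eq, AdjoinRoot.mk_self])

private lemma aeval_two_TR (hD : D ≠ 0) :
    aeval (algebraMap k (AdjoinRoot (h.scaleRoots D)) D⁻¹ * AdjoinRoot.root (h.scaleRoots D)) h =
      0 := by
  set A := AdjoinRoot (h.scaleRoots D)
  have h1 := scaleRoots_eval₂_mul (p := h) (algebraMap k A)
    (algebraMap k A D⁻¹ * AdjoinRoot.root (h.scaleRoots D)) D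
  rw [← mul_assoc, ← map_mul, mul_inv_cancel₀ hD, map_one, one_mul, ← aeval_def,
    AdjoinRoot.aeval_eq, AdjoinRoot.mk_self, ← aeval_def] at h1
  have h2 : algebraMap k A D⁻¹ ^ h.natDegree * algebraMap k A D ^ h.natDegree = 1 := by
    rw [← mul_pow, ← map_mul, inv_mul_cancel₀ hD, map_one, one_pow]
  calc aeval (algebraMap k A D⁻¹ * AdjoinRoot.root (h.scaleRoots D)) h
      = (algebraMap k A D⁻¹ ^ h.natDegree * algebraMap k A D ^ h.natDegree) *
        aeval (algebraMap k A D⁻¹ * AdjoinRoot.root (h.scaleRoots D)) h := by rw [h2, one_mul]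
    _ = algebraMap k A D⁻¹ ^ h.natDegree * (algebraMap k A D ^ h.natDegree *
        aeval (algebraMap k A D⁻¹ * AdjoinRoot.root (h.scaleRoots D)) h) := by ring
    _ = 0 := by rw [← h1, mul_zero]

/-- The isomorphism. -/
private noncomputable def phi_TR (hD : D ≠ 0) : AdjoinRoot (h.scaleRoots D) ≃ₐ[k] AdjoinRoot h :=
  AlgEquiv.ofAlgHom
    (AdjoinRoot.liftAlgHom (h.scaleRoots D) (Algebra.ofId k (AdjoinRoot h))
      (algebraMap k (AdjoinRoot h) D * AdjoinRoot.root h) (aeval_one_TR h D))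
    (AdjoinRoot.liftAlgHom h (Algebra.ofId k (AdjoinRoot (h.scaleRoots D)))
      (algebraMap k (AdjoinRoot (h.scaleRoots D)) D⁻¹ * AdjoinRoot.root (h.scaleRoots D))
      (aeval_two_TR h D hD))
    (by
      apply AdjoinRoot.algHom_ext
      rw [AlgHom.comp_apply, AdjoinRoot.liftAlgHom_root, map_mul, AlgHom.commutes,
        AdjoinRoot.liftAlgHom_root, ← mul_assoc, ← map_mul, inv_mul_cancel₀ hD, map_one, one_mul]
      rfl)
    (by
      apply AdjoinRoot.algHom_ext
      rw [AlgHom.comp_apply, AdjoinRoot.liftAlgHom_root, map_mul, AlgHom.commutes,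
        AdjoinRoot.liftAlgHom_root, ← mul_assoc, ← map_mul, mul_inv_cancel₀ hD, map_one, one_mul]
      rfl)

private lemma phi_root_TR (hD : D ≠ 0) : phi_TR h D hD (AdjoinRoot.root (h.scaleRoots D)) =
    algebraMap k (AdjoinRoot h) D * AdjoinRoot.root h :=
  AdjoinRoot.liftAlgHom_root (h.scaleRoots D) (Algebra.ofId k (AdjoinRoot h)) _ (aeval_one_TR h D)

private lemma phi_mk_TR (hD : D ≠ 0) (p : k[X]) : phi_TR h D hD (AdjoinRoot.mk _ p) =
    AdjoinRoot.mk h (p.comp (C D * X)) := by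
  rw [← AdjoinRoot.aeval_eq, ← AdjoinRoot.aeval_eq, aeval_comp, ← aeval_algHom_apply,
    phi_root_TR]
  congr 1
  congr 1
  rw [map_mul, aeval_C, aeval_X]

end aux_TR

theorem hTR : StTR := by
  intro k _ h D hD
  refine ⟨phi_TR h D hD, phi_root_TR h D hD, ?_⟩
  intro g hm hN z hz
  obtain ⟨U, V, hU, hco, hdvd, rfl⟩ := hz
  set m := U.natDegree with hmU
  have hXne : (C D * X : k[X]).natDegree = 1 := natDegree_C_mul_X D hD
  have hlc : (C D * X : k[X]).leadingCoeff = D := by rw [leadingCoeff_C_mul_X]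
  have hUc : (U.comp (C D * X)).natDegree = m := by rw [natDegree_comp, hXne, mul_one]
  have hUl : (U.comp (C D * X)).leadingCoeff = D ^ m := by
    rw [leadingCoeff_comp (by rw [hXne]; norm_num), hU.leadingCoeff, one_mul, hlc]
  have hDm : D ^ m ≠ 0 := pow_ne_zero _ hD
  set U' : k[X] := C (D ^ m)⁻¹ * U.comp (C D * X) with hU'
  set V' : k[X] := C (D ^ g)⁻¹ * V.comp (C D * X) with hV'
  have hUe : U.comp (C D * X) = C (D ^ m) * U' := by
    rw [hU', ← mul_assoc, ← C_mul, mul_inv_cancel₀ hDm, C_1, one_mul]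
  have hU'n : U'.natDegree = m := by
    rw [hU', natDegree_C_mul (inv_ne_zero hDm), hUc]
  refine ⟨U', V', ?_, ?_, ?_, ?_⟩
  · rw [Monic, hU', leadingCoeff_mul, leadingCoeff_C, hUl, inv_mul_cancel₀ hDm]
  · obtain ⟨a, b, hab⟩ := hco
    refine ⟨a.comp (C D * X) * C (D ^ m), b.comp (C D * X) * C (D ^ h.natDegree), ?_⟩
    have h1 := congrArg (fun p : k[X] => p.comp (C D * X)) hab
    simp only [add_comp, mul_comp, one_comp, comp_scaleRoots_TR, hUe] at h1
    rw [← h1]; ring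
  · obtain ⟨c, hc⟩ := hdvd
    refine ⟨C ((D ^ g)⁻¹ ^ 2 * D ^ m) * c.comp (C D * X), ?_⟩
    have h1 := congrArg (fun p : k[X] => p.comp (C D * X)) hc
    simp only [sub_comp, mul_comp, pow_comp, comp_scaleRoots_TR, hUe, hN] at h1
    have h2 : C D = C ((D ^ g)⁻¹ ^ 2) * C (D ^ (2 * g + 1)) := by
      rw [← C_mul]
      congr 1
      have : D ^ g ≠ 0 := pow_ne_zero _ hD
      field_simp
      ring
    have h3 : C D * h - V' ^ 2 = C ((D ^ g)⁻¹ ^ 2) * (C (D ^ (2 * g + 1)) * h -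
        V.comp (C D * X) ^ 2) := by
      rw [mul_sub, ← mul_assoc, ← h2, hV', mul_pow, ← C_pow]
    rw [h3, h1, C_mul]
    ring
  · rw [phi_mk_TR, hU'n]
    congr 1
    rw [mul_comp, pow_comp, neg_comp, one_comp, hUe, C_pow, C_neg, neg_pow (C D) m]
    ring

end Pool.Agent.Helper54.HL
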