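import Pool.Agent.Helper54.HL.M_BG
import Pool.Agent.Helper54.HL.M_CM
import Pool.Agent.Helper54.HL.M_CV
import Pool.Agent.Helper54.HL.M_DE
import Pool.Agent.Helper54.HL.M_EI
import Pool.Agent.Helper54.HL.M_Even
import Pool.Agent.Helper54.HL.M_FA
import Pool.Agent.Helper54.HL.M_FS
import Pool.Agent.Helper54.HL.M_GE
import Pool.Agent.Helper54.HL.M_Hom
import Pool.Agent.Helper54.HL.M_I1
import Pool.Agent.Helper54.HL.M_IN
import Pool.Agent.Helper54.HL.M_LA
import Pool.Agent.Helper54.HL.M_LB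
import Pool.Agent.Helper54.HL.M_LC
import Pool.Agent.Helper54.HL.M_LD0
import Pool.Agent.Helper54.HL.M_LDA
import Pool.Agent.Helper54.HL.M_LDI
import Pool.Agent.Helper54.HL.M_LDP
import Pool.Agent.Helper54.HL.M_LDR
import Pool.Agent.Helper54.HL.M_LP
import Pool.Agent.Helper54.HL.M_Line
import Pool.Agent.Helper54.HL.M_NG
import Pool.Agent.Helper54.HL.M_NMB
import Pool.Agent.Helper54.HL.M_NO
import Pool.Agent.Helper54.HL.M_NR
import Pool.Agent.Helper54.HL.M_NV
import Pool.Agent.Helper54.HL.M_OP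
import Pool.Agent.Helper54.HL.M_OS
import Pool.Agent.Helper54.HL.M_OV
import Pool.Agent.Helper54.HL.M_Over
import Pool.Agent.Helper54.HL.M_Q3
import Pool.Agent.Helper54.HL.M_QP
import Pool.Agent.Helper54.HL.M_RA
import Pool.Agent.Helper54.HL.M_RB
import Pool.Agent.Helper54.HL.M_TR
import Pool.Agent.Helper54.HL.M_Trans
import Pool.Agent.Helper54.HL.M_UQ

/-!
# HY, local part: assembly
-/

set_option autoImplicit false

namespace Pool.Agent.Helper54.HL

open Pool.Agent.Helper3.HY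

theorem aNM : StNM := (hNMB hNR).1

theorem aNB : StNB := (hNMB hNR).2.1

theorem aNS : StNS := (hNMB hNR).2.2

theorem aNG : StNG := hNG aNB

theorem aDE : StDE := hDE aNG

theorem aIN : StIN := hIN hGE aNG aDE hNO

theorem aBG : StBG := hBG aNS aNG

theorem aOP : StOP := hOP hOS

theorem aRB : StRB := hRB hRA aNB

theorem aCV : StCV := hCV hRA

theorem aCM : StCM := hCM hRA aCV

theorem aLD : StLD := hLDA hLD0 hLDI (hLDP aNB) hLDR

theorem aLP : StLP := hLP (hLA hRA aOP) (hLB hRA hFS) (hLC hRA aRB aOP hOS hFS hNR aNM aNS) aBG hRA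

theorem stTrans : StTrans := hTrans hTR

theorem stOver : StOver := hOver.1

theorem stQ : StQ := hOver.2

theorem stHom : StHom := hHom hRA aCM aLD hFA hQP

theorem stQ3 : StQ3 := hQ3 hRA aRB aCV aCM aLD aNB aNM hFS hNO hFA hQP hUQ

theorem stI1 : StI1 := hI1 hRA aRB aCV aLD aNB hFS hNO

theorem stEven : StEven := hEven aLD aIN (hEI aOP hOV hUQ aNG) aBG hNV aDE aNG

theorem stLine : StLine := hLine aLD aIN aLP aCM aCV hNV aDE aNG stHom hFA hQP hRA

end Pool.Agent.Helper54.HL
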