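import Pool.Agent.Helper3.HY.St

/-!
# HY, local part: definitions

`O` is a discrete valuation ring with uniformizer `π`, field of fractions `k` and residue map
`ρ : O → κ`.
-/

set_option autoImplicit false

namespace Pool.Agent.Helper54.HL

open Polynomial IsDedekindDomain
open Pool.Agent.Helper54.PT (Prm IsAbsP)
open Pool.Agent.Helper3.HY

section Local

variable {O k κ : Type} [CommRing O] [Field k] [Algebra O k] [Field κ]

/-- From `O[x]` to `k[x]`. -/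
noncomputable abbrev tk (k : Type) {O : Type} [CommRing O] [Field k] [Algebra O k] (p : O[X]) :
    k[X] := p.map (algebraMap O k)

/-- `U` is integral and its reduction is a power of an irreducible polynomial. -/
def IrrInt (ρ : O →+* κ) (U : k[X]) : Prop :=
  ∃ U₀ : O[X], U₀.Monic ∧ tk k U₀ = U ∧
    ∃ (ψ : κ[X]) (n : ℕ), ψ.Monic ∧ Irreducible ψ ∧ 1 ≤ n ∧ U₀.map ρ = ψ ^ n

/-- The constant coefficient of `U` is the dominating one. -/
def IrrBig (π : O) (U : k[X]) : Prop :=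
  U.coeff 0 ≠ 0 ∧ ∀ l : ℕ, 1 ≤ l → ∃ c : O, U.coeff l = U.coeff 0 * algebraMap O k (π * c)

/-- `w` lies in `1 + π O[θ]`. -/
def Nr (π : O) {h : k[X]} (w : AdjoinRoot h) : Prop :=
  ∃ p : O[X], w = 1 + AdjoinRoot.mk h (C (algebraMap O k π) * tk k p)

/-- `z = π ^ e * u` in `k[x] / g₀`, where `u` is integral with residue `s ≠ 0`. -/
def Rep (π : O) (ρ : O →+* κ) (g₀ : O[X]) (z : AdjoinRoot (tk k g₀)) (e : ℤ)
    (s : AdjoinRoot (g₀.map ρ)) : Prop :=
  s ≠ 0 ∧ ∃ p : O[X], AdjoinRoot.mk (g₀.map ρ) (p.map ρ) = s ∧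
    z = AdjoinRoot.mk (tk k g₀) (C (algebraMap O k π ^ e) * tk k p)

/-- The calculus of `Rep`, part 1. -/
structure RepA (k : Type) {O κ : Type} [CommRing O] [Field k] [Algebra O k] [Field κ] (π : O)
    (ρ : O →+* κ) (g₀ : O[X]) : Prop where
  irr : Irreducible (tk k g₀)
  ex : ∀ z : AdjoinRoot (tk k g₀), z ≠ 0 → ∃ (e : ℤ) (s : AdjoinRoot (g₀.map ρ)), Rep π ρ g₀ z e s
  uniq : ∀ (z : AdjoinRoot (tk k g₀)) (e e' : ℤ) (s s' : AdjoinRoot (g₀.map ρ)),
    Rep π ρ g₀ z e s → Rep π ρ g₀ z e' s' → e = e' ∧ s = s'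
  mul : ∀ (z z' : AdjoinRoot (tk k g₀)) (e e' : ℤ) (s s' : AdjoinRoot (g₀.map ρ)),
    Rep π ρ g₀ z e s → Rep π ρ g₀ z' e' s' → Rep π ρ g₀ (z * z') (e + e') (s * s')
  int : ∀ p : O[X], AdjoinRoot.mk (g₀.map ρ) (p.map ρ) ≠ 0 →
    Rep π ρ g₀ (AdjoinRoot.mk (tk k g₀) (tk k p)) 0 (AdjoinRoot.mk (g₀.map ρ) (p.map ρ))
  pow : ∀ e : ℤ, Rep π ρ g₀ (AdjoinRoot.mk (tk k g₀) (C (algebraMap O k π ^ e))) e 1

/-- The calculus of `Rep`, part 2. -/
structure RepB (k : Type) {O κ : Type} [CommRing O] [Field k] [Algebra O k] [Field κ] (π : O)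
    (ρ : O →+* κ) (g₀ : O[X]) : Prop where
  ord : ∀ (p : O[X]) (e : ℤ) (s : AdjoinRoot (g₀.map ρ)),
    Rep π ρ g₀ (AdjoinRoot.mk (tk k g₀) (tk k p)) e s →
      ∃ m : ℕ, e = m ∧ Ring.ord (AdjoinRoot g₀) (AdjoinRoot.mk g₀ p) = m
  norm : ∀ (z : AdjoinRoot (tk k g₀)) (e : ℤ) (s : AdjoinRoot (g₀.map ρ)), Rep π ρ g₀ z e s →
    ∃ c : O, ρ c = Algebra.norm κ s ∧
      Algebra.norm k z = algebraMap O k π ^ (e * g₀.natDegree) * algebraMap O k c

/-- The projection from `k[x] / h` to `k[x] / g` for a factor `g` of `h`. -/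
noncomputable def pr {h g : k[X]} (hd : g ∣ h) : AdjoinRoot h →+* AdjoinRoot g :=
  AdjoinRoot.map (RingHom.id k) h g (by rw [Polynomial.map_id]; exact hd)

theorem pr_mk {h g : k[X]} (hd : g ∣ h) (p : k[X]) :
    pr hd (AdjoinRoot.mk h p) = AdjoinRoot.mk g p := by
  rw [pr, AdjoinRoot.map, AdjoinRoot.lift_mk]
  rw [← Polynomial.eval₂_map, Polynomial.map_id]
  rw [← AdjoinRoot.aeval_eq, Polynomial.aeval_def]
  rfl

/-- The values of the `x - T` map of the twist at points given by irreducible `U`. -/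
def IsTwIrr (h : k[X]) (D : k) (z : AdjoinRoot h) : Prop :=
  ∃ U V : k[X], U.Monic ∧ Irreducible U ∧ IsCoprime U h ∧ U ∣ C D * h - V ^ 2 ∧
    z = AdjoinRoot.mk h (C (-D) ^ U.natDegree * U)

/-- The image of `y` in `k[x] / g₀` is a square of even valuation or has odd valuation and the class
of `θ - a`. -/
def LinePt (π : O) (ρ : O →+* κ) (g₀ : O[X]) (a : κ) (z : AdjoinRoot (tk k g₀)) : Prop :=
  ∃ (e : ℤ) (s : AdjoinRoot (g₀.map ρ)), Rep π ρ g₀ z e s ∧
    ((Even e ∧ IsSquare s) ∨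
      (¬ Even e ∧ (IsSquare s ↔ IsSquare (AdjoinRoot.mk (g₀.map ρ) (X - C a)))))

/-- The roots lift. -/
def RootLift (ρ : O →+* κ) : Prop :=
  ∀ (g : O[X]) (a : O), g.Monic → ρ (g.eval a) = 0 → ρ (g.derivative.eval a) ≠ 0 →
    ∃ b : O, g.eval b = 0 ∧ ρ b = ρ a

end Local

section Global

variable {F : Type} [Field F]

/-- Local data at `P`. -/
structure LD (P : Prm F) {O k : Type} [CommRing O] [Field k] [Algebra O k]
    (i : F[X] →+* O) (j : RatFunc F →+* k) (ρ : O →+* kp P) : Prop where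
  comp : ∀ a : F[X], algebraMap O k (i a) = j (algebraMap F[X] (RatFunc F) a)
  unif : Irreducible (i P.1)
  rho : ∀ a : F[X], ρ (i a) = red P a
  ker : ∀ c : O, ρ c = 0 ↔ i P.1 ∣ c
  dense : ∀ (c : O) (n : ℕ), ∃ a : F[X], i P.1 ^ n ∣ c - i a

theorem LD.surj {P : Prm F} {O k : Type} [CommRing O] [Field k] [Algebra O k]
    {i : F[X] →+* O} {j : RatFunc F →+* k} {ρ : O →+* kp P} (h : LD P i j ρ) :
    Function.Surjective ρ := by
  intro x
  obtain ⟨a, rfl⟩ := AdjoinRoot.mk_surjective x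
  exact ⟨i a, h.rho a⟩

theorem LD.map {P : Prm F} {O k : Type} [CommRing O] [Field k] [Algebra O k]
    {i : F[X] →+* O} {j : RatFunc F →+* k} {ρ : O →+* kp P} (h : LD P i j ρ) (f : F[X][X]) :
    (fK f).map j = tk k (f.map i) := by
  rw [fK, tk, Polynomial.map_map, Polynomial.map_map,
    show j.comp (algebraMap F[X] (RatFunc F)) = (algebraMap O k).comp i from
      RingHom.ext fun a => (h.comp a).symm]

theorem LD.map_red {P : Prm F} {O k : Type} [CommRing O] [Field k] [Algebra O k]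
    {i : F[X] →+* O} {j : RatFunc F →+* k} {ρ : O →+* kp P} (h : LD P i j ρ) (f : F[X][X]) :
    (f.map i).map ρ = f.map (red P) := by
  rw [Polynomial.map_map, show ρ.comp i = red P from RingHom.ext fun a => h.rho a]

end Global

end Pool.Agent.Helper54.HL
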