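import Pool.Agent.Helper54.HL.St

/-!
# HY, local part, module BG: points with a pole
-/

set_option autoImplicit false

namespace Pool.Agent.Helper54.HL

open Polynomial IsDedekindDomain
open Pool.Agent.Helper54.PT (Prm IsAbsP)
open Pool.Agent.Helper3.HY

private lemma norm_C_BG {k : Type} [Field k] (U : k[X]) (hU : U.Monic) (c : k) :
    Algebra.norm k (AdjoinRoot.mk U (C c)) = c ^ U.natDegree := by
  have h : AdjoinRoot.mk U (C c) = algebraMap k (AdjoinRoot U) c := rfl
  rw [h, Algebra.norm_algebraMap, (AdjoinRoot.powerBasis' hU).finrank, AdjoinRoot.powerBasis'_dim]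

private lemma big_form_BG {O k : Type} [CommRing O] [Field k] [Algebra O k] (π : O) (U : k[X])
    (h0 : U.coeff 0 ≠ 0)
    (h : ∀ l : ℕ, 1 ≤ l → ∃ c : O, U.coeff l = U.coeff 0 * algebraMap O k (π * c)) :
    ∃ p : O[X], U = C (U.coeff 0) * (1 + C (algebraMap O k π) * tk k p) := by
  choose! c hc using h
  refine ⟨∑ l ∈ Finset.Icc 1 U.natDegree, C (c l) * X ^ l, ?_⟩
  ext l
  rw [coeff_C_mul, coeff_add, coeff_C_mul, tk, coeff_map, finsetSum_coeff]
  simp only [coeff_C_mul_X_pow]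
  rw [Finset.sum_ite_eq (Finset.Icc 1 U.natDegree) l (fun i => c i), coeff_one]
  by_cases hl : l = 0
  · subst hl; simp
  · rw [if_neg hl, zero_add]
    by_cases hl2 : l ≤ U.natDegree
    · rw [if_pos (Finset.mem_Icc.2 ⟨by omega, hl2⟩), ← map_mul, hc l (by omega)]
    · rw [if_neg (fun h => hl2 (Finset.mem_Icc.1 h).2), map_zero, mul_zero, mul_zero,
        coeff_eq_zero_of_natDegree_lt (by omega)]

theorem hBG (h2 : StNS) (h3 : StNG) : StBG := by
  intro O k _ _ _ _ _ _ π hπ f₀ hf₀ hodd h hh D hD U V hU hbig hcop hdiv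
  obtain ⟨hU0, hbig⟩ := hbig
  obtain ⟨hmul, hinv, hnorm⟩ := h3 O k π hπ f₀ hf₀ h hh
  obtain ⟨p, hp⟩ := big_form_BG π U hU0 hbig
  have hhm : h.Monic := by rw [hh]; exact hf₀.map _
  have hinj : Function.Injective (algebraMap O k) := IsFractionRing.injective O k
  have hhd : h.natDegree = f₀.natDegree := by rw [hh]; exact natDegree_map_eq_of_injective hinj _
  set a := U.coeff 0 with ha
  set w0 : AdjoinRoot h := 1 + AdjoinRoot.mk h (C (algebraMap O k π) * tk k p) with hw0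
  have hw0N : Nr π w0 := ⟨p, rfl⟩
  have hmkU : AdjoinRoot.mk h U = AdjoinRoot.mk h (C a) * w0 := by
    conv_lhs => rw [hp]
    rw [map_mul, map_add, map_one]
  obtain ⟨c, hc⟩ := hnorm w0 hw0N
  set N := h.natDegree with hN
  set m := U.natDegree with hm
  obtain ⟨s, hs⟩ : ∃ s, N = 2 * s + 1 := by
    rw [hhd]; exact hodd
  have n1 : Algebra.norm k (AdjoinRoot.mk h U) = a ^ N * (1 + algebraMap O k (π * c)) := by
    rw [hmkU, map_mul, norm_C_BG h hhm, hc]
  have n2 : D ^ m * Algebra.norm k (AdjoinRoot.mk U h) = (Algebra.norm k (AdjoinRoot.mk U V)) ^ 2 := by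
    have e : AdjoinRoot.mk U (C D) * AdjoinRoot.mk U h = AdjoinRoot.mk U V ^ 2 := by
      rw [← map_mul, ← map_pow, ← sub_eq_zero, ← map_sub]
      exact AdjoinRoot.mk_eq_zero.2 hdiv
    rw [← norm_C_BG U hU D, ← map_mul, e, map_pow]
  set r := Algebra.norm k (AdjoinRoot.mk U V) with hr
  have n3 : Algebra.norm k (AdjoinRoot.mk h U) =
      (-1) ^ m * Algebra.norm k (AdjoinRoot.mk U h) := by
    rw [h2 k h U hhm hU]
    congr 1
    rw [← hN, ← hm, hs, pow_mul]
    congr 1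
    rw [pow_succ, pow_mul]; norm_num
  have key : (-D) ^ m * (a ^ N * (1 + algebraMap O k (π * c))) = r ^ 2 := by
    rw [← n1, n3, ← n2, neg_pow]
    have : ((-1 : k) ^ m) * ((-1) ^ m) = 1 := by rw [← mul_pow]; norm_num
    calc _ = (((-1 : k) ^ m) * ((-1) ^ m)) * (D ^ m * Algebra.norm k (AdjoinRoot.mk U h)) := by ring
      _ = _ := by rw [this, one_mul]
  -- the unit `1 + π c`
  have hnu : ¬ IsUnit π := hπ.not_isUnit
  have hun : IsUnit (1 + π * c) := by
    by_contra hcon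
    have h1 : (1 + π * c) ∈ IsLocalRing.maximalIdeal O := (IsLocalRing.mem_maximalIdeal _).2 hcon
    have h2 : π * c ∈ IsLocalRing.maximalIdeal O :=
      Ideal.mul_mem_right _ _ ((IsLocalRing.mem_maximalIdeal _).2 hnu)
    have h3 : (1 : O) ∈ IsLocalRing.maximalIdeal O := by
      have := Ideal.sub_mem _ h1 h2
      simpa using this
    exact (IsLocalRing.mem_maximalIdeal _).1 h3 isUnit_one
  obtain ⟨u, hu⟩ := hun.exists_right_inv
  have hu' : u = 1 + π * (-(c * u)) := by linear_combination hu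
  have hw1 : Nr (h := h) π (AdjoinRoot.mk h (C (algebraMap O k u))) := by
    refine ⟨C (-(c * u)), ?_⟩
    rw [tk, map_C, ← C_mul, ← map_mul, ← map_one (AdjoinRoot.mk h), ← map_add, ← C_1, ← C_add,
      ← map_one (algebraMap O k), ← map_add, ← hu']
  have hkey2 : (1 + algebraMap O k (π * c)) * algebraMap O k u = 1 := by
    rw [← map_one (algebraMap O k), ← map_add, ← map_mul, hu]
  have hne : (1 + algebraMap O k (π * c)) ≠ 0 := left_ne_zero_of_mul_eq_one hkey2
  have hr0 : r ≠ 0 := by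
    intro h0
    rw [h0, zero_pow two_ne_zero] at key
    have : (-D) ^ m * (a ^ N * (1 + algebraMap O k (π * c))) ≠ 0 :=
      mul_ne_zero (pow_ne_zero _ (neg_ne_zero.2 hD)) (mul_ne_zero (pow_ne_zero _ hU0) hne)
    exact this key
  refine ⟨r / a ^ s, AdjoinRoot.mk h (C (algebraMap O k u)) * w0, div_ne_zero hr0 (pow_ne_zero _ hU0),
    hmul _ _ hw1 hw0N, ?_⟩
  have e1 : (-D) ^ m * a = (r / a ^ s) ^ 2 * algebraMap O k u := by
    have has : a ^ s ≠ 0 := pow_ne_zero _ hU0
    rw [div_pow, div_mul_eq_mul_div, eq_div_iff (pow_ne_zero _ has)]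
    rw [← key]
    have e2 : a ^ N = a * (a ^ s) ^ 2 := by rw [hs, ← pow_mul, pow_succ]; ring
    rw [e2]
    calc (-D) ^ m * a * (a ^ s) ^ 2 = (-D) ^ m * (a * (a ^ s) ^ 2) * 1 := by ring
      _ = (-D) ^ m * (a * (a ^ s) ^ 2) * ((1 + algebraMap O k (π * c)) * algebraMap O k u) := by
          rw [hkey2]
      _ = _ := by ring
  have ec : algebraMap k (AdjoinRoot h) (r / a ^ s) = AdjoinRoot.mk h (C (r / a ^ s)) := rfl
  rw [map_mul, hmkU, ← mul_assoc, ← C_pow, ← map_mul, ← C_mul, e1, ec, ← map_pow, ← C_pow,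
    ← mul_assoc, ← map_mul, ← C_mul]

end Pool.Agent.Helper54.HL
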