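import Pool.Agent.Helper54.HL.St
import Pool.Agent.Helper54.HL.M_LA

/-!
# HL module LB: points at a ramified twist, case B
-/

set_option autoImplicit false

namespace Pool.Agent.Helper54.HL

open Polynomial IsDedekindDomain
open Pool.Agent.Helper54.PT (Prm IsAbsP)
open Pool.Agent.Helper3.HY

theorem isSquare_sq_mul_iff_LB {K : Type*} [Field K] {y t : K} (hy : y ≠ 0) :
    IsSquare (y ^ 2 * t) ↔ IsSquare t := by
  constructor
  · rintro ⟨r, hr⟩
    refine ⟨r / y, ?_⟩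
    field_simp
    rw [mul_comm t, hr]
    ring
  · rintro ⟨r, hr⟩
    exact ⟨y * r, by rw [hr]; ring⟩

theorem hLB (h1 : StRA) (h2 : StFS) : StLB := by
  intro O k κ _ _ _ _ _ _ _ _ π ρ hπ hρ hk h2κ g θ g₂ hg1 hg2 hgirr hgdeg h hh hd D' hD' U₀ V ψ n
    hU hUirr hcop hdvd hψ hψirr hn hUψ hgood
  have hgood : ψ = X - C (ρ θ) := hgood
  have hA := h1 O k κ π ρ hπ hρ hk g₂ hg2 hgirr
  have hgm : (g₂.map ρ).Monic := hg2.map ρ
  have hDne : ρ D' ≠ 0 := (hD'.map ρ).ne_zero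
  have hgd : (g₂.map ρ).natDegree = 2 * g := by rw [hg2.natDegree_map, hgdeg]
  have _ : Fact (Irreducible (g₂.map ρ)) := ⟨hgirr⟩
  have hnd1 : ¬ g₂.map ρ ∣ X - C (ρ θ) := by
    intro hdv
    have h3 := natDegree_le_of_dvd hdv (X_sub_C_ne_zero _)
    rw [natDegree_X_sub_C, hgd] at h3
    omega
  have hUnd : ¬ g₂.map ρ ∣ U₀.map ρ := by
    rw [hUψ, hgood]
    intro hdv
    exact hnd1 (hgirr.prime.dvd_of_dvd_pow hdv)
  have hdegU : (tk k U₀).natDegree = n := by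
    rw [tk, hU.natDegree_map, ← hU.natDegree_map ρ, hUψ, natDegree_pow, hgood, natDegree_X_sub_C,
      mul_one]
  set t : AdjoinRoot (g₂.map ρ) := AdjoinRoot.mk (g₂.map ρ) (X - C (ρ θ)) with ht
  set c : AdjoinRoot (g₂.map ρ) := AdjoinRoot.mk (g₂.map ρ) (C (-ρ D')) with hc
  have ht0 : t ≠ 0 := fun h0 => hnd1 (AdjoinRoot.mk_eq_zero.1 h0)
  have hc0 : c ≠ 0 := by
    intro h0
    have h1 : IsUnit (C (-ρ D') : κ[X]) := isUnit_C.2 (isUnit_iff_ne_zero.2 (neg_ne_zero.2 hDne))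
    have h2 := h1.map (AdjoinRoot.mk (g₂.map ρ))
    rw [← hc, h0] at h2
    exact not_isUnit_zero h2
  have hs : AdjoinRoot.mk (g₂.map ρ) (C (-ρ D') ^ (tk k U₀).natDegree * U₀.map ρ) =
      c ^ n * t ^ n := by
    rw [hdegU, hUψ, hgood, map_mul, map_pow, map_pow]
  have hrep : Rep π ρ g₂ (pr hd (AdjoinRoot.mk h
      (C (-algebraMap O k (π * D')) ^ (tk k U₀).natDegree * tk k U₀))) n (c ^ n * t ^ n) := by
    rw [pr_mk, ← hs]
    have h3 := rep_pt_LA hA hgirr hDne U₀ hUnd (tk k U₀).natDegree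
    rw [hdegU] at h3 ⊢
    exact h3
  refine ⟨n, c ^ n * t ^ n, hrep, ?_⟩
  rcases Nat.even_or_odd n with hev | hodd
  · left
    refine ⟨(Int.even_coe_nat _).2 hev, ?_⟩
    rw [← mul_pow]
    exact hev.isSquare_pow _
  · right
    refine ⟨?_, ?_⟩
    · rw [Int.even_coe_nat, Nat.not_even_iff_odd]
      exact hodd
    · obtain ⟨r, hr⟩ := (h2 κ h2κ (g₂.map ρ) hgm hgirr).2 (by rw [hgd]; exact even_two_mul g)
        (-ρ D')
      have hcr : c = r * r := by rw [← hr, hc]; rfl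
      have hr0 : r ≠ 0 := by
        rintro rfl
        rw [mul_zero] at hcr
        exact hc0 hcr
      obtain ⟨m, hm⟩ := hodd
      have e : c ^ n * t ^ n = (r ^ n * t ^ m) ^ 2 * t := by
        rw [hcr, hm]
        ring
      rw [e, isSquare_sq_mul_iff_LB (mul_ne_zero (pow_ne_zero _ hr0) (pow_ne_zero _ ht0))]

end Pool.Agent.Helper54.HL
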