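import Pool.Agent.Helper54.HL.St

/-!
# HL module OP: the parity of the order
-/

set_option autoImplicit false

namespace Pool.Agent.Helper54.HL

open Polynomial IsDedekindDomain
open Pool.Agent.Helper54.PT (Prm IsAbsP)
open Pool.Agent.Helper3.HY

theorem ord_equiv_OP {R S : Type} [CommRing R] [CommRing S] (φ : R ≃+* S) (x : R) :
    Ring.ord R x = Ring.ord S (φ x) := by
  let _ := φ.toRingHom.toAlgebra
  have h1 : Module.length R (S ⧸ Ideal.span {φ x}) = Module.length S (S ⧸ Ideal.span {φ x}) :=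
    Module.length_eq_of_surjective φ.surjective
  rw [Ring.ord, Ring.ord, ← h1]
  let ψ : R ≃ₐ[R] S := AlgEquiv.ofRingEquiv (f := φ) (fun r => rfl)
  exact (Ideal.quotientEquivAlg (Ideal.span {x}) (Ideal.span {φ x}) ψ
    (by rw [Ideal.map_span, Set.image_singleton]; rfl)).toLinearEquiv.length_eq

theorem ord_pi_OP (hOS : StOS) {O κ : Type} [CommRing O] [Field κ] (π : O) (ρ : O →+* κ)
    (hρ : Function.Surjective ρ) (hk : ∀ c, ρ c = 0 ↔ π ∣ c) (U₀ : O[X]) (ψ : κ[X]) (n : ℕ)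
    (hψ : Irreducible ψ) (h : U₀.map ρ = ψ ^ n) :
    Ring.ord (AdjoinRoot U₀) (AdjoinRoot.mk U₀ (C π)) = n := by
  rw [hOS O U₀ (C π)]
  have hsurj : Function.Surjective (mapRingHom ρ) := Polynomial.map_surjective ρ hρ
  have hker : RingHom.ker (mapRingHom ρ) = Ideal.span {C π} := by
    ext p
    rw [RingHom.mem_ker, coe_mapRingHom, Ideal.mem_span_singleton, C_dvd_iff_dvd_coeff,
      Polynomial.ext_iff]
    simp [hk]
  let e1 : AdjoinRoot (C π) ≃+* O[X] ⧸ RingHom.ker (mapRingHom ρ) := Ideal.quotEquivOfEq hker.symm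
  let e2 := RingHom.quotientKerEquivOfSurjective hsurj
  rw [ord_equiv_OP (e1.trans e2) (AdjoinRoot.mk (C π) U₀)]
  have h2 : (e1.trans e2) (AdjoinRoot.mk (C π) U₀) = ψ ^ n := by rw [← h]; rfl
  rw [h2, Ring.ord_pow (mem_nonZeroDivisors_of_ne_zero hψ.ne_zero),
    Ring.ord_of_irreducible hψ]
  simp

/-- denominators -/
theorem clear_OP {O k : Type} [CommRing O] [IsDomain O] [Field k] [Algebra O k]
    [IsFractionRing O k] (V : k[X]) :
    ∃ (d : O) (V₀ : O[X]), d ≠ 0 ∧ tk k V₀ = C (algebraMap O k d) * V := by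
  obtain ⟨b, hb⟩ := IsLocalization.integerNormalization_map_to_map (nonZeroDivisors O) V
  refine ⟨b, IsLocalization.integerNormalization (nonZeroDivisors O) V,
    nonZeroDivisors.ne_zero b.2, ?_⟩
  rw [tk, hb, ← Polynomial.smul_eq_C_mul, algebraMap_smul]

theorem hOP (h : StOS) : StOP := by
  intro O k κ _ _ _ _ _ _ _ _ π ρ hπ hρ hk f₀ U₀ hf hU hirr hcop ψ n hψ hUψ D u e hu hD V hV
  have hinj : Function.Injective (algebraMap O k) := IsFractionRing.injective O k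
  have hUirr : Irreducible U₀ :=
    (hU.irreducible_iff_irreducible_map_fraction_map (K := k)).2 hirr
  have hUprime : Prime U₀ := hUirr.prime
  have hdom : IsDomain (AdjoinRoot U₀) := AdjoinRoot.isDomain_of_prime hUprime
  have hdeg : 0 < U₀.natDegree := by
    have h1 := hirr.natDegree_pos
    rwa [tk, hU.natDegree_map] at h1
  -- constants
  have hC : ∀ c : O, c ≠ 0 → AdjoinRoot.mk U₀ (C c) ≠ 0 := by
    intro c hc h0
    rw [AdjoinRoot.mk_eq_zero] at h0
    exact hU.not_dvd_of_natDegree_lt (by simpa using hc) (by simpa using hdeg) h0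
  have hπn : Ring.ord (AdjoinRoot U₀) (AdjoinRoot.mk U₀ (C π)) = n :=
    ord_pi_OP h π ρ hρ hk U₀ ψ n hψ hUψ
  have hnz : ∀ {x : AdjoinRoot U₀}, x ≠ 0 → x ∈ nonZeroDivisors (AdjoinRoot U₀) :=
    fun hx => mem_nonZeroDivisors_of_ne_zero hx
  have hunit : ∀ w : O, IsUnit w → Ring.ord (AdjoinRoot U₀) (AdjoinRoot.mk U₀ (C w)) = 0 := by
    intro w hw
    exact Ring.ord_of_isUnit ((hw.map (C : O →+* O[X])).map (AdjoinRoot.mk U₀))
  have hpow : ∀ (w : O) (r : ℕ), IsUnit w →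
      Ring.ord (AdjoinRoot U₀) (AdjoinRoot.mk U₀ (C (π ^ r * w))) = ((r * n : ℕ) : ℕ∞) := by
    intro w r hw
    rw [C_mul, C_pow, map_mul, map_pow, Ring.ord_mul _ (hnz (hC w hw.ne_zero)), hunit w hw,
      Ring.ord_pow (hnz (hC π hπ.ne_zero)), hπn, add_zero]
    simp
  -- finiteness
  have hfin : ∀ x : AdjoinRoot U₀, x ≠ 0 → ∃ m : ℕ, Ring.ord (AdjoinRoot U₀) x = m := by
    intro x hx
    have _ : Module.Finite O (AdjoinRoot U₀) := hU.finite_adjoinRoot
    have hint : IsIntegral O x := Algebra.IsIntegral.isIntegral x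
    obtain ⟨c, hc0, hc⟩ := hint.isAlgebraic.exists_nonzero_dvd (hnz hx)
    obtain ⟨r, w, hw⟩ := IsDiscreteValuationRing.eq_unit_mul_pow_irreducible hc0 hπ
    have h1 : algebraMap O (AdjoinRoot U₀) c = AdjoinRoot.mk U₀ (C (π ^ r * (w : O))) := by
      rw [hw, mul_comm]
      rfl
    rw [h1] at hc
    have h2 := Ring.ord_le_ord_of_dvd hc
    rw [hpow _ r w.isUnit] at h2
    have h3 : Ring.ord (AdjoinRoot U₀) x ≠ ⊤ := ne_top_of_le_ne_top (ENat.natCast_ne_top _) h2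
    exact ⟨_, (ENat.natCast_toNat h3).symm⟩
  have hf0 : AdjoinRoot.mk U₀ f₀ ≠ 0 := by
    intro h0
    rw [AdjoinRoot.mk_eq_zero] at h0
    have h1 : tk k U₀ ∣ tk k f₀ := Polynomial.map_dvd _ h0
    exact hirr.not_isUnit (hcop.isUnit_of_dvd' dvd_rfl h1)
  -- the equation
  obtain ⟨d, V₀, hd0, hV₀⟩ := clear_OP (O := O) V
  have hdvd : U₀ ∣ C (d ^ 2 * D) * f₀ - V₀ ^ 2 := by
    rw [← Polynomial.map_dvd_map (algebraMap O k) hinj hU]
    have h1 : (C (d ^ 2 * D) * f₀ - V₀ ^ 2).map (algebraMap O k) =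
        C (algebraMap O k d) ^ 2 * (C (algebraMap O k D) * tk k f₀ - V ^ 2) := by
      have h2 : V₀.map (algebraMap O k) = C (algebraMap O k d) * V := hV₀
      rw [Polynomial.map_sub, Polynomial.map_mul, Polynomial.map_pow, h2, map_C, map_mul, map_pow,
        C_mul, C_pow]
      ring
    rw [h1]
    exact hV.mul_left _
  have heq : AdjoinRoot.mk U₀ (C d) ^ 2 * AdjoinRoot.mk U₀ (C D) * AdjoinRoot.mk U₀ f₀ =
      AdjoinRoot.mk U₀ V₀ ^ 2 := by
    have h1 := AdjoinRoot.mk_eq_zero.2 hdvd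
    rw [map_sub, sub_eq_zero, map_mul, C_mul, C_pow, map_mul, map_pow, map_pow] at h1
    exact h1
  have hD0 : D ≠ 0 := by rw [hD]; exact mul_ne_zero (pow_ne_zero _ hπ.ne_zero) hu.ne_zero
  have hdne := hC d hd0
  have hDne := hC D hD0
  have hVne : AdjoinRoot.mk U₀ V₀ ≠ 0 := by
    intro h0
    rw [h0, zero_pow two_ne_zero] at heq
    exact mul_ne_zero (mul_ne_zero (pow_ne_zero _ hdne) hDne) hf0 heq
  obtain ⟨a, ha⟩ := hfin _ hdne
  obtain ⟨m, hm⟩ := hfin _ hf0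
  obtain ⟨v, hv⟩ := hfin _ hVne
  refine ⟨m, ?_, ?_⟩
  · rw [h O f₀ U₀, hm]
  · have h1 := congrArg (Ring.ord (AdjoinRoot U₀)) heq
    rw [Ring.ord_mul _ (hnz hf0), Ring.ord_mul _ (hnz hDne), Ring.ord_pow (hnz hdne),
      Ring.ord_pow (hnz hVne), ha, hm, hv, hD, hpow u e hu] at h1
    have h2 : 2 * a + e * n + m = 2 * v := by
      rw [nsmul_eq_mul, nsmul_eq_mul] at h1
      exact_mod_cast h1
    rw [Nat.even_iff]
    omega

end Pool.Agent.Helper54.HL
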